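import Pool.Agent.H26.PN.Ind
import Pool.Agent.H26.PD.Idem

/-!
The augmentation ideal of a finitely generated normal subgroup `N` of a `PD_3`-group is flat if
`G ⧸ N` has one end.
-/

set_option autoImplicit false
set_option linter.unusedSectionVars false

namespace Pool.Agent.H26.PD.PN

open Pool.Agent.Helper386.PD3
open scoped Classical Matrix

noncomputable section

variable {G : Type} [Group G] {N : Subgroup G} {n : ℕ} {w : G →* ℤˣ}

theorem inc_smul_map {X : Type} [AddCommGroup X] [Module (RR N) X]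
    {F : (Fin n → RR G) →+ X} (hF : ∀ g ∈ N, ∀ v, F (gof g • v) = aM N X g (F v)) (α : RR N)
    (v : Fin n → RR G) : F (inc N α • v) = α • F v := by
  induction α using rr_ind with
  | h1 g =>
    rw [inc_of, hF _ g.2, aM_apply N X g.2]
  | h2 x y hx hy => rw [map_add, add_smul, map_add, hx, hy, add_smul]
  | h3 x hx => rw [map_neg, neg_smul, map_neg, hx, neg_smul]

/-- an equivariant map onto the group ring of the subgroup, compatible with augmentations -/
theorem exists_psi {ε : (Fin n → RR G) →+ ℤ}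
    (hε : ∀ (g : G) (v : Fin n → RR G), ε (gof g • v) = ε v) :
    ∃ ψ : (Fin n → RR G) →+ RR N, (∀ g ∈ N, ∀ v, ψ (gof g • v) = aM N (RR N) g (ψ v)) ∧
      ∀ v, eps (ψ v) = ε v := by
  obtain ⟨ψ, h1, h2⟩ := lift_free (n := n) (isAct_aM N (RR N))
    (fun j _ v => eps v = ε (Pi.single j 1))
    (fun j x => ⟨((ε (Pi.single j 1) : ℤ) : RR N), by rw [map_intCast]; rfl⟩)
    (fun g hg j x v hv => by
      rw [aM_apply N _ hg, smul_eq_mul, map_mul, eps_of, one_mul, hv])
  refine ⟨ψ, h1, fun v => ?_⟩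
  refine hom_ext (F := (eps (G := N)).toAddMonoidHom.comp ψ) (F' := ε) (fun x j => ?_) v
  rw [hε]
  exact h2 j x

theorem mv_fu [N.Normal] {l : ℕ} (R : Submodule (RR N) (Fin l → RR N)) (A : MR G n)
    (y : Fin l → Fin n → RR G) (i : Fin n) :
    mv A (fun k => fu R (fun j => dg w (y j k))) i =
      fu R (fun j => dg w ((y j ᵥ* dgM w A) i)) := by
  rw [mv_apply]
  have h1 : ∀ k, rho ((Fin l → RR N) ⧸ R) (A i k) (fu R (fun j => dg w (y j k))) =
      fu R (A i k • (fun j => dg w (y j k))) := fun k => (fu_smul R _ _).symm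
  simp only [h1]
  rw [← map_sum]
  congr 1
  funext j
  rw [Finset.sum_apply]
  change _ = dg w (∑ k, y j k * dg w (A i k))
  rw [dg_sum]
  refine Finset.sum_congr rfl fun k _ => ?_
  rw [dg_mul, dg_dg]
  rfl

theorem vecMul_mul {X : Fin n → RR G} (A B : MR G n) : X ᵥ* A ᵥ* B = X ᵥ* (A * B) :=
  Matrix.vecMul_vecMul _ _ _

variable {e0 e1 e2 e3 d0 d1 d2 : MR G n}

/-- The equational criterion for flatness. -/
theorem ec [N.Normal] (hF : Full w e0 e1 e2 e3 d0 d1 d2) (hfg : N.FG) (hinf : Infinite (G ⧸ N))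
    (hone : OneEnded (G ⧸ N)) {m : ℕ} (h : Fin m → N)
    (hgen : Subgroup.closure (Set.range h) = ⊤) {l : ℕ} (r : Fin l → Fin m → RR N)
    (hr : ∀ j, bd h (r j) = 0) :
    ∃ E : Matrix (Fin m) (Fin m) (RR N), (∀ a, bd h (E a) = gof (h a) - 1) ∧
      ∀ j, r j ᵥ* E = 0 := by
  have hC := hF.colow
  obtain ⟨ε, hε, ⟨u0, hu0, hεu0⟩, hεd, hεex⟩ := hC.aug
  -- lifts of the generators
  have hx : ∀ a : Fin m, ∃ v, v ᵥ* dgM w e2 = v ∧
      v ᵥ* dgM w d2 = gof (h a : G) • u0 - u0 := by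
    intro a
    obtain ⟨v, hv⟩ := hεex (gof (h a : G) • u0 - u0)
      (by rw [Matrix.sub_vecMul, Matrix.smul_vecMul, hu0]) (by rw [map_sub, hε, sub_self])
    exact ⟨v ᵥ* dgM w e2, by rw [vecMul_mul, hC.ee1], by rw [vecMul_mul, hC.e1d0, hv]⟩
  choose x hx1 hx2 using hx
  let X : Fin l → Fin n → RR G := fun j => ∑ a, inc N (r j a) • x a
  have hXmul : ∀ (A : MR G n) (j : Fin l), X j ᵥ* A = ∑ a, inc N (r j a) • (x a ᵥ* A) := by
    intro A j
    rw [Matrix.sum_vecMul]
    exact Finset.sum_congr rfl fun a _ => Matrix.smul_vecMul _ _ _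
  have hX1 : ∀ j, X j ᵥ* dgM w e2 = X j := by
    intro j
    rw [hXmul]
    exact Finset.sum_congr rfl fun a _ => by rw [hx1]
  have hX2 : ∀ j, X j ᵥ* dgM w d2 = 0 := by
    intro j
    rw [hXmul]
    have h1 : ∀ a, inc N (r j a) • (x a ᵥ* dgM w d2) =
        inc N (r j a * (gof (h a) - 1)) • u0 := by
      intro a
      rw [hx2, map_mul, map_sub, inc_of, map_one, mul_smul, sub_smul, one_smul]
    rw [Finset.sum_congr rfl fun a _ => h1 a, ← Finset.sum_smul, ← map_sum, ← bd_apply, hr,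
      map_zero, zero_smul]
  have hy : ∀ j, ∃ y, y ᵥ* dgM w e1 = y ∧ y ᵥ* dgM w d1 = X j := by
    intro j
    obtain ⟨y, hy⟩ := hC.ex1 (X j) (hX1 j) (hX2 j)
    exact ⟨y ᵥ* dgM w e1, by rw [vecMul_mul, hC.ee2], by rw [vecMul_mul, hC.e2d1, hy]⟩
  choose y hy1 hy2 using hy
  -- the module
  let s : Fin m → Fin l → RR N := fun a j => dg (w.comp N.subtype) (r j a)
  let R : Submodule (RR N) (Fin l → RR N) := Submodule.span (RR N) (Set.range s)
  have hs : ∀ a, s a ∈ R := fun a => Submodule.subset_span ⟨a, rfl⟩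
  have hinc : ∀ a j, inc N (s a j) = dg w (inc N (r j a)) := fun a j => inc_dg w _
  let c : Fin n → (G → ((Fin l → RR N) ⧸ R)) := fun k => fu R (fun j => dg w (y j k))
  have hc : ∀ i, c i ∈ Bf N (aM N ((Fin l → RR N) ⧸ R)) := fun i => fu_mem R _
  have hce : mv e1 c = c := by
    funext i
    change mv e1 (fun k => fu R (fun j => dg w (y j k))) i = _
    rw [mv_fu]
    simp only [hy1]
    rfl
  have hcd : mv d1 c = 0 := by
    funext i
    change mv d1 (fun k => fu R (fun j => dg w (y j k))) i = _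
    rw [mv_fu]
    have h1 : (fun j => dg w ((y j ᵥ* dgM w d1) i)) =
        ∑ a, fun j => dg w (x a i) * inc N (s a j) := by
      funext j
      rw [hy2, Finset.sum_apply]
      change dg w ((∑ a, inc N (r j a) • x a) i) = _
      rw [Finset.sum_apply, dg_sum]
      refine Finset.sum_congr rfl fun a _ => ?_
      rw [Pi.smul_apply, smul_eq_mul, dg_mul, hinc]
    rw [h1, map_sum]
    exact Finset.sum_eq_zero fun a _ => fu_inc R (hs a) _
  obtain ⟨b, hb, hbc⟩ := h1_zero hF.low (stable_Bf N _)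
    (fun D h1 h2 => inner_all hfg hinf hone h1 h2) hc hce hcd
  choose t ht using fun k => fu_surj R (hb k)
  have hη : ∀ i, ∃ η : Fin m → RR G, ∀ j,
      dg w (y j i) - ∑ k, d0 i k * t k j = ∑ a, η a * inc N (s a j) := by
    intro i
    have h1 : fu R ((fun j => dg w (y j i)) - ∑ k, d0 i k • t k) = 0 := by
      rw [map_sub, map_sum]
      have h2 : ∑ k, fu R (d0 i k • t k) = c i := by
        rw [← congrFun hbc i, mv_apply]
        exact Finset.sum_congr rfl fun k _ => by rw [fu_smul, ht]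
      rw [h2]
      exact sub_self _
    obtain ⟨η, hη⟩ := fu_eq_zero s h1
    refine ⟨η, fun j => ?_⟩
    rw [← hη j, Pi.sub_apply, Finset.sum_apply]
    rfl
  choose η hη using hη
  let v : Fin m → Fin n → RR G := fun a i => dg w (η i a)
  let z : Fin l → Fin n → RR G := fun j k => dg w (t k j)
  have hyz : ∀ j, y j = z j ᵥ* dgM w d0 + ∑ a, inc N (r j a) • v a := by
    intro j
    funext i
    have h1 := hη i j
    rw [sub_eq_iff_eq_add] at h1
    have h2 := congrArg (dg w) h1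
    rw [dg_dg, dg_add, dg_sum, dg_sum] at h2
    rw [h2, Pi.add_apply, Finset.sum_apply, add_comm]
    congr 1
    · change _ = ∑ k, dg w (t k j) * dg w (d0 i k)
      exact Finset.sum_congr rfl fun k _ => by rw [dg_mul]
    · refine Finset.sum_congr rfl fun a _ => ?_
      rw [dg_mul, hinc, dg_dg]
      rfl
  let x' : Fin m → Fin n → RR G := fun a => x a - v a ᵥ* dgM w d1
  have hx'1 : ∀ j, ∑ a, inc N (r j a) • x' a = 0 := by
    intro j
    have h1 : ∑ a, inc N (r j a) • x' a = X j - (∑ a, inc N (r j a) • v a) ᵥ* dgM w d1 := by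
      rw [Matrix.sum_vecMul, ← Finset.sum_sub_distrib]
      refine Finset.sum_congr rfl fun a _ => ?_
      rw [Matrix.smul_vecMul, ← smul_sub]
    have h2 : ∑ a, inc N (r j a) • v a = y j - z j ᵥ* dgM w d0 := by
      conv_rhs => rw [hyz j]
      rw [add_sub_cancel_left]
    rw [h1, h2, Matrix.sub_vecMul, hy2, vecMul_mul, ← dgM_mul, hF.low.dd, dgM_zero,
      Matrix.vecMul_zero]
    abel
  have hx'2 : ∀ a, x' a ᵥ* dgM w d2 = gof (h a : G) • u0 - u0 := by
    intro a
    change (x a - v a ᵥ* dgM w d1) ᵥ* dgM w d2 = _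
    rw [Matrix.sub_vecMul, hx2, vecMul_mul, hC.dd, Matrix.vecMul_zero, sub_zero]
  -- decomposition
  obtain ⟨S, hS⟩ := exists_common (N := N) (ι := Fin m × Fin n)
    (P := fun p S => ∑ q ∈ S, inc N (prH N (x' p.1 p.2 * gof (q.out)⁻¹)) * gof q.out = x' p.1 p.2)
    (fun p => exists_right (N := N) (x' p.1 p.2))
  let α : Fin m → Fin n → (G ⧸ N) → RR N := fun a i q => prH N (x' a i * gof (q.out)⁻¹)
  have hα : ∀ a i, ∑ q ∈ S, inc N (α a i q) * gof q.out = x' a i := fun a i => hS S le_rfl (a, i)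
  have hrel : ∀ j i q, ∑ a, r j a * α a i q = 0 := by
    intro j i q
    have h1 : ∀ a, r j a * α a i q = prH N ((inc N (r j a) • x' a) i * gof (q.out)⁻¹) := by
      intro a
      rw [Pi.smul_apply, smul_eq_mul, mul_assoc, prH_inc_mul]
    rw [Finset.sum_congr rfl fun a _ => h1 a, ← map_sum, ← Finset.sum_mul, ← Finset.sum_apply,
      hx'1, Pi.zero_apply, zero_mul, map_zero]
  obtain ⟨ψ, hψ1, hψ2⟩ := exists_psi (N := N) hε
  have hψ3 := inc_smul_map hψ1
  have hyq : ∀ (i : Fin n) (q : G ⧸ N), ∃ β, bd h β = ψ (gof q.out • dgM w d2 i) := by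
    intro i q
    apply bd_surj' h hgen
    rw [hψ2, hε]
    have := hεd (Pi.single i 1)
    rwa [Matrix.single_one_vecMul] at this
  choose β hβ using hyq
  obtain ⟨b0, hb0⟩ := bd_surj' h hgen (r := ψ u0 - 1)
    (by rw [map_sub, map_one, hψ2, hεu0, sub_self])
  have hψx : ∀ a, ∑ i, ∑ q ∈ S, α a i q * ψ (gof q.out • dgM w d2 i) =
      (gof (h a) - 1) * ψ u0 := by
    intro a
    have h1 : x' a ᵥ* dgM w d2 =
        ∑ i, ∑ q ∈ S, inc N (α a i q) • (gof q.out • dgM w d2 i) := by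
      have h2 : x' a ᵥ* dgM w d2 = ∑ i, x' a i • dgM w d2 i := Matrix.vecMul_eq_sum _ _
      rw [h2]
      refine Finset.sum_congr rfl fun i _ => ?_
      rw [← hα a i, Finset.sum_smul]
      exact Finset.sum_congr rfl fun q _ => by rw [mul_smul]
    have h2 := congrArg ψ h1
    rw [hx'2, map_sub, hψ1 _ (h a).2, aM_apply N _ (h a).2, map_sum] at h2
    rw [sub_mul, one_mul]
    change gof (h a) • ψ u0 - ψ u0 = _ at h2
    rw [smul_eq_mul] at h2
    rw [h2]
    refine Finset.sum_congr rfl fun i _ => ?_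
    rw [map_sum]
    exact Finset.sum_congr rfl fun q _ => by rw [hψ3, smul_eq_mul]
  refine ⟨fun a => ∑ i, ∑ q ∈ S, α a i q • β i q - (gof (h a) - 1) • b0, fun a => ?_, fun j => ?_⟩
  · rw [map_sub, map_sum, map_smul, hb0, smul_eq_mul]
    have h1 : ∑ i, bd h (∑ q ∈ S, α a i q • β i q) = (gof (h a) - 1) * ψ u0 := by
      rw [← hψx a]
      refine Finset.sum_congr rfl fun i _ => ?_
      rw [map_sum]
      exact Finset.sum_congr rfl fun q _ => by rw [map_smul, hβ, smul_eq_mul]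
    rw [h1, mul_sub, mul_one]
    abel
  · have h1 : r j ᵥ* (fun a => ∑ i, ∑ q ∈ S, α a i q • β i q - (gof (h a) - 1) • b0) =
        ∑ a, r j a • (∑ i, ∑ q ∈ S, α a i q • β i q - (gof (h a) - 1) • b0) :=
      Matrix.vecMul_eq_sum _ _
    rw [h1]
    simp only [smul_sub, Finset.sum_sub_distrib, Finset.smul_sum, smul_smul]
    rw [← Finset.sum_smul, ← bd_apply, hr, zero_smul, sub_zero, Finset.sum_comm]
    refine Finset.sum_eq_zero fun i _ => ?_
    rw [Finset.sum_comm]
    refine Finset.sum_eq_zero fun q _ => ?_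
    rw [← Finset.sum_smul, hrel, zero_smul]

end

end Pool.Agent.H26.PD.PN
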