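import Pool.Agent.H26.PN.Many
import Pool.Agent.H26.PN.Flat
import Pool.Agent.H26.PD.Cyc

/-!
Finitely generated normal subgroups of `PD_3`-groups: assembly.
-/

set_option autoImplicit false
set_option linter.unusedSectionVars false

namespace Pool.Agent.H26.PD.PN

open Pool.Agent.Helper386.PD3
open scoped Classical Matrix
open Pool.Agent.H23R2.Cyc (ell ell_single ell_eq_sum)

noncomputable section

/-! ## Group theory -/

section

variable {G : Type} [Group G]

theorem fg_map {H : Type} [Group H] {K : Subgroup G} (hK : K.FG) (f : G →* H) : (K.map f).FG := by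
  obtain ⟨S, hS⟩ := hK
  refine ⟨S.image f, ?_⟩
  rw [Finset.coe_image, ← MonoidHom.map_closure, hS]

theorem finite_homs (hfg : Group.FG G) (P : Type) [Group P] [Finite P] : Finite (G →* P) := by
  obtain ⟨S, hS⟩ := Group.fg_def.1 hfg
  refine Finite.of_injective (β := S → P) (fun f s => f s) ?_
  intro f f' h
  refine MonoidHom.eq_of_eqOn_dense hS ?_
  intro s hs
  exact congrFun h ⟨s, hs⟩

/-- a subgroup of finite index of a normal subgroup contains a normal one -/
theorem exists_char {N : Subgroup G} [N.Normal] (hfg : N.FG) (N₀ : Subgroup N) [N₀.FiniteIndex] :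
    ∃ K : Subgroup N, K.FiniteIndex ∧ K ≤ N₀ ∧ (K.map N.subtype).Normal := by
  have hfgN : Group.FG N := (Group.fg_iff_subgroup_fg N).2 hfg
  let n := Nat.card (N ⧸ N₀)
  let e : N ⧸ N₀ ≃ Fin n := Finite.equivFin _
  have hfin : Finite (N →* Equiv.Perm (Fin n)) := finite_homs hfgN _
  let K : Subgroup N := ⨅ f : N →* Equiv.Perm (Fin n), f.ker
  have hK : ∀ x : N, x ∈ K ↔ ∀ f : N →* Equiv.Perm (Fin n), f x = 1 := fun x => Subgroup.mem_iInf
  refine ⟨K, Subgroup.finiteIndex_iInf fun f => inferInstance, ?_, ⟨?_⟩⟩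
  · intro x hx
    let f0 : N →* Equiv.Perm (Fin n) :=
      (e.permCongrHom.toMonoidHom).comp (MulAction.toPermHom N (N ⧸ N₀))
    have h1 : e.permCongrHom (MulAction.toPermHom N (N ⧸ N₀) x) = 1 := (hK x).1 hx f0
    have h2 : MulAction.toPermHom N (N ⧸ N₀) x = 1 := by
      apply e.permCongrHom.injective
      rw [h1, map_one]
    have h3 := congrArg (fun σ : Equiv.Perm (N ⧸ N₀) => σ ((1 : N) : N ⧸ N₀)) h2
    change ((x * 1 : N) : N ⧸ N₀) = ((1 : N) : N ⧸ N₀) at h3
    rw [mul_one, eq_comm, QuotientGroup.eq, inv_one, one_mul] at h3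
    exact h3
  · rintro _ ⟨k, hk, rfl⟩ g
    refine ⟨MulAut.conjNormal g k, ?_, ?_⟩
    · refine (hK _).2 fun f => ?_
      exact (hK k).1 hk (f.comp (MulAut.conjNormal g).toMonoidHom)
    · change ((MulAut.conjNormal g k : N) : G) = g * k * g⁻¹
      rw [MulAut.conjNormal_apply]

/-- representatives -/
theorem exists_T {N : Subgroup G} (K : Subgroup N) [K.FiniteIndex] :
    ∃ T : Set G, T.Finite ∧ ∀ n ∈ N, ∃ l ∈ K.map N.subtype, l * n ∈ T := by
  have : Finite (N ⧸ K) := Subgroup.finite_quotient_of_finiteIndex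
  refine ⟨Set.range (fun q : N ⧸ K => (((q.out)⁻¹ : N) : G)), Set.finite_range _, ?_⟩
  intro n hn
  have h1 : (((((⟨n, hn⟩ : N)⁻¹ : N) : N ⧸ K).out : N) : N ⧸ K) = (((⟨n, hn⟩ : N)⁻¹ : N) : N ⧸ K) :=
    QuotientGroup.out_eq' _
  rw [eq_comm, QuotientGroup.eq, inv_inv] at h1
  refine ⟨_, ⟨_, K.inv_mem h1, rfl⟩, (((⟨n, hn⟩ : N)⁻¹ : N) : N ⧸ K), ?_⟩
  change (((((((⟨n, hn⟩ : N)⁻¹ : N) : N ⧸ K).out)⁻¹ : N) : G)) =
    (((⟨n, hn⟩ * (((⟨n, hn⟩ : N)⁻¹ : N) : N ⧸ K).out : N)⁻¹ : N) : G) * n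
  rw [mul_inv_rev, Subgroup.coe_mul, mul_assoc]
  change _ = _ * (n⁻¹ * n)
  rw [inv_mul_cancel, mul_one]

theorem oneEnded_of_quot {Q Q₁ : Type} [Group Q] [Group Q₁] (φ : Q₁ →* Q)
    (hφ : Function.Surjective φ) (hfin : Finite φ.ker) (hinf : Infinite Q) (h : OneEnded Q) :
    OneEnded Q₁ := by
  intro V F hF
  let Fb : Q → Set V := fun q => {v | ∃ x, φ x = q ∧ F x = v}
  obtain ⟨A, hA⟩ := h (Set V) Fb (by
    intro s
    obtain ⟨s', rfl⟩ := hφ s
    refine ((hF s').image φ).subset ?_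
    intro q hq
    by_contra h1
    apply hq
    have h2 : ∀ x, φ x = q → F (x * s') = F x := by
      intro x hx
      by_contra h3
      exact h1 ⟨x, h3, hx⟩
    ext v
    constructor
    · rintro ⟨x, hx, rfl⟩
      have h3 : φ (x * s'⁻¹) = q := by rw [map_mul, hx, map_inv, mul_inv_cancel_right]
      refine ⟨x * s'⁻¹, h3, ?_⟩
      have h4 := h2 _ h3
      rw [inv_mul_cancel_right] at h4
      exact h4.symm
    · rintro ⟨x, hx, rfl⟩
      exact ⟨x * s', by rw [map_mul, hx], h2 x hx⟩)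
  have hB : (⋃ k : φ.ker, φ '' {x | F (x * k) ≠ F x}).Finite :=
    Set.finite_iUnion fun k => (hF k).image φ
  have hsing : ∀ q, q ∉ (⋃ k : φ.ker, φ '' {x | F (x * k) ≠ F x}) → ∀ x, φ x = q →
      Fb q = {F x} := by
    intro q hq x hx
    ext v
    constructor
    · rintro ⟨y, hy, rfl⟩
      have h1 : x⁻¹ * y ∈ φ.ker := by rw [MonoidHom.mem_ker, map_mul, map_inv, hx, hy, inv_mul_cancel]
      by_contra h2
      apply hq
      refine Set.mem_iUnion.2 ⟨⟨_, h1⟩, x, ?_, hx⟩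
      change F (x * (x⁻¹ * y)) ≠ F x
      rw [mul_inv_cancel_left]
      exact h2
    · intro hv
      rw [Set.mem_singleton_iff] at hv
      exact ⟨x, hx, hv.symm⟩
  obtain ⟨q0, hq0⟩ := (hA.union hB).exists_notMem
  rw [Set.mem_union, not_or] at hq0
  obtain ⟨x0, hx0⟩ := hφ q0
  have hA0 : A = {F x0} := by
    rw [← hsing q0 hq0.2 x0 hx0]
    exact (not_not.1 hq0.1).symm
  refine ⟨F x0, ?_⟩
  refine (Set.Finite.preimage' (hA.union hB) (f := φ) ?_).subset ?_
  · intro q _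
    obtain ⟨x, rfl⟩ := hφ q
    refine (Set.finite_range (fun k : φ.ker => x * k)).subset ?_
    intro y hy
    have h1 : φ y = φ x := hy
    refine ⟨⟨x⁻¹ * y, by rw [MonoidHom.mem_ker, map_mul, map_inv, h1, inv_mul_cancel]⟩, ?_⟩
    exact mul_inv_cancel_left _ _
  · intro x hx
    by_contra h1
    rw [Set.mem_preimage, Set.mem_union, not_or] at h1
    apply hx
    have h2 : Fb (φ x) = A := not_not.1 h1.1
    rw [hsing _ h1.2 x rfl, hA0] at h2
    exact Set.singleton_injective h2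

/-- a finite-index subgroup mapping onto a group of prime order -/
theorem exists_chi {N : Subgroup G} (hfg : N.FG) (K : Subgroup N) [K.FiniteIndex] (hK : K ≠ ⊤) :
    ∃ (p : ℕ) (_ : Fact p.Prime) (N' : Subgroup G), N' ≤ N ∧ N'.FG ∧
      (∃ T : Set G, T.Finite ∧ ∀ n ∈ N, ∃ l ∈ N', l * n ∈ T) ∧
      ∃ χ : N' →* Multiplicative (ZMod p), χ ≠ 1 := by
  have hfgN : Group.FG N := (Group.fg_iff_subgroup_fg N).2 hfg
  obtain ⟨t, -, ht⟩ := SetLike.exists_of_lt (lt_top_iff_ne_top.2 hK)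
  have ht' : t ∉ K.normalCore := fun h => ht (K.normalCore_le h)
  have hfin : Finite (N ⧸ K.normalCore) := Subgroup.finite_quotient_of_finiteIndex
  let f : N →* N ⧸ K.normalCore := QuotientGroup.mk' _
  have hf : f t ≠ 1 := fun h => ht' ((QuotientGroup.eq_one_iff t).1 h)
  let r := orderOf (f t)
  have hr : r ≠ 1 := fun h => hf (orderOf_eq_one_iff.1 h)
  have hr0 : 0 < r := orderOf_pos _
  let q := r.minFac
  have hq : q.Prime := Nat.minFac_prime hr
  obtain ⟨s, hs⟩ : q ∣ r := Nat.minFac_dvd r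
  let y : N ⧸ K.normalCore := f t ^ s
  have hy : orderOf y = q := by
    change orderOf (f t ^ s) = q
    rw [orderOf_pow_of_dvd (by rintro rfl; omega) ⟨q, by rw [mul_comm]; exact hs⟩]
    change r / s = q
    rw [hs]
    exact Nat.mul_div_cancel _ (Nat.pos_of_ne_zero (by rintro rfl; omega))
  have hcard : Nat.card (Subgroup.zpowers y) = q := by rw [Nat.card_zpowers, hy]
  let N2 : Subgroup N := (Subgroup.zpowers y).comap f
  have hN2 : N2.FiniteIndex := by
    refine Subgroup.finiteIndex_of_le (H := K.normalCore) ?_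
    intro x hx
    change f x ∈ Subgroup.zpowers y
    have h1 : f x = 1 := (QuotientGroup.eq_one_iff x).2 hx
    rw [h1]
    exact Subgroup.one_mem _
  have hN2fg : N2.FG := (Group.fg_iff_subgroup_fg N2).1 inferInstance
  let N' : Subgroup G := N2.map N.subtype
  have hN'N : N' ≤ N := Subgroup.map_subtype_le _
  have hmem : ∀ x : N', f (Subgroup.inclusion hN'N x) ∈ Subgroup.zpowers y := by
    rintro ⟨_, x, hx, rfl⟩
    exact hx
  let χ0 : N' →* Subgroup.zpowers y := (f.comp (Subgroup.inclusion hN'N)).codRestrict _ hmem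
  have hcyc : IsCyclic (Subgroup.zpowers y) := inferInstance
  refine ⟨Nat.card (Subgroup.zpowers y), ⟨by rw [hcard]; exact hq⟩, N', hN'N, fg_map hN2fg _,
    exists_T N2, ((zmodCyclicMulEquiv hcyc).symm.toMonoidHom).comp χ0, ?_⟩
  intro h
  have hts : t ^ s ∈ N2 := by
    change f (t ^ s) ∈ Subgroup.zpowers y
    rw [map_pow]
    exact Subgroup.mem_zpowers y
  let x : N' := ⟨N.subtype (t ^ s), t ^ s, hts, rfl⟩
  have h1 : (zmodCyclicMulEquiv hcyc).symm (χ0 x) = 1 := DFunLike.congr_fun h x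
  have h2 : χ0 x = 1 := by
    apply (zmodCyclicMulEquiv hcyc).symm.injective
    rw [h1, map_one]
  have h3 : f (t ^ s) = 1 := congrArg Subtype.val h2
  rw [map_pow] at h3
  have h4 : orderOf y = 1 := orderOf_eq_one_iff.2 h3
  rw [hy] at h4
  exact hq.one_lt.ne' h4

end

/-! ## Group rings -/

theorem resP_of_inj {p : ℕ} {T T' : Type} [Group T] [Group T'] (i : T →* T')
    (hi : Function.Injective i) (h : ResP p T') : ResP p T := by
  intro t ht
  obtain ⟨P, iP, fP, f, hP, hf⟩ := h (i t) fun h1 => ht (hi (by rw [h1, map_one]))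
  exact ⟨P, iP, fP, f.comp i, hP, hf⟩

theorem pf_inj {T T' : Type} [Group T] [Group T'] (i : T →* T')
    (hi : Function.Injective i) : Function.Injective (pf i) := by
  rw [injective_iff_map_eq_zero]
  intro z hz
  apply MonoidAlgebra.coeff_injective
  ext x
  have h1 := coeff_pf i z (i x)
  rw [hz, ell_eq_sum _ (insert x z.coeff.support) z
    (fun g hg => Finset.mem_insert_of_mem (Finsupp.mem_support_iff.2 hg)),
    Finset.sum_eq_single x] at h1
  · rw [if_pos rfl, mul_one] at h1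
    exact h1.symm
  · intro y _ hy
    rw [if_neg fun h2 => hy (hi h2), mul_zero]
  · intro h2
    exact absurd (Finset.mem_insert_self _ _) h2

/-- the property of the subgroup which is used -/
def Good (T : Type) [Group T] : Prop :=
  (∃ p : ℕ, p.Prime ∧ ResP p T) ∨
    ∃ (S : Type) (_ : Ring S) (_ : IsNoetherianRing S) (i : RR T →+* S), Function.Injective i

theorem Good.of_inj {T T' : Type} [Group T] [Group T'] (i : T →* T')
    (hi : Function.Injective i) (h : Good T') : Good T := by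
  rcases h with ⟨p, hp, h⟩ | ⟨S, iS, nS, j, hj⟩
  · exact Or.inl ⟨p, hp, resP_of_inj i hi h⟩
  · exact Or.inr ⟨S, iS, nS, j.comp (pf i), hj.comp (pf_inj i hi)⟩

theorem Good.pr {T : Type} [Group T] (h : Good T) {m : ℕ} {t : Fin m → T} (hec : EC t) : PR t := by
  rcases h with ⟨p, hp, h⟩ | ⟨S, iS, nS, j, hj⟩
  · have : Fact p.Prime := ⟨hp⟩
    exact pr_of_resP h hec
  · exact pr_of_noeth j hj hec

/-! ## The theorem -/

section

variable {G : Type} [Group G] {n : ℕ} {w : G →* ℤˣ} {e0 e1 e2 e3 d0 d1 d2 : MR G n}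

theorem cyclic_or_virt (hF : Full w e0 e1 e2 e3 d0 d1 d2)
    (hex : ∀ v, v ᵥ* e2 = v → v ᵥ* d1 = 0 → ∃ u, u ᵥ* d2 = v)
    (htf : ∀ g : G, g ≠ 1 → ∀ k : ℤ, k ≠ 0 → g ^ k ≠ 1) {N : Subgroup G} [N.Normal]
    (hne : N ≠ ⊥) (hfg : N.FG) (hinf : Infinite (G ⧸ N)) (K : Subgroup N) [K.FiniteIndex]
    (hK : K ≠ ⊤) (N₀ : Subgroup N) [N₀.FiniteIndex] (hgood : Good N₀) :
    (∃ g : N, ∀ x : N, ∃ k : ℤ, x = g ^ k) ∨
      ∃ h : G ⧸ N, (∀ k : ℤ, k ≠ 0 → h ^ k ≠ 1) ∧
        ∃ T : Set (G ⧸ N), T.Finite ∧ ∀ g, ∃ k : ℤ, h ^ k * g ∈ T := by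
  by_cases hone : OneEnded (G ⧸ N)
  · left
    obtain ⟨K1, hK1, hK1N, hnorm⟩ := exists_char hfg N₀
    let N1 : Subgroup G := K1.map N.subtype
    have hN1N : N1 ≤ N := Subgroup.map_subtype_le _
    have hfgN : Group.FG N := (Group.fg_iff_subgroup_fg N).2 hfg
    have hN1fg : N1.FG := fg_map ((Group.fg_iff_subgroup_fg K1).1 inferInstance) _
    -- the quotient
    let φ : G ⧸ N1 →* G ⧸ N := QuotientGroup.map N1 N (MonoidHom.id G) hN1N
    have hφ : Function.Surjective φ := by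
      intro q
      obtain ⟨x, rfl⟩ := QuotientGroup.mk_surjective q
      exact ⟨(x : G ⧸ N1), rfl⟩
    have hinf1 : Infinite (G ⧸ N1) := Infinite.of_surjective φ hφ
    have hker : Finite φ.ker := by
      have : Finite (N ⧸ K1) := Subgroup.finite_quotient_of_finiteIndex
      refine Finite.of_surjective (fun q : N ⧸ K1 => (⟨((q.out : G) : G ⧸ N1), ?_⟩ : φ.ker)) ?_
      · rw [MonoidHom.mem_ker]
        change ((q.out : G) : G ⧸ N) = 1
        exact (QuotientGroup.eq_one_iff _).2 q.out.2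
      · rintro ⟨z, hz⟩
        obtain ⟨x, rfl⟩ := QuotientGroup.mk_surjective z
        have hx : x ∈ N := (QuotientGroup.eq_one_iff x).1 hz
        refine ⟨((⟨x, hx⟩ : N) : N ⧸ K1), ?_⟩
        apply Subtype.ext
        change (((((⟨x, hx⟩ : N) : N ⧸ K1).out : G)) : G ⧸ N1) = (x : G ⧸ N1)
        rw [QuotientGroup.eq]
        have h1 : ((((⟨x, hx⟩ : N) : N ⧸ K1).out : N) : N ⧸ K1) = ((⟨x, hx⟩ : N) : N ⧸ K1) :=
          QuotientGroup.out_eq' _
        rw [QuotientGroup.eq] at h1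
        exact ⟨_, h1, rfl⟩
    have hone1 : OneEnded (G ⧸ N1) := oneEnded_of_quot φ hφ hker hinf hone
    -- projectivity
    obtain ⟨m, t, ht⟩ := exists_gens hN1fg
    have hgood1 : Good N1 := by
      let e := K1.equivMapOfInjective N.subtype N.subtype_injective
      exact hgood.of_inj ((Subgroup.inclusion hK1N).comp e.symm.toMonoidHom)
        ((Subgroup.inclusion_injective hK1N).comp e.symm.injective)
    have hPR : PR t := hgood1.pr fun l r hr => ec hF hN1fg hinf1 hone1 t ht r hr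
    -- a nontrivial element
    have hN1ne : N1 ≠ ⊥ := by
      intro h1
      obtain ⟨T, hT, hT'⟩ := exists_T K1
      have hNfin : (N : Set G).Finite := by
        refine hT.subset fun x hx => ?_
        obtain ⟨l, hl, hlT⟩ := hT' x hx
        have h2 : l = 1 := by
          have h3 : l ∈ N1 := hl
          rwa [h1, Subgroup.mem_bot] at h3
        rwa [h2, one_mul] at hlT
      obtain ⟨g, hg, hg1⟩ := (Subgroup.ne_bot_iff_exists_ne_one).1 hne |>.elim
        fun g hg => (⟨g.1, g.2, fun h => hg (Subtype.ext h)⟩ : ∃ g : G, g ∈ N ∧ g ≠ 1)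
      have hinj : Function.Injective (fun k : ℤ => g ^ k) := by
        intro k k' hk
        by_contra hne'
        apply htf g hg1 (k - k') (by omega)
        rw [zpow_sub, show g ^ k = g ^ k' from hk, mul_inv_cancel]
      exact Set.infinite_range_of_injective hinj
        (hNfin.subset (by rintro _ ⟨k, rfl⟩; exact N.zpow_mem hg k))
    obtain ⟨⟨g, hg⟩, hg1⟩ := (Subgroup.ne_bot_iff_exists_ne_one).1 hN1ne
    have hg1' : g ≠ 1 := fun h => hg1 (Subtype.ext h)
    let g2 := g ^ 2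
    have hg2 : ∀ k : ℤ, k ≠ 0 → g2 ^ k ≠ 1 := by
      intro k hk
      change (g ^ 2) ^ k ≠ 1
      rw [← zpow_natCast, ← zpow_mul]
      exact htf g hg1' _ (mul_ne_zero (by norm_num) hk)
    have hw2 : w g2 = 1 := by
      change w (g ^ 2) = 1
      rw [map_pow, Int.units_sq]
    obtain ⟨T, hT, hT'⟩ := virt_cyclic hF hex hN1fg hinf1 hone1 ht hPR (g := g2)
      (N1.pow_mem hg 2) hg2 hw2
    obtain ⟨R, hR, hR'⟩ := exists_T K1
    have hg2N : g2 ∈ N := hN1N (N1.pow_mem hg 2)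
    have htfN : ∀ x : N, x ≠ 1 → ∀ k : ℤ, k ≠ 0 → x ^ k ≠ 1 := by
      intro x hx k hk h
      exact htf x (fun h1 => hx (Subtype.ext h1)) k hk (by
        have := congrArg Subtype.val h
        simpa using this)
    have hh : ∀ k : ℤ, k ≠ 0 → (⟨g2, hg2N⟩ : N) ^ k ≠ 1 := by
      intro k hk h
      apply hg2 k hk
      have := congrArg Subtype.val h
      simpa using this
    have hTR : ((fun x : N => (x : G)) ⁻¹' (Set.image2 (fun a b => a * b) T R)).Finite :=
      (hT.image2 _ hR).preimage Subtype.val_injective.injOn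
    have hcov : ∀ x : N, ∃ k : ℤ, (⟨g2, hg2N⟩ : N) ^ k * x ∈
        ((fun x : N => (x : G)) ⁻¹' (Set.image2 (fun a b => a * b) T R)) := by
      intro x
      obtain ⟨l, hl, hlR⟩ := hR' x x.2
      have hl' : l⁻¹ ∈ N1 := N1.inv_mem hl
      obtain ⟨_, ⟨k, rfl⟩, hkT⟩ := hT' _ hl'
      refine ⟨k, _, hkT, _, hlR, ?_⟩
      change g2 ^ k * l⁻¹ * (l * x) = (((⟨g2, hg2N⟩ : N) ^ k * x : N) : G)
      rw [Subgroup.coe_mul, Subgroup.coe_zpow, mul_assoc, inv_mul_cancel_left]
    exact cyclic_of_virt htfN (comm_of_virt htfN hh hTR hcov) hTR hcov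
  · right
    obtain ⟨p, hp, N', hN'N, hN'fg, hT, χ, hχ⟩ := exists_chi hfg K hK
    exact virt_of_ends hF hfg hN'N hN'fg hT hχ hone

end

end

end Pool.Agent.H26.PD.PN
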