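import Pool.Agent.H26.PD.PD2

/-!
Vanishing of `H¹(G; Ind_N^G M)` for a finitely generated normal subgroup `N` of infinite index.
-/

set_option autoImplicit false

namespace Pool.Agent.H26.PD.PN

open Pool.Agent.Helper386.PD3

open scoped Classical Matrix

noncomputable section

variable {G : Type} [Group G] {M : Type} [AddCommGroup M]

/-- equivariant functions supported in finitely many cosets of `N` -/
def Bf (N : Subgroup G) (a : G → Module.End ℤ M) : Submodule ℤ (G → M) where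
  carrier := {f | f ∈ EqS N a ∧ ∃ S : Set (G ⧸ N), S.Finite ∧ ∀ x : G, f x ≠ 0 → (x : G ⧸ N) ∈ S}
  add_mem' := by
    rintro f f' ⟨h1, S, hS, h2⟩ ⟨h1', S', hS', h2'⟩
    refine ⟨Submodule.add_mem _ h1 h1', S ∪ S', hS.union hS', fun x hx => ?_⟩
    by_contra h
    rw [Set.mem_union, not_or] at h
    apply hx
    rw [Pi.add_apply, not_not.1 fun h3 => h.1 (h2 x h3), not_not.1 fun h3 => h.2 (h2' x h3),
      add_zero]
  zero_mem' := ⟨Submodule.zero_mem _, ∅, Set.finite_empty, fun x hx => absurd rfl hx⟩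
  smul_mem' := by
    rintro k f ⟨h1, S, hS, h2⟩
    refine ⟨Submodule.smul_mem _ _ h1, S, hS, fun x hx => h2 x fun h3 => hx ?_⟩
    rw [Pi.smul_apply, h3, smul_zero]

theorem stable_Bf (N : Subgroup G) [N.Normal] (a : G → Module.End ℤ M) : Stable (Bf N a) := by
  rintro g f ⟨h1, S, hS, h2⟩
  refine ⟨stable_EqS N a g f h1, (fun q => q * (g : G ⧸ N)⁻¹) '' S, hS.image _, fun x hx => ?_⟩
  refine ⟨_, h2 (x * g) hx, ?_⟩
  change ((x * g : G) : G ⧸ N) * (g : G ⧸ N)⁻¹ = x
  rw [QuotientGroup.mk_mul, mul_inv_cancel_right]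

/-- every function on `Q` which is almost invariant is almost constant: `Q` has at most one end -/
def OneEnded (Q : Type) [Group Q] : Prop :=
  ∀ (V : Type) (F : Q → V), (∀ s, {x | F (x * s) ≠ F x}.Finite) → ∃ v, {x | F x ≠ v}.Finite

variable {N : Subgroup G} [N.Normal] {a : G → Module.End ℤ M}

theorem mk_mul_mem {n : G} (hn : n ∈ N) (x : G) : ((x * n : G) : G ⧸ N) = x := by
  rw [QuotientGroup.mk_mul, (QuotientGroup.eq_one_iff n).2 hn, mul_one]

theorem mk_mem_mul {n : G} (hn : n ∈ N) (x : G) : ((n * x : G) : G ⧸ N) = x := by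
  rw [QuotientGroup.mk_mul, (QuotientGroup.eq_one_iff n).2 hn, one_mul]

theorem D_one {D : G → (G → M)} (hmul : ∀ g h, D (g * h) = D g + tr M g (D h)) : D 1 = 0 := by
  have h1 := hmul 1 1
  rw [mul_one, map_one] at h1
  have h2 : D 1 + 0 = D 1 + D 1 := by rw [add_zero]; exact h1
  exact (add_left_cancel h2).symm

/-- the derivation is inner on `N` -/
theorem inner_on (hfg : N.FG) (hinf : Infinite (G ⧸ N)) {D : G → (G → M)}
    (hD : ∀ g, D g ∈ Bf N a) (hmul : ∀ g h, D (g * h) = D g + tr M g (D h)) :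
    ∃ b ∈ Bf N a, ∀ n ∈ N, D n = tr M n b - b := by
  -- a common support
  obtain ⟨T, hT⟩ := hfg
  choose h1 S hS hS' using hD
  let S0 : Set (G ⧸ N) := ⋃ t ∈ (T : Set G), S t
  have hS0 : S0.Finite := T.finite_toSet.biUnion fun t _ => hS t
  have hsupp : ∀ n ∈ N, ∀ x : G, (x : G ⧸ N) ∉ S0 → D n x = 0 := by
    intro n hn
    rw [← hT] at hn
    induction hn using Subgroup.closure_induction with
    | mem t ht =>
      intro x hx
      by_contra h
      exact hx (Set.mem_iUnion₂.2 ⟨t, ht, hS' t x h⟩)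
    | one =>
      intro x _
      rw [D_one hmul]
      rfl
    | mul n m hn hm hn' hm' =>
      rw [hT] at hn
      intro x hx
      rw [hmul, Pi.add_apply, hn' x hx, zero_add, tr_apply]
      apply hm'
      rwa [mk_mul_mem hn]
    | inv n hn hn' =>
      rw [hT] at hn
      intro x hx
      have h2 := congrFun (hmul n n⁻¹) (x * n⁻¹)
      rw [mul_inv_cancel, D_one hmul, Pi.add_apply, tr_apply, inv_mul_cancel_right,
        hn' _ (by rwa [mk_mul_mem (N.inv_mem hn)]), zero_add] at h2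
      exact h2.symm
  obtain ⟨q', hq'⟩ := hS0.exists_notMem
  let g : G ⧸ N → G := fun q => (q'⁻¹ * q).out
  have hg : ∀ q, ((g q : G) : G ⧸ N) = q'⁻¹ * q := fun q => Quotient.out_eq' _
  have hgx : ∀ x : G, ((x * (g x)⁻¹ : G) : G ⧸ N) = q' := by
    intro x
    rw [QuotientGroup.mk_mul, QuotientGroup.mk_inv, hg, mul_inv_rev, inv_inv,
      mul_inv_cancel_left]
  let b : G → M := fun x => if (x : G ⧸ N) ∈ S0 then D (g x) (x * (g x)⁻¹) else 0
  refine ⟨b, ⟨?_, S0, hS0, ?_⟩, ?_⟩
  · intro n hn x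
    change (if ((n * x : G) : G ⧸ N) ∈ S0 then D (g ((n * x : G) : G ⧸ N))
      (n * x * (g ((n * x : G) : G ⧸ N))⁻¹) else 0) =
      a n (if (x : G ⧸ N) ∈ S0 then D (g x) (x * (g x)⁻¹) else 0)
    rw [mk_mem_mul hn]
    split_ifs
    · rw [mul_assoc, h1 (g x) n hn]
    · rw [map_zero]
  · intro x hx
    by_contra h
    exact hx (if_neg h)
  · intro n hn
    funext x
    change D n x = (if ((x * n : G) : G ⧸ N) ∈ S0 then D (g ((x * n : G) : G ⧸ N))
      (x * n * (g ((x * n : G) : G ⧸ N))⁻¹) else 0) -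
      (if (x : G ⧸ N) ∈ S0 then D (g x) (x * (g x)⁻¹) else 0)
    rw [mk_mul_mem hn]
    split_ifs with hx
    · have hn' : g x * n * (g x)⁻¹ ∈ N := Subgroup.Normal.conj_mem inferInstance n hn _
      have h2 := hmul (g x * n * (g x)⁻¹) (g x)
      rw [inv_mul_cancel_right, hmul] at h2
      have h3 := congrFun h2 (x * (g x)⁻¹)
      rw [Pi.add_apply, Pi.add_apply, tr_apply, tr_apply, inv_mul_cancel_right,
        hsupp _ hn' _ (by rw [hgx]; exact hq'), zero_add] at h3
      have h4 : x * (g x)⁻¹ * (g x * n * (g x)⁻¹) = x * n * (g x)⁻¹ := by group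
      rw [h4] at h3
      rw [← h3, add_sub_cancel_left]
    · rw [hsupp n hn x hx, sub_zero]

/-- `H¹(G; Ind_N^G M) = 0` in terms of derivations -/
theorem inner_all (hfg : N.FG) (hinf : Infinite (G ⧸ N)) (hone : OneEnded (G ⧸ N))
    {D : G → (G → M)} (hD : ∀ g, D g ∈ Bf N a)
    (hmul : ∀ g h, D (g * h) = D g + tr M g (D h)) :
    ∃ b ∈ Bf N a, ∀ g, D g = tr M g b - b := by
  obtain ⟨b, hb, hbn⟩ := inner_on hfg hinf hD hmul
  let D' : G → (G → M) := fun g => D g - (tr M g b - b)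
  have hD' : ∀ g, D' g ∈ Bf N a := fun g =>
    Submodule.sub_mem _ (hD g) (Submodule.sub_mem _ (stable_Bf N a g b hb) hb)
  have hmul' : ∀ g h, D' (g * h) = D' g + tr M g (D' h) := by
    intro g h
    change D (g * h) - (tr M (g * h) b - b) = D g - (tr M g b - b) + tr M g (D h - (tr M h b - b))
    rw [hmul, map_sub, map_sub, map_mul]
    change _ - (tr M g (tr M h b) - b) = _
    abel
  have h0 : ∀ n ∈ N, D' n = 0 := fun n hn => sub_eq_zero.2 (hbn n hn)
  have hr : ∀ g, ∀ n ∈ N, D' (g * n) = D' g := by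
    intro g n hn
    rw [hmul', h0 n hn, map_zero, add_zero]
  have hl : ∀ n ∈ N, ∀ g, tr M n (D' g) = D' g := by
    intro n hn g
    have h1 : D' (n * g) = tr M n (D' g) := by rw [hmul', h0 n hn, zero_add]
    have h2 : n * g = g * (g⁻¹ * n * g) := by group
    have h3 : g⁻¹ * n * g ∈ N := by
      have := Subgroup.Normal.conj_mem (inferInstance : N.Normal) n hn g⁻¹
      rwa [inv_inv] at this
    rw [← h1, h2, hr g _ h3]
  have hx : ∀ g, ∀ n ∈ N, ∀ x, D' g (n * x) = D' g x := by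
    intro g n hn x
    have h2 : n * x = x * (x⁻¹ * n * x) := by group
    have h3 : x⁻¹ * n * x ∈ N := by
      have := Subgroup.Normal.conj_mem (inferInstance : N.Normal) n hn x⁻¹
      rwa [inv_inv] at this
    rw [h2]
    exact congrFun (hl _ h3 g) x
  have hfix : ∀ g, ∀ n ∈ N, ∀ x, a n (D' g x) = D' g x := by
    intro g n hn x
    rw [← (hD' g).1 n hn x, hx g n hn x]
  -- the function on the quotient
  let F : G ⧸ N → M := fun q => D' q.out 1
  have hF : ∀ x : G, F x = D' x 1 := by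
    intro x
    have h1 : ((x : G ⧸ N).out)⁻¹ * x ∈ N := by
      rw [← QuotientGroup.eq]
      exact Quotient.out_eq' _
    change D' (x : G ⧸ N).out 1 = D' x 1
    have h2 : D' ((x : G ⧸ N).out * (((x : G ⧸ N).out)⁻¹ * x)) = D' (x : G ⧸ N).out :=
      hr _ _ h1
    rw [mul_inv_cancel_left] at h2
    rw [h2]
  have hFs : ∀ (x g : G), F ((x : G ⧸ N) * (g : G ⧸ N)) - F x = D' g x := by
    intro x g
    rw [← QuotientGroup.mk_mul, hF, hF, hmul', Pi.add_apply, tr_apply, one_mul,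
      add_sub_cancel_left]
  obtain ⟨v, hv⟩ := hone M F (by
    intro s
    obtain ⟨g, rfl⟩ := QuotientGroup.mk_surjective s
    obtain ⟨-, S, hS, hS'⟩ := hD' g
    refine hS.subset ?_
    intro q hq
    obtain ⟨x, rfl⟩ := QuotientGroup.mk_surjective q
    apply hS'
    rw [← hFs]
    exact sub_ne_zero.2 hq)
  have hvfix : ∀ n ∈ N, a n v = v := by
    intro n hn
    obtain ⟨q, hq⟩ := hv.exists_notMem
    have h1 : F q = v := not_not.1 hq
    obtain ⟨x, rfl⟩ := QuotientGroup.mk_surjective q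
    rw [← h1, hF]
    exact hfix x n hn 1
  let b' : G → M := fun x => F x - v
  have hb' : b' ∈ Bf N a := by
    refine ⟨?_, _, hv, ?_⟩
    · intro n hn x
      change F ((n * x : G) : G ⧸ N) - v = a n (F x - v)
      rw [mk_mem_mul hn, map_sub, hvfix n hn, hF, hfix x n hn]
    · intro x hx
      exact fun h => hx (sub_eq_zero.2 h)
  refine ⟨b + b', Submodule.add_mem _ hb hb', fun g => ?_⟩
  have h1 : D' g = tr M g b' - b' := by
    funext x
    rw [← hFs x g]
    change _ = F ((x * g : G) : G ⧸ N) - v - (F x - v)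
    rw [QuotientGroup.mk_mul]
    abel
  have h2 : D g = D' g + (tr M g b - b) := by
    change D g = D g - (tr M g b - b) + (tr M g b - b)
    rw [sub_add_cancel]
  rw [h2, h1, map_add]
  abel

/-! ## Cocycles of a resolution -/

section reso

variable {n : ℕ} {e0 e1 e2 d0 d1 : MR G n}

/-- evaluation of a cochain, with values in functions -/
def evf (c : Fin n → (G → M)) (v : Fin n → RR G) : G → M := ∑ j, rho M (v j) (c j)

theorem evf_add (c : Fin n → (G → M)) (v v' : Fin n → RR G) :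
    evf c (v + v') = evf c v + evf c v' := by
  unfold evf
  rw [← Finset.sum_add_distrib]
  exact Finset.sum_congr rfl fun j _ => by rw [Pi.add_apply, map_add, LinearMap.add_apply]

theorem evf_neg (c : Fin n → (G → M)) (v : Fin n → RR G) : evf c (-v) = -evf c v := by
  unfold evf
  rw [← Finset.sum_neg_distrib]
  exact Finset.sum_congr rfl fun j _ => by rw [Pi.neg_apply, map_neg, LinearMap.neg_apply]

theorem evf_sub (c : Fin n → (G → M)) (v v' : Fin n → RR G) :
    evf c (v - v') = evf c v - evf c v' := by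
  rw [sub_eq_add_neg, evf_add, evf_neg, sub_eq_add_neg]

theorem evf_smul (c : Fin n → (G → M)) (r : RR G) (v : Fin n → RR G) :
    evf c (r • v) = rho M r (evf c v) := by
  unfold evf
  rw [map_sum]
  exact Finset.sum_congr rfl fun j _ => by
    rw [Pi.smul_apply, smul_eq_mul, map_mul]
    rfl

theorem evf_zsmul (c : Fin n → (G → M)) (k : ℤ) (v : Fin n → RR G) :
    evf c (k • v) = k • evf c v := by
  have h1 : k • v = (k : RR G) • v := by
    funext j
    rw [Pi.smul_apply, Pi.smul_apply, smul_eq_mul, zsmul_eq_mul]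
  rw [h1, evf_smul, map_intCast]
  rfl

theorem evf_vecMul (c : Fin n → (G → M)) (v : Fin n → RR G) (A : MR G n) :
    evf c (v ᵥ* A) = evf (mv A c) v := by
  unfold evf
  have h2 : ∀ j, rho M ((v ᵥ* A) j) (c j) = ∑ i, rho M (v i) (rho M (A i j) (c j)) := by
    intro j
    change rho M (∑ i, v i * A i j) (c j) = _
    rw [map_sum, LinearMap.sum_apply]
    exact Finset.sum_congr rfl fun i _ => by rw [map_mul]; rfl
  simp only [h2]
  rw [Finset.sum_comm]
  refine Finset.sum_congr rfl fun i _ => ?_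
  rw [mv_apply, map_sum]

theorem evf_single (c : Fin n → (G → M)) (j : Fin n) : evf c (Pi.single j 1) = c j := by
  unfold evf
  rw [Finset.sum_eq_single j]
  · rw [Pi.single_eq_same, map_one]
    rfl
  · intro i _ hi
    rw [Pi.single_eq_of_ne hi, map_zero]
    rfl
  · intro h
    exact absurd (Finset.mem_univ j) h

theorem evf_row (c : Fin n → (G → M)) (A : MR G n) (i : Fin n) : evf c (A i) = mv A c i := by
  rw [mv_apply]
  rfl

theorem evf_mem {W : Submodule ℤ (G → M)} (hW : Stable W) {c : Fin n → (G → M)}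
    (hc : ∀ i, c i ∈ W) (v : Fin n → RR G) : evf c v ∈ W :=
  Submodule.sum_mem _ fun j _ => hW.rho _ _ (hc j)

/-- `H¹(G; W) = 0` for the resolution -/
theorem h1_zero (hL : Low e0 e1 e2 d0 d1) {W : Submodule ℤ (G → M)} (hW : Stable W)
    (hin : ∀ D : G → (G → M), (∀ g, D g ∈ W) → (∀ g h, D (g * h) = D g + tr M g (D h)) →
      ∃ b ∈ W, ∀ g, D g = tr M g b - b)
    {c : Fin n → (G → M)} (hc : ∀ i, c i ∈ W) (he : mv e1 c = c) (hd : mv d1 c = 0) :
    ∃ b : Fin n → (G → M), (∀ i, b i ∈ W) ∧ mv d0 b = c := by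
  obtain ⟨ε, hε, ⟨u0, hu0, hεu0⟩, hεd, hεex⟩ := hL.aug
  have hker : ∀ v, v ᵥ* d0 = 0 → evf c v = 0 := by
    intro v hv
    obtain ⟨u, hu⟩ := hL.ex1 (v ᵥ* e1) (by rw [Matrix.vecMul_vecMul, hL.ee1])
      (by rw [Matrix.vecMul_vecMul, hL.e1d0, hv])
    have h1 : evf c v = evf c (v ᵥ* e1) := by rw [evf_vecMul, he]
    rw [h1, ← hu, evf_vecMul, hd]
    unfold evf
    simp
  have hy : ∀ g : G, ∃ v, v ᵥ* d0 = gof g • u0 - u0 := by
    intro g
    refine hεex _ ?_ ?_
    · rw [Matrix.sub_vecMul, Matrix.smul_vecMul, hu0]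
    · rw [map_sub, hε, sub_self]
  choose y hy using hy
  obtain ⟨b, hbW, hb⟩ := hin (fun g => evf c (y g)) (fun g => evf_mem hW hc _) (by
    intro g h
    have h1 : (y (g * h) - (y g + gof g • y h)) ᵥ* d0 = 0 := by
      rw [Matrix.sub_vecMul, Matrix.add_vecMul, Matrix.smul_vecMul, hy, hy, hy, gof_mul, mul_smul,
        smul_sub]
      abel
    have h2 := hker _ h1
    rw [evf_sub, sub_eq_zero, evf_add, evf_smul, rho_of] at h2
    exact h2)
  -- the extension to degree zero
  have hz : ∀ v : Fin n → RR G, ∃ z, z ᵥ* d0 = v ᵥ* e0 - ε (v ᵥ* e0) • u0 := by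
    intro v
    refine hεex _ ?_ ?_
    · rw [Matrix.sub_vecMul, Matrix.vecMul_vecMul, hL.ee0]
      have : (ε (v ᵥ* e0) • u0) ᵥ* e0 = ε (v ᵥ* e0) • (u0 ᵥ* e0) := Matrix.smul_vecMul _ _ _
      rw [this, hu0]
    · rw [map_sub, map_zsmul, hεu0, smul_eq_mul, mul_one, sub_self]
  let Rl : (Fin n → RR G) → (G → M) → Prop := fun v f =>
    ∀ z, z ᵥ* d0 = v ᵥ* e0 - ε (v ᵥ* e0) • u0 → f = ε (v ᵥ* e0) • b + evf c z
  have hRmk : ∀ v f z, z ᵥ* d0 = v ᵥ* e0 - ε (v ᵥ* e0) • u0 →
      f = ε (v ᵥ* e0) • b + evf c z → Rl v f := by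
    intro v f z hzv hf z' hz'
    rw [hf]
    congr 1
    rw [← sub_eq_zero, ← evf_sub]
    apply hker
    rw [Matrix.sub_vecMul, hzv, hz', sub_self]
  have hRadd : ∀ v v' f f', Rl v f → Rl v' f' → Rl (v + v') (f + f') := by
    intro v v' f f' hf hf'
    obtain ⟨z, hz1⟩ := hz v
    obtain ⟨z', hz2⟩ := hz v'
    refine hRmk _ _ (z + z') ?_ ?_
    · rw [Matrix.add_vecMul, hz1, hz2, Matrix.add_vecMul, map_add, add_smul]
      abel
    · rw [hf z hz1, hf' z' hz2, Matrix.add_vecMul, map_add, add_smul, evf_add]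
      abel
  have hRneg : ∀ v f, Rl v f → Rl (-v) (-f) := by
    intro v f hf
    obtain ⟨z, hz1⟩ := hz v
    refine hRmk _ _ (-z) ?_ ?_
    · rw [Matrix.neg_vecMul, hz1, Matrix.neg_vecMul, map_neg, neg_smul]
      abel
    · rw [hf z hz1, Matrix.neg_vecMul, map_neg, neg_smul, evf_neg]
      abel
  have hRzero : Rl 0 0 := by
    refine hRmk _ _ 0 ?_ ?_
    · rw [Matrix.zero_vecMul, Matrix.zero_vecMul, map_zero, zero_smul, sub_zero]
    · rw [Matrix.zero_vecMul, map_zero, zero_smul, zero_add]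
      unfold evf
      simp
  have hRg : ∀ g v f, Rl v f → Rl (gof g • v) (tr M g f) := by
    intro g v f hf
    obtain ⟨z, hz1⟩ := hz v
    have h1 : ε ((gof g • v) ᵥ* e0) = ε (v ᵥ* e0) := by rw [Matrix.smul_vecMul, hε]
    refine hRmk _ _ (gof g • z + ε (v ᵥ* e0) • y g) ?_ ?_
    · have h2 : (ε (v ᵥ* e0) • y g) ᵥ* d0 = ε (v ᵥ* e0) • (y g ᵥ* d0) := Matrix.smul_vecMul _ _ _
      rw [h1, Matrix.add_vecMul, h2, hy, Matrix.smul_vecMul, hz1, Matrix.smul_vecMul, smul_sub,
        smul_sub, smul_comm (gof g) (ε (v ᵥ* e0)) u0]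
      abel
    · rw [hf z hz1, h1, evf_add, evf_smul, rho_of, evf_zsmul, hb g, map_add, map_zsmul, smul_sub]
      abel
  have hRr : ∀ (r : RR G) v f, Rl v f → Rl (r • v) (rho M r f) := by
    intro r v f hf
    induction r using rr_ind with
    | h1 g => rw [rho_of]; exact hRg g v f hf
    | h2 x y hx hy => rw [add_smul, map_add]; exact hRadd _ _ _ _ hx hy
    | h3 x hx => rw [neg_smul, map_neg]; exact hRneg _ _ hx
  have hbj : ∀ j : Fin n, ∃ f ∈ W, Rl (Pi.single j 1) f := by
    intro j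
    obtain ⟨z, hz1⟩ := hz (Pi.single j 1)
    exact ⟨_, Submodule.add_mem _ (Submodule.smul_mem _ _ hbW) (evf_mem hW hc z),
      hRmk _ _ z hz1 rfl⟩
  choose β hβW hβ using hbj
  have hRev : ∀ v : Fin n → RR G, Rl v (evf β v) := by
    intro v
    have h1 : v = ∑ j, v j • (Pi.single j (1 : RR G) : Fin n → RR G) := by
      funext k
      rw [Finset.sum_apply, Finset.sum_eq_single k]
      · simp
      · intro i _ hi
        rw [Pi.smul_apply, Pi.single_eq_of_ne (Ne.symm hi), smul_zero]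
      · intro h
        exact absurd (Finset.mem_univ k) h
    have h2 : ∀ s : Finset (Fin n), Rl (∑ j ∈ s, v j • (Pi.single j (1 : RR G) : Fin n → RR G))
        (∑ j ∈ s, rho M (v j) (β j)) := by
      intro s
      induction s using Finset.induction_on with
      | empty => exact hRzero
      | insert j s hj ih =>
        rw [Finset.sum_insert hj, Finset.sum_insert hj]
        exact hRadd _ _ _ _ (hRr _ _ _ (hβ j)) ih
    have h3 := h2 Finset.univ
    rw [← h1] at h3
    exact h3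
  refine ⟨β, hβW, ?_⟩
  funext i
  rw [← evf_row]
  have h1 : d0 i ᵥ* e0 = d0 i := congrFun (hL.d0e0) i
  have h2 : ε (d0 i) = 0 := by
    have := hεd (Pi.single i 1)
    rwa [Matrix.single_one_vecMul] at this
  have h3 : (e1 i) ᵥ* d0 = d0 i := congrFun (hL.e1d0) i
  have h4 := hRev (d0 i) (e1 i) (by rw [h1, h2, zero_smul, sub_zero, h3])
  rw [h4, h1, h2, zero_smul, zero_add, evf_row, he]

end reso

end

end Pool.Agent.H26.PD.PN
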