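import Pool.Agent.H26.PN.Cob
import Pool.Agent.H26.PD.FI
import Pool.Agent.H26.PD.Dty

/-!
Induced modules as functions.
-/

set_option autoImplicit false
set_option linter.unusedSectionVars false

namespace Pool.Agent.H26.PD.PN

open Pool.Agent.Helper386.PD3

open scoped Classical Matrix

noncomputable section

variable {G : Type} [Group G] {N : Subgroup G}

theorem prH_mul_inc (r : RR G) (a : RR N) : prH N (r * inc N a) = prH N r * a := by
  induction r using rr_ind with
  | h1 g =>
    by_cases hg : g ∈ N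
    · have h1 : (gof g : RR G) = inc N (gof ⟨g, hg⟩) := (inc_of N ⟨g, hg⟩).symm
      rw [h1, ← map_mul, prH_inc, prH_inc]
    · rw [prH_gof_mul_inc N hg, prH_gof_notMem N hg, zero_mul]
  | h2 a b ha hb => rw [add_mul, map_add, ha, hb, map_add, add_mul]
  | h3 a ha => rw [neg_mul, map_neg, ha, map_neg, neg_mul]

theorem prH_gof {g : G} (hg : g ∈ N) : prH N (gof g) = gof (⟨g, hg⟩ : N) :=
  prH_gof_mem N ⟨g, hg⟩

/-- the twisted involution on the subgroup -/
theorem inc_dg (w : G →* ℤˣ) (r : RR N) :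
    inc N (dg (w.comp N.subtype) r) = dg w (inc N r) := by
  induction r using rr_ind with
  | h1 g =>
    rw [dg_of, map_zsmul, inc_of, inc_of, dg_of]
    rfl
  | h2 a b ha hb => rw [dg_add, map_add, ha, hb, map_add, dg_add]
  | h3 a ha => rw [dg_neg, map_neg, ha, map_neg, dg_neg]

variable [N.Normal]

theorem mk_out (q : G ⧸ N) : ((q.out : G) : G ⧸ N) = q := QuotientGroup.out_eq' q

theorem out_mul_mem_iff (q : G ⧸ N) (g : G) : q.out * g ∈ N ↔ q = ((g : G) : G ⧸ N)⁻¹ := by
  rw [← QuotientGroup.eq_one_iff, QuotientGroup.mk_mul, mk_out, mul_eq_one_iff_eq_inv]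

theorem mul_out_mem_iff (q : G ⧸ N) (g : G) : g * (q.out)⁻¹ ∈ N ↔ q = ((g : G) : G ⧸ N) := by
  rw [← QuotientGroup.eq_one_iff, QuotientGroup.mk_mul, QuotientGroup.mk_inv, mk_out,
    mul_inv_eq_one, eq_comm]

/-- decomposition along left cosets -/
theorem exists_left (r : RR G) : ∃ S : Finset (G ⧸ N), ∀ S', S ⊆ S' →
    ∑ q ∈ S', gof (q.out)⁻¹ * inc N (prH N (gof q.out * r)) = r := by
  induction r using rr_ind with
  | h1 g =>
    refine ⟨{((g : G) : G ⧸ N)⁻¹}, fun S' hS' => ?_⟩
    rw [Finset.sum_eq_single ((g : G) : G ⧸ N)⁻¹]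
    · have hm := (out_mul_mem_iff (((g : G) : G ⧸ N)⁻¹) g).2 rfl
      rw [← gof_mul, prH_gof hm, inc_of, ← gof_mul]
      congr 1
      change (((g : G) : G ⧸ N)⁻¹.out)⁻¹ * (((g : G) : G ⧸ N)⁻¹.out * g) = g
      rw [inv_mul_cancel_left]
    · intro q _ hq
      rw [← gof_mul, prH_gof_notMem N fun h => hq ((out_mul_mem_iff q g).1 h), map_zero, mul_zero]
    · intro h
      exact absurd (hS' (Finset.mem_singleton_self _)) h
  | h2 a b ha hb =>
    obtain ⟨S, hS⟩ := ha
    obtain ⟨T, hT⟩ := hb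
    refine ⟨S ∪ T, fun S' hS' => ?_⟩
    conv_rhs => rw [← hS S' (Finset.union_subset_left hS'), ← hT S' (Finset.union_subset_right hS')]
    rw [← Finset.sum_add_distrib]
    exact Finset.sum_congr rfl fun q _ => by rw [mul_add, map_add, map_add, mul_add]
  | h3 a ha =>
    obtain ⟨S, hS⟩ := ha
    refine ⟨S, fun S' hS' => ?_⟩
    conv_rhs => rw [← hS S' hS']
    rw [← Finset.sum_neg_distrib]
    exact Finset.sum_congr rfl fun q _ => by rw [mul_neg, map_neg, map_neg, mul_neg]

/-- decomposition along right cosets -/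
theorem exists_right (r : RR G) : ∃ S : Finset (G ⧸ N), ∀ S', S ⊆ S' →
    ∑ q ∈ S', inc N (prH N (r * gof (q.out)⁻¹)) * gof q.out = r := by
  induction r using rr_ind with
  | h1 g =>
    refine ⟨{((g : G) : G ⧸ N)}, fun S' hS' => ?_⟩
    rw [Finset.sum_eq_single ((g : G) : G ⧸ N)]
    · have hm := (mul_out_mem_iff (((g : G) : G ⧸ N)) g).2 rfl
      rw [← gof_mul, prH_gof hm, inc_of, ← gof_mul]
      congr 1
      change g * (((g : G) : G ⧸ N).out)⁻¹ * (((g : G) : G ⧸ N).out) = g
      rw [inv_mul_cancel_right]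
    · intro q _ hq
      rw [← gof_mul, prH_gof_notMem N fun h => hq ((mul_out_mem_iff q g).1 h), map_zero, zero_mul]
    · intro h
      exact absurd (hS' (Finset.mem_singleton_self _)) h
  | h2 a b ha hb =>
    obtain ⟨S, hS⟩ := ha
    obtain ⟨T, hT⟩ := hb
    refine ⟨S ∪ T, fun S' hS' => ?_⟩
    conv_rhs => rw [← hS S' (Finset.union_subset_left hS'), ← hT S' (Finset.union_subset_right hS')]
    rw [← Finset.sum_add_distrib]
    exact Finset.sum_congr rfl fun q _ => by rw [add_mul, map_add, map_add, add_mul]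
  | h3 a ha =>
    obtain ⟨S, hS⟩ := ha
    refine ⟨S, fun S' hS' => ?_⟩
    conv_rhs => rw [← hS S' hS']
    rw [← Finset.sum_neg_distrib]
    exact Finset.sum_congr rfl fun q _ => by rw [neg_mul, map_neg, map_neg, neg_mul]

/-- the support of an element -/
theorem exists_supp (r : RR G) : ∃ S : Finset (G ⧸ N), ∀ x : G, (x : G ⧸ N) ∉ S →
    prH N (gof x * r) = 0 := by
  induction r using rr_ind with
  | h1 g =>
    refine ⟨{((g : G) : G ⧸ N)⁻¹}, fun x hx => ?_⟩
    rw [← gof_mul]
    apply prH_gof_notMem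
    intro h
    apply hx
    rw [Finset.mem_singleton, ← mul_eq_one_iff_eq_inv, ← QuotientGroup.mk_mul,
      QuotientGroup.eq_one_iff]
    exact h
  | h2 a b ha hb =>
    obtain ⟨S, hS⟩ := ha
    obtain ⟨T, hT⟩ := hb
    refine ⟨S ∪ T, fun x hx => ?_⟩
    rw [Finset.mem_union, not_or] at hx
    rw [mul_add, map_add, hS x hx.1, hT x hx.2, add_zero]
  | h3 a ha =>
    obtain ⟨S, hS⟩ := ha
    refine ⟨S, fun x hx => ?_⟩
    rw [mul_neg, map_neg, hS x hx, neg_zero]

/-- a common finite set for finitely many elements -/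
theorem exists_common {ι : Type} [Finite ι] {P : ι → Finset (G ⧸ N) → Prop}
    (h : ∀ i, ∃ S : Finset (G ⧸ N), ∀ S', S ⊆ S' → P i S') :
    ∃ S : Finset (G ⧸ N), ∀ S', S ⊆ S' → ∀ i, P i S' := by
  cases nonempty_fintype ι
  choose S hS using h
  refine ⟨Finset.univ.biUnion S, fun S' hS' i => hS i S' ?_⟩
  exact (Finset.subset_biUnion_of_mem S (Finset.mem_univ i)).trans hS'

section fu

variable {l : ℕ} (R : Submodule (RR N) (Fin l → RR N))

/-- the function attached to an element of the induced module -/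
def fu : (Fin l → RR G) →+ (G → ((Fin l → RR N) ⧸ R)) where
  toFun u x := Submodule.Quotient.mk (fun j => prH N (gof x * u j))
  map_zero' := by
    funext x
    have h1 : (fun j => prH N (gof x * (0 : Fin l → RR G) j)) = (0 : Fin l → RR N) := by
      funext j
      rw [Pi.zero_apply, mul_zero, map_zero]
      rfl
    change Submodule.Quotient.mk _ = _
    rw [h1]
    rfl
  map_add' u u' := by
    funext x
    have h1 : (fun j => prH N (gof x * (u + u') j)) =
        (fun j => prH N (gof x * u j)) + (fun j => prH N (gof x * u' j)) := by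
      funext j
      rw [Pi.add_apply, mul_add, map_add]
      rfl
    change Submodule.Quotient.mk _ = _
    rw [h1]
    rfl

theorem fu_apply (u : Fin l → RR G) (x : G) :
    fu R u x = Submodule.Quotient.mk (fun j => prH N (gof x * u j)) := rfl

theorem fu_smul (r : RR G) (u : Fin l → RR G) : fu R (r • u) = rho ((Fin l → RR N) ⧸ R) r (fu R u) := by
  induction r using rr_ind with
  | h1 g =>
    funext x
    rw [rho_of_apply, fu_apply, fu_apply]
    congr 1
    funext j
    rw [Pi.smul_apply, smul_eq_mul, ← mul_assoc, ← gof_mul]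
  | h2 a b ha hb => rw [add_smul, map_add, ha, hb, map_add, LinearMap.add_apply]
  | h3 a ha => rw [neg_smul, map_neg, ha, map_neg, LinearMap.neg_apply]

theorem fu_mem (u : Fin l → RR G) : fu R u ∈ Bf N (aM N ((Fin l → RR N) ⧸ R)) := by
  constructor
  · intro n hn x
    rw [aM_apply N _ hn, fu_apply, fu_apply, ← Submodule.Quotient.mk_smul]
    congr 1
    funext j
    rw [Pi.smul_apply, smul_eq_mul, gof_mul, mul_assoc]
    exact prH_gof_mul N ⟨n, hn⟩ _
  · obtain ⟨S, hS⟩ := exists_common (N := N)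
      (P := fun (j : Fin l) S => ∀ x : G, (x : G ⧸ N) ∉ S → prH N (gof x * u j) = 0)
      (fun j => by
        obtain ⟨S, hS⟩ := exists_supp (N := N) (u j)
        exact ⟨S, fun S' hS' x hx => hS x fun h => hx (hS' h)⟩)
    refine ⟨(S : Set (G ⧸ N)), S.finite_toSet, fun x hx => ?_⟩
    by_contra hxS
    apply hx
    rw [fu_apply]
    have h1 : (fun j => prH N (gof x * u j)) = (0 : Fin l → RR N) := by
      funext j
      exact hS S le_rfl j x hxS
    rw [h1]
    rfl

theorem fu_inc {s : Fin l → RR N} (hs : s ∈ R) (η : RR G) :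
    fu R (fun j => η * inc N (s j)) = 0 := by
  funext x
  rw [fu_apply]
  have h1 : (fun j => prH N (gof x * (η * inc N (s j)))) = prH N (gof x * η) • s := by
    funext j
    rw [Pi.smul_apply, smul_eq_mul, ← mul_assoc, prH_mul_inc]
  rw [h1]
  exact (Submodule.Quotient.mk_eq_zero _).2 (R.smul_mem _ hs)

theorem fu_eq_zero {m : ℕ} (s : Fin m → Fin l → RR N) {u : Fin l → RR G}
    (h : fu (Submodule.span (RR N) (Set.range s)) u = 0) :
    ∃ η : Fin m → RR G, ∀ j, u j = ∑ a, η a * inc N (s a j) := by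
  obtain ⟨S, hS⟩ := exists_common (N := N)
    (P := fun (j : Fin l) S => ∑ q ∈ S, gof (q.out)⁻¹ * inc N (prH N (gof q.out * u j)) = u j)
    (fun j => exists_left (N := N) (u j))
  have h1 : ∀ q : G ⧸ N, ∃ θ : Fin m → RR N, ∀ j, prH N (gof q.out * u j) = ∑ a, θ a * s a j := by
    intro q
    have h2 := congrFun h q.out
    rw [fu_apply] at h2
    have h3 := (Submodule.Quotient.mk_eq_zero _).1 h2
    rw [Submodule.mem_span_range_iff_exists_fun] at h3
    obtain ⟨θ, hθ⟩ := h3
    refine ⟨θ, fun j => ?_⟩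
    rw [← congrFun hθ j, Finset.sum_apply]
    rfl
  choose θ hθ using h1
  refine ⟨fun a => ∑ q ∈ S, gof (q.out)⁻¹ * inc N (θ q a), fun j => ?_⟩
  conv_lhs => rw [← hS S le_rfl j]
  simp only [Finset.sum_mul]
  rw [Finset.sum_comm]
  refine Finset.sum_congr rfl fun q _ => ?_
  rw [hθ, map_sum, Finset.mul_sum]
  exact Finset.sum_congr rfl fun a _ => by rw [map_mul, mul_assoc]

theorem fu_surj {b : G → ((Fin l → RR N) ⧸ R)} (hb : b ∈ Bf N (aM N ((Fin l → RR N) ⧸ R))) :
    ∃ u, fu R u = b := by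
  obtain ⟨h1, S, hS, h2⟩ := hb
  choose β hβ using fun q : G ⧸ N => Submodule.Quotient.mk_surjective R (b q.out)
  refine ⟨fun j => ∑ q ∈ hS.toFinset, gof (q.out)⁻¹ * inc N (β q j), ?_⟩
  funext x
  rw [fu_apply]
  have h3 : (fun j => prH N (gof x * ∑ q ∈ hS.toFinset, gof (q.out)⁻¹ * inc N (β q j))) =
      ∑ q ∈ hS.toFinset, prH N (gof (x * (q.out)⁻¹)) • β q := by
    funext j
    rw [Finset.mul_sum, map_sum, Finset.sum_apply]
    refine Finset.sum_congr rfl fun q _ => ?_
    rw [← mul_assoc, ← gof_mul, prH_mul_inc]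
    rfl
  rw [h3]
  by_cases hx : (x : G ⧸ N) ∈ S
  · rw [Finset.sum_eq_single (x : G ⧸ N)]
    · have hm := (mul_out_mem_iff ((x : G ⧸ N)) x).2 rfl
      rw [prH_gof hm, Submodule.Quotient.mk_smul, hβ, ← aM_apply N _ hm, ← h1 _ hm,
        inv_mul_cancel_right]
    · intro q _ hq
      rw [prH_gof_notMem N fun h => hq ((mul_out_mem_iff q x).1 h), zero_smul]
    · intro h
      exact absurd (hS.mem_toFinset.2 hx) h
  · rw [Finset.sum_eq_zero]
    · rw [Submodule.Quotient.mk_zero]
      by_contra h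
      exact hx (h2 x (Ne.symm h))
    · intro q hq
      rw [prH_gof_notMem N, zero_smul]
      intro h
      rw [mul_out_mem_iff] at h
      rw [h] at hq
      exact hx (hS.mem_toFinset.1 hq)

end fu

end

end Pool.Agent.H26.PD.PN
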