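import Pool.Agent.H26.PN.One
import Pool.Agent.H26.PD.Ends

/-!
The case in which the quotient has more than one end.
-/

set_option autoImplicit false
set_option linter.unusedSectionVars false

namespace Pool.Agent.H26.PD.PN

open Pool.Agent.Helper386.PD3
open scoped Classical Matrix

noncomputable section

variable {G : Type} [Group G]

/-! ## Finite generation -/

section

variable {n : ℕ} {e0 e1 e2 d0 d1 : MR G n}

theorem rr_sum (r : RR G) : r = ∑ x ∈ r.coeff.support, r.coeff x • gof x := by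
  apply MonoidAlgebra.coeff_injective
  have h1 : (∑ x ∈ r.coeff.support, r.coeff x • gof x).coeff =
      ∑ x ∈ r.coeff.support, r.coeff x • (gof x : RR G).coeff :=
    map_sum (MonoidAlgebra.coeffAddEquiv (R := ℤ) (M := G)) _ _
  rw [h1]
  ext y
  rw [Finsupp.finsetSum_apply]
  have h2 : ∀ x, (r.coeff x • (gof x : RR G).coeff) y = if x = y then r.coeff x else 0 := by
    intro x
    change r.coeff x • (Finsupp.single x (1 : ℤ)) y = _
    rw [Finsupp.single_apply]
    split_ifs <;> simp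
  simp only [h2]
  rw [Finset.sum_ite_eq' r.coeff.support y]
  split_ifs with h
  · rfl
  · exact Finsupp.notMem_support_iff.1 h

theorem rho_inv {H : Subgroup G} {f : G → ℤ} (hf : ∀ h ∈ H, ∀ x, f (x * h) = f x) {r : RR G}
    (hr : ∀ x ∈ r.coeff.support, x ∈ H) : rho ℤ r f = eps r • f := by
  have h1 : ∀ s ⊆ r.coeff.support, rho ℤ (∑ x ∈ s, r.coeff x • gof x) f =
      eps (∑ x ∈ s, r.coeff x • gof x) • f := by
    intro s hs
    rw [map_sum, map_sum, LinearMap.sum_apply, Finset.sum_smul]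
    refine Finset.sum_congr rfl fun x hx => ?_
    rw [map_zsmul, map_zsmul, LinearMap.smul_apply, rho_of, eps_of, smul_eq_mul, mul_one]
    congr 1
    funext y
    exact hf x (hr x (hs hx)) y
  have h2 := h1 _ (le_refl _)
  rwa [← rr_sum] at h2

theorem fg_of_low (hL : Low e0 e1 e2 d0 d1) : Group.FG G := by
  obtain ⟨ε, hε, ⟨u0, hu0, hεu0⟩, hεd, hεex⟩ := hL.aug
  let S : Finset G := (Finset.univ.biUnion fun i : Fin n => Finset.univ.biUnion fun j : Fin n =>
    (d0 i j).coeff.support) ∪ Finset.univ.biUnion fun j : Fin n => (u0 j).coeff.support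
  let H : Subgroup G := Subgroup.closure S
  suffices hH : H = ⊤ from Group.fg_def.2 ⟨S, hH⟩
  rw [eq_top_iff]
  rintro g -
  let f : G → ℤ := fun x => if x ∈ H then 1 else 0
  have hf : ∀ h ∈ H, ∀ x, f (x * h) = f x := by
    intro h hh x
    change (if x * h ∈ H then 1 else 0) = if x ∈ H then 1 else 0
    by_cases hx : x ∈ H
    · rw [if_pos hx, if_pos (H.mul_mem hx hh)]
    · rw [if_neg hx, if_neg fun h1 => hx ((H.mul_mem_cancel_right hh).1 h1)]
  have hd0 : ∀ i j, rho ℤ (d0 i j) f = eps (d0 i j) • f := by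
    intro i j
    refine rho_inv hf fun x hx => Subgroup.subset_closure ?_
    exact Finset.mem_coe.2 (Finset.mem_union_left _ (Finset.mem_biUnion.2 ⟨i, Finset.mem_univ _,
      Finset.mem_biUnion.2 ⟨j, Finset.mem_univ _, hx⟩⟩))
  have hu : ∀ j, rho ℤ (u0 j) f = eps (u0 j) • f := by
    intro j
    refine rho_inv hf fun x hx => Subgroup.subset_closure ?_
    exact Finset.mem_coe.2 (Finset.mem_union_right _ (Finset.mem_biUnion.2 ⟨j, Finset.mem_univ _,
      hx⟩))
  have hεsum : ∀ v : Fin n → RR G, ε v = ∑ j, eps (v j) * ε (Pi.single j 1) := by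
    intro v
    refine hom_ext (F := ε) (F' := ∑ j, (AddMonoidHom.mulRight (ε (Pi.single j 1))).comp
      ((eps (G := G)).toAddMonoidHom.comp (Pi.evalAddMonoidHom (fun _ : Fin n => RR G) j)))
      (fun x j => ?_) v |>.trans ?_
    · rw [AddMonoidHom.finsetSum_apply, Finset.sum_eq_single j]
      · change _ = eps ((gof x • (Pi.single j 1 : Fin n → RR G)) j) * ε (Pi.single j 1)
        rw [Pi.smul_apply, Pi.single_eq_same, smul_eq_mul, mul_one, eps_of, one_mul, hε]
      · intro i _ hi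
        change eps ((gof x • (Pi.single j 1 : Fin n → RR G)) i) * ε (Pi.single i 1) = 0
        rw [Pi.smul_apply, Pi.single_eq_of_ne hi, smul_zero, map_zero, zero_mul]
      · intro h
        exact absurd (Finset.mem_univ j) h
    · rw [AddMonoidHom.finsetSum_apply]
      rfl
  let b : Fin n → (G → ℤ) := fun j => ε (Pi.single j 1) • f
  have hev : ∀ v : Fin n → RR G, (∀ j, rho ℤ (v j) f = eps (v j) • f) → evf b v = ε v • f := by
    intro v hv
    unfold evf
    rw [hεsum, Finset.sum_smul]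
    refine Finset.sum_congr rfl fun j _ => ?_
    change rho ℤ (v j) (ε (Pi.single j 1) • f) = _
    rw [map_zsmul, hv, smul_smul, mul_comm]
  have hb : mv d0 b = 0 := by
    funext i
    rw [← evf_row, hev _ (hd0 i)]
    have h1 : ε (d0 i) = 0 := by
      have := hεd (Pi.single i 1)
      rwa [Matrix.single_one_vecMul] at this
    rw [h1, zero_smul]
    rfl
  obtain ⟨v, hv⟩ := hεex (gof g • u0 - u0)
    (by rw [Matrix.sub_vecMul, Matrix.smul_vecMul, hu0]) (by rw [map_sub, hε, sub_self])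
  have h1 : evf b (v ᵥ* d0) = 0 := by
    rw [evf_vecMul, hb]
    unfold evf
    simp
  rw [hv, evf_sub, evf_smul, rho_of, hev _ hu, hεu0, one_smul, sub_eq_zero] at h1
  have h2 := congrFun h1 1
  rw [tr_apply, one_mul] at h2
  change (if g ∈ H then (1 : ℤ) else 0) = if (1 : G) ∈ H then 1 else 0 at h2
  rw [if_pos H.one_mem] at h2
  by_contra hg
  rw [if_neg hg] at h2
  exact zero_ne_one h2

end

/-! ## A function with almost all translates equal -/

theorem limit_arg {Q : Type} [Group Q] {V : Type} {F : Q → V}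
    (hF : ∀ s, {x | F (x * s) ≠ F x}.Finite) (hF' : ∀ v, {x | F x ≠ v}.Infinite) {y : Q}
    (hy : ∀ k : ℤ, k ≠ 0 → y ^ k ≠ 1) {S : Set Q} (hS : S.Finite)
    (hyF : ∀ x, x ∉ S → F (y * x) = F x) : ∀ g, ∃ k : ℤ, y ^ k * g ∈ S := by
  have hinj : ∀ x, Function.Injective (fun k : ℤ => y ^ k * x) := by
    intro x k k' hk
    have h4 : y ^ k = y ^ k' := mul_right_cancel hk
    by_contra hne
    apply hy (k - k') (by omega)
    rw [zpow_sub, h4, mul_inv_cancel]
  have hfin : ∀ {S : Set Q}, S.Finite → ∀ x, ∃ K : ℤ, ∀ k, K ≤ |k| → y ^ k * x ∉ S := by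
    intro S hS x
    have h1 : {k : ℤ | y ^ k * x ∈ S}.Finite := hS.preimage (hinj x).injOn
    obtain ⟨K, hK⟩ := (h1.image fun k => |k|).bddAbove
    refine ⟨K + 1, fun k hk hkS => ?_⟩
    have := hK ⟨k, hkS, rfl⟩
    change |k| ≤ K at this
    omega
  -- limits
  have hlim : ∀ x, ∃ c, ∃ K : ℤ, ∀ k, K ≤ k → F (y ^ k * x) = c := by
    intro x
    obtain ⟨K, hK⟩ := hfin hS x
    refine ⟨F (y ^ |K| * x), |K|, fun k hk => ?_⟩
    induction k, hk using Int.leInduction with
    | base => rfl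
    | succ k hk ih =>
      have h1 : 0 ≤ k := (abs_nonneg K).trans hk
      rw [← ih, zpow_add_one, ← (Commute.refl y).zpow_left k |>.eq |>.symm]
      have h2 := hyF (y ^ k * x) (hK k (by rw [abs_of_nonneg h1]; exact (le_abs_self K).trans hk))
      rwa [← mul_assoc] at h2
  have hlim' : ∀ x, ∃ c, ∃ K : ℤ, ∀ k, K ≤ k → F (y ^ (-k) * x) = c := by
    intro x
    obtain ⟨K, hK⟩ := hfin hS x
    refine ⟨F (y ^ (-|K|) * x), |K|, fun k hk => ?_⟩
    induction k, hk using Int.leInduction with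
    | base => rfl
    | succ k hk ih =>
      have h1 : 0 ≤ k := (abs_nonneg K).trans hk
      rw [← ih]
      have h2 := hyF (y ^ (-(k + 1)) * x) (hK _ (by
        rw [abs_neg, abs_of_nonneg (by omega)]
        have := le_abs_self K
        omega))
      rw [← h2, ← mul_assoc, ← zpow_one_add]
      congr 3
      ring
  have htrans : ∀ x s, ∃ K : ℤ, ∀ k, K ≤ |k| → F (y ^ k * (x * s)) = F (y ^ k * x) := by
    intro x s
    obtain ⟨K, hK⟩ := hfin (hF s) x
    refine ⟨K, fun k hk => ?_⟩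
    have h1 := hK k hk
    rw [Set.mem_ofPred_eq, not_not, mul_assoc] at h1
    exact h1
  obtain ⟨cp, Kp, hKp⟩ := hlim 1
  obtain ⟨cm, Km, hKm⟩ := hlim' 1
  have hcp : ∀ x, ∃ K : ℤ, ∀ k, K ≤ k → F (y ^ k * x) = cp := by
    intro x
    obtain ⟨K, hK⟩ := htrans 1 x
    refine ⟨max K (max Kp 0), fun k hk => ?_⟩
    have h1 := hK k (by
      have := le_abs_self k
      omega)
    rw [one_mul, mul_one] at h1
    have h2 := hKp k (by omega)
    rw [mul_one] at h2
    rw [h1, h2]
  have hcm : ∀ x, ∃ K : ℤ, ∀ k, K ≤ k → F (y ^ (-k) * x) = cm := by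
    intro x
    obtain ⟨K, hK⟩ := htrans 1 x
    refine ⟨max K (max Km 0), fun k hk => ?_⟩
    have h1 := hK (-k) (by
      rw [abs_neg]
      have := le_abs_self k
      omega)
    rw [one_mul, mul_one] at h1
    have h2 := hKm k (by omega)
    rw [mul_one] at h2
    rw [h1, h2]
  by_contra hc
  push Not at hc
  obtain ⟨g, hg⟩ := hc
  have hconst : ∀ x, (∀ k : ℤ, y ^ k * x ∉ S) → F x = cp ∧ F x = cm := by
    intro x hx
    have h1 : ∀ k : ℤ, F (y ^ k * x) = F x := by
      intro k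
      induction k using Int.induction_on with
      | zero => rw [zpow_zero, one_mul]
      | succ k ih =>
        have h2 := hyF _ (hx k)
        rw [← mul_assoc, ← zpow_one_add] at h2
        rw [add_comm, h2, ih]
      | pred k ih =>
        have h2 := hyF _ (hx (-k - 1))
        rw [← mul_assoc, ← zpow_one_add] at h2
        rw [← h2]
        have h3 : 1 + (-(k : ℤ) - 1) = -k := by ring
        rw [h3, ih]
    obtain ⟨K, hK⟩ := hcp x
    obtain ⟨K', hK'⟩ := hcm x
    exact ⟨by rw [← h1 K, hK K le_rfl], by rw [← h1 (-K'), hK' K' le_rfl]⟩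
  obtain ⟨hg1, hg2⟩ := hconst g hg
  have hcc : cm = cp := hg2.symm.trans hg1
  apply hF' cp
  have hsub : {x | F x ≠ cp} ⊆ ⋃ s ∈ S, (fun k : ℤ => y ^ k * s) '' {k | F (y ^ k * s) ≠ cp} := by
    intro x hx
    have h1 : ∃ k : ℤ, y ^ k * x ∈ S := by
      by_contra h
      push Not at h
      exact hx (hconst x h).1
    obtain ⟨k, hk⟩ := h1
    refine Set.mem_iUnion₂.2 ⟨_, hk, -k, ?_, ?_⟩
    · change F (y ^ (-k) * (y ^ k * x)) ≠ cp
      rw [← mul_assoc, ← zpow_add, neg_add_cancel, zpow_zero, one_mul]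
      exact hx
    · change y ^ (-k) * (y ^ k * x) = x
      rw [← mul_assoc, ← zpow_add, neg_add_cancel, zpow_zero, one_mul]
  refine Set.Finite.subset (hS.biUnion fun s _ => Set.Finite.image _ ?_) hsub
  obtain ⟨K, hK⟩ := hcp s
  obtain ⟨K', hK'⟩ := hcm s
  refine (Set.finite_Ioo (-K') K).subset fun k hk => ?_
  constructor
  · by_contra h
    apply hk
    have h2 := hK' (-k) (by omega)
    rwa [neg_neg, hcc] at h2
  · by_contra h
    exact hk (hK k (by omega))

/-! ## The cup product construction -/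

section main

variable {N : Subgroup G} [N.Normal] {N' : Subgroup G} {p : ℕ}

/-- almost invariant functions on the quotient, as functions on the group -/
def AIf (N : Subgroup G) [N.Normal] (F : G → ZMod p) : Prop :=
  (∀ n ∈ N, ∀ x, F (x * n) = F x) ∧
    ∀ g, ∃ S : Set (G ⧸ N), S.Finite ∧ ∀ x : G, F (x * g) ≠ F x → (x : G ⧸ N) ∈ S

theorem AIf.left {F : G → ZMod p} (hF : AIf N F) {n : G} (hn : n ∈ N) (x : G) :
    F (n * x) = F x := by
  have h1 : n * x = x * (x⁻¹ * n * x) := by group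
  have h3 : x⁻¹ * n * x ∈ N := by
    have := Subgroup.Normal.conj_mem (inferInstance : N.Normal) n hn x⁻¹
    rwa [inv_inv] at this
  rw [h1, hF.1 _ h3]

theorem AIf.shift {F : G → ZMod p} (hF : AIf N F) (z : G) : AIf N (fun x => F (z * x)) := by
  refine ⟨fun n hn x => ?_, fun g => ?_⟩
  · change F (z * (x * n)) = F (z * x)
    rw [← mul_assoc, hF.1 n hn]
  · obtain ⟨S, hS, h⟩ := hF.2 g
    refine ⟨(fun q => (z : G ⧸ N)⁻¹ * q) '' S, hS.image _, fun x hx => ?_⟩
    change F (z * (x * g)) ≠ F (z * x) at hx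
    rw [← mul_assoc] at hx
    refine ⟨_, h _ hx, ?_⟩
    change (z : G ⧸ N)⁻¹ * ((z * x : G) : G ⧸ N) = x
    rw [QuotientGroup.mk_mul, inv_mul_cancel_left]

theorem exists_gens {H : Subgroup G} (hfg : H.FG) :
    ∃ (m : ℕ) (h : Fin m → H), Subgroup.closure (Set.range h) = ⊤ := by
  obtain ⟨S, hS⟩ := Group.fg_def.1 (Group.fg_iff_subgroup_fg H |>.2 hfg)
  refine ⟨S.card, fun a => (S.equivFin.symm a).1, ?_⟩
  rw [← hS]
  congr 1
  ext x
  constructor
  · rintro ⟨a, rfl⟩
    exact (S.equivFin.symm a).2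
  · intro hx
    exact ⟨S.equivFin ⟨x, hx⟩, by simp⟩

theorem exists_theta (χ : N' →* Multiplicative (ZMod p)) :
    ∃ θ : G → ZMod p, ∀ (l : N') (x : G), θ (l * x) = (χ l).toAdd + θ x := by
  have h1 : ∀ x : G, x * ((x⁻¹ : G) : G ⧸ N').out ∈ N' := by
    intro x
    have h5 : ((((x⁻¹ : G) : G ⧸ N').out : G) : G ⧸ N') = ((x⁻¹ : G) : G ⧸ N') :=
      QuotientGroup.out_eq' _
    rw [eq_comm, QuotientGroup.eq, inv_inv] at h5
    exact h5
  refine ⟨fun x => (χ ⟨_, h1 x⟩).toAdd, fun l x => ?_⟩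
  have h2 : (((l * x)⁻¹ : G) : G ⧸ N') = ((x⁻¹ : G) : G ⧸ N') := by
    rw [QuotientGroup.eq, inv_inv, mul_inv_cancel_right]
    exact l.2
  have h3 : (⟨_, h1 (l * x)⟩ : N') = l * ⟨_, h1 x⟩ := by
    apply Subtype.ext
    change (l : G) * x * (((l * x)⁻¹ : G) : G ⧸ N').out = l * (x * ((x⁻¹ : G) : G ⧸ N').out)
    rw [h2, mul_assoc]
  change (χ ⟨_, h1 (l * x)⟩).toAdd = (χ l).toAdd + (χ ⟨_, h1 x⟩).toAdd
  rw [h3, map_mul]
  rfl

/-- the product derivation -/
def DD (θ F : G → ZMod p) (g : G) : G → ZMod p := fun x => (F (x * g) - F x) * θ x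

theorem derm_DD (hN' : N' ≤ N) (hT : ∃ T : Set G, T.Finite ∧ ∀ n ∈ N, ∃ l ∈ N', l * n ∈ T)
    {χ : N' →* Multiplicative (ZMod p)} {θ : G → ZMod p}
    (hθ : ∀ (l : N') (x : G), θ (l * x) = (χ l).toAdd + θ x) {F : G → ZMod p} (hF : AIf N F) :
    DerM (WL N' (ZMod p)) (DD θ F) := by
  intro g h
  have hval : DD θ F (g * h) - (DD θ F g + tr (ZMod p) g (DD θ F h)) =
      fun x => (F (x * g * h) - F (x * g)) * (θ x - θ (x * g)) := by
    funext x
    change (F (x * (g * h)) - F x) * θ x - ((F (x * g) - F x) * θ x +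
      (F (x * g * h) - F (x * g)) * θ (x * g)) = _
    rw [← mul_assoc]
    ring
  rw [hval, WL_iff]
  obtain ⟨T0, hT0, hT0'⟩ := hT
  obtain ⟨S, hS, hS'⟩ := hF.2 h
  refine ⟨fun l hl x => ?_, Set.image2 (fun t (q : G ⧸ N) => t * q.out) T0
    ((fun q => q * (g : G ⧸ N)⁻¹) '' S), hT0.image2 _ (hS.image _), fun x hx => ?_⟩
  · have h1 : l * x * g * h = l * (x * g * h) := by group
    have h2 : l * x * g = l * (x * g) := by group
    rw [h1, h2, hF.left (hN' hl), hF.left (hN' hl), hθ ⟨l, hl⟩, hθ ⟨l, hl⟩]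
    ring
  · have h1 : F (x * g * h) ≠ F (x * g) := by
      intro h2
      apply hx
      change (F (x * g * h) - F (x * g)) * (θ x - θ (x * g)) = 0
      rw [h2, sub_self, zero_mul]
    obtain ⟨l, hl, hlT⟩ := hT0' (x * ((x : G ⧸ N).out)⁻¹) ((mul_out_mem_iff _ x).2 rfl)
    refine ⟨l, hl, _, hlT, (x : G ⧸ N), ⟨_, hS' _ h1, ?_⟩, ?_⟩
    · change ((x * g : G) : G ⧸ N) * (g : G ⧸ N)⁻¹ = x
      rw [QuotientGroup.mk_mul, mul_inv_cancel_right]
    · change l * (x * ((x : G ⧸ N).out)⁻¹) * (x : G ⧸ N).out = l * x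
      rw [mul_assoc, inv_mul_cancel_right]

theorem inn_DD [Fact p.Prime] (hfg : N.FG) (hN' : N' ≤ N)
    {χ : N' →* Multiplicative (ZMod p)} {θ : G → ZMod p}
    (hθ : ∀ (l : N') (x : G), θ (l * x) = (χ l).toAdd + θ x) {n0 : N'} (hn0 : (χ n0).toAdd ≠ 0)
    {F F' : G → ZMod p} (hF : AIf N F) (hF' : AIf N F')
    (hinn : InnM (WL N' (ZMod p)) (fun g => DD θ F g - DD θ F' g)) :
    ∃ κ, ∃ S : Set (G ⧸ N), S.Finite ∧ ∀ x : G, (x : G ⧸ N) ∉ S → F x - F' x = κ := by
  obtain ⟨f, hf⟩ := hinn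
  have hconj : ∀ n ∈ N, ∀ x : G, x⁻¹ * n * x ∈ N := by
    intro n hn x
    have := Subgroup.Normal.conj_mem (inferInstance : N.Normal) n hn x⁻¹
    rwa [inv_inv] at this
  let u : G → ZMod p := fun x => f (n0 * x) - f x
  have hu : ∀ g x, (χ n0).toAdd * ((F (x * g) - F' (x * g)) - (F x - F' x)) =
      u (x * g) - u x := by
    intro g x
    have h1 := (WL_iff.1 (hf g)).1 n0 n0.2 x
    change ((F (n0 * x * g) - F (n0 * x)) * θ (n0 * x) -
      (F' (n0 * x * g) - F' (n0 * x)) * θ (n0 * x)) - (f (n0 * x * g) - f (n0 * x)) =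
      ((F (x * g) - F x) * θ x - (F' (x * g) - F' x) * θ x) - (f (x * g) - f x) at h1
    rw [mul_assoc, hF.left (hN' n0.2), hF.left (hN' n0.2), hF'.left (hN' n0.2),
      hF'.left (hN' n0.2), hθ] at h1
    change _ = (f (n0 * (x * g)) - f (x * g)) - (f (n0 * x) - f x)
    linear_combination h1
  obtain ⟨S, hS, hS'⟩ := const_on hfg hN' (f := f) (by
    intro n hn
    have h1 := Submodule.neg_mem _ (hf n)
    convert h1 using 1
    funext x
    change f (x * n) - f x = -((F (x * n) - F x) * θ x - (F' (x * n) - F' x) * θ x -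
      (f (x * n) - f x))
    rw [hF.1 n hn, hF'.1 n hn]
    ring)
  have hu0 : ∀ x : G, (x : G ⧸ N) ∉ S → u x = 0 := by
    intro x hx
    have h1 : (n0 : G) * x = x * (x⁻¹ * n0 * x) := by group
    change f (n0 * x) - f x = 0
    rw [h1, hS' x hx _ (hconj n0 (hN' n0.2) x), sub_self]
  refine ⟨(F 1 - F' 1) - ((χ n0).toAdd)⁻¹ * u 1, S, hS, fun x hx => ?_⟩
  have h1 := hu x 1
  rw [one_mul, hu0 x hx] at h1
  have h2 : F x - F' x - (F 1 - F' 1) = ((χ n0).toAdd)⁻¹ * (0 - u 1) := by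
    rw [← h1, inv_mul_cancel_left₀ hn0]
  linear_combination h2

variable {n : ℕ} {w : G →* ℤˣ} {e0 e1 e2 e3 d0 d1 d2 : MR G n}

theorem shift_eq [Fact p.Prime] (hF : Full w e0 e1 e2 e3 d0 d1 d2) (hfg : N.FG) (hN' : N' ≤ N)
    (hN'fg : N'.FG) (hT : ∃ T : Set G, T.Finite ∧ ∀ n ∈ N, ∃ l ∈ N', l * n ∈ T)
    {χ : N' →* Multiplicative (ZMod p)} (hχ : χ ≠ 1) {F : G → ZMod p} (hAI : AIf N F) (z : G) :
    ∃ i j : ℕ, i < j ∧ ∃ κ, ∃ S : Set (G ⧸ N), S.Finite ∧
      ∀ x : G, (x : G ⧸ N) ∉ S → F (z ^ i * x) - F (z ^ j * x) = κ := by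
  obtain ⟨n0, hn0⟩ : ∃ n0, (χ n0).toAdd ≠ 0 := by
    by_contra h
    push Not at h
    exact hχ (MonoidHom.ext fun x => h x)
  obtain ⟨θ, hθ⟩ := exists_theta χ
  obtain ⟨m, h, hgen⟩ := exists_gens hN'fg
  obtain ⟨inv, hinv⟩ := fin_cls (L := N') hF (p := p) h hgen
  obtain ⟨ε, hε, ⟨u0, hu0, hεu0⟩, hεd, hεex⟩ := hF.low.aug
  let Fi : ℕ → G → ZMod p := fun i x => F (z ^ i * x)
  have hFi : ∀ i, AIf N (Fi i) := fun i => hAI.shift _
  let ci : ℕ → Fin n → (G → ZMod p) := fun i => mv d1 (bD ε d0 (DD θ (Fi i)))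
  have hder : ∀ i, DerM (WL N' (ZMod p)) (DD θ (Fi i)) := fun i => derm_DD hN' hT hθ (hFi i)
  have hc1 : ∀ i k, ci i k ∈ WL N' (ZMod p) := fun i k =>
    d1_bD hε hεd stable_WL (hder i) hF.low.dd k
  have hc2 : ∀ i, mv e2 (ci i) = ci i := by
    intro i
    change mv e2 (mv d1 _) = mv d1 _
    rw [← mv_mul, hF.low.e2d1]
  have hc3 : ∀ i, mv d2 (ci i) = 0 := by
    intro i
    change mv d2 (mv d1 _) = 0
    rw [← mv_mul, full_dd2 hF, mv_zero_left]
  obtain ⟨i, j, hij, hij'⟩ := Finite.exists_ne_map_eq_of_infinite (fun i : ℕ => inv (ci i))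
  have key : ∀ i j, inv (ci i) = inv (ci j) → ∃ κ, ∃ S : Set (G ⧸ N), S.Finite ∧
      ∀ x : G, (x : G ⧸ N) ∉ S → F (z ^ i * x) - F (z ^ j * x) = κ := by
    intro i j hij
    obtain ⟨b, hb, hbd⟩ := hinv _ _ (hc1 i) (hc2 i) (hc3 i) (hc1 j) (hc2 j) (hc3 j) hij
    have hinn := der_class hF.low hε hεd stable_WL (hder i) (hder j) hεu0
      (fun g => hεex (gof g • u0 - u0) (by rw [Matrix.sub_vecMul, Matrix.smul_vecMul, hu0])
        (by rw [map_sub, hε, sub_self])) hb hbd.symm
    exact inn_DD hfg hN' hθ hn0 (hFi i) (hFi j) hinn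
  rcases lt_or_gt_of_ne hij with h1 | h1
  · exact ⟨i, j, h1, key i j hij'⟩
  · exact ⟨j, i, h1, key j i hij'.symm⟩

/-- **If the quotient has more than one end it is virtually infinite cyclic.** -/
theorem virt_of_ends [Fact p.Prime] (hF : Full w e0 e1 e2 e3 d0 d1 d2) (hfg : N.FG) (hN' : N' ≤ N)
    (hN'fg : N'.FG) (hT : ∃ T : Set G, T.Finite ∧ ∀ n ∈ N, ∃ l ∈ N', l * n ∈ T)
    {χ : N' →* Multiplicative (ZMod p)} (hχ : χ ≠ 1) (hone : ¬ OneEnded (G ⧸ N)) :
    ∃ h : G ⧸ N, (∀ k : ℤ, k ≠ 0 → h ^ k ≠ 1) ∧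
      ∃ T : Set (G ⧸ N), T.Finite ∧ ∀ g, ∃ k : ℤ, h ^ k * g ∈ T := by
  have hGfg : Group.FG G := fg_of_low hF.low
  have hQfg : Group.FG (G ⧸ N) := inferInstance
  unfold OneEnded at hone
  push Not at hone
  obtain ⟨V, Fv, hFv, hFv'⟩ := hone
  have hFl : ∀ s : G ⧸ N, {x | Fv (s * x)⁻¹ ≠ Fv x⁻¹}.Finite := by
    intro s
    refine ((hFv s⁻¹).preimage inv_injective.injOn).subset ?_
    intro x hx
    change Fv (x⁻¹ * s⁻¹) ≠ Fv x⁻¹
    rw [← mul_inv_rev]
    exact hx
  have hFl' : ∀ v, {x : G ⧸ N | Fv x⁻¹ ≠ v}.Infinite := by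
    intro v hfin
    apply hFv' v
    refine (hfin.preimage inv_injective.injOn).subset ?_
    intro x hx
    change Fv (x⁻¹)⁻¹ ≠ v
    rw [inv_inv]
    exact hx
  rcases ends_dichotomy hQfg (fun x => Fv x⁻¹) hFl hFl' with ⟨φ, hφ⟩ | h
  · obtain ⟨D⟩ := exists_dat hQfg (fun x => Fv x⁻¹) hFl hFl'
    -- the set `A` is almost invariant
    let R : Subgroup (G ⧸ N) :=
      { carrier := {s | {y | ¬ (s * y ∈ D.A ↔ y ∈ D.A)}.Finite}
        mul_mem' := by
          intro s t hs ht
          refine ((hs.preimage (mul_right_injective t).injOn).union ht).subset ?_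
          intro y hy
          by_contra h
          rw [Set.mem_union, not_or] at h
          apply hy
          have h1 : s * (t * y) ∈ D.A ↔ t * y ∈ D.A := not_not.1 h.1
          have h2 : t * y ∈ D.A ↔ y ∈ D.A := not_not.1 h.2
          rw [mul_assoc]
          exact h1.trans h2
        one_mem' := by
          refine Set.finite_empty.subset ?_
          intro y hy
          exact hy (by rw [one_mul])
        inv_mem' := by
          intro s hs
          refine (hs.preimage (mul_right_injective s⁻¹).injOn).subset ?_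
          intro y hy
          change ¬ (s * (s⁻¹ * y) ∈ D.A ↔ s⁻¹ * y ∈ D.A)
          rw [mul_inv_cancel_left]
          exact fun h => hy h.symm }
    have hRS : ∀ s ∈ D.S, s ∈ R := by
      intro s hs
      refine (D.fin.union (D.fin.preimage (mul_right_injective s).injOn)).subset ?_
      intro y hy
      by_cases h1 : y ∈ D.A
      · rcases D.clA y h1 s hs with h2 | h2
        · exact absurd ⟨fun _ => h1, fun _ => h2⟩ hy
        · exact Or.inr h2
      · rcases D.cover y with h2 | h2 | h2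
        · exact absurd h2 h1
        · have h3 : s * y ∉ D.A := by
            rcases D.clB y h2 s hs with h4 | h4
            · exact fun h5 => D.AB _ h5 h4
            · exact fun h5 => D.AO _ h5 h4
          exact absurd ⟨fun h => absurd h h3, fun h => absurd h h1⟩ hy
        · exact Or.inl h2
    have hR : ∀ (k : ℕ) (x : G ⧸ N), D.len x = k → x ∈ R := by
      intro k
      induction k using Nat.strong_induction_on with
      | _ k ih =>
        intro x hk
        by_cases hx : x = 1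
        · rw [hx]
          exact R.one_mem
        · obtain ⟨s, hs, hl, -⟩ := D.desc x hx
          have h1 := ih _ (hk ▸ hl) _ rfl
          exact (R.mul_mem_cancel_left (hRS s hs)).1 h1
    let F1 : G ⧸ N → ZMod p := fun x => if x⁻¹ ∈ D.A then 1 else 0
    have hF1 : ∀ s, {x | F1 (x * s) ≠ F1 x}.Finite := by
      intro s
      have h1 : s⁻¹ ∈ R := hR _ _ rfl
      refine (Set.Finite.preimage inv_injective.injOn h1).subset ?_
      intro x hx h2
      apply hx
      change (if (x * s)⁻¹ ∈ D.A then (1 : ZMod p) else 0) = if x⁻¹ ∈ D.A then 1 else 0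
      rw [mul_inv_rev]
      by_cases h3 : x⁻¹ ∈ D.A
      · rw [if_pos h3, if_pos (h2.2 h3)]
      · rw [if_neg h3, if_neg fun h => h3 (h2.1 h)]
    have hF1' : ∀ v, {x | F1 x ≠ v}.Infinite := by
      intro v
      by_cases hv : v = 1
      · refine Set.Infinite.mono ?_ (D.infB.preimage (f := fun x => x⁻¹)
          (fun x _ => ⟨x⁻¹, inv_inv x⟩))
        intro x hx h1
        have h2 : x⁻¹ ∉ D.A := fun h => D.AB _ h hx
        change (if x⁻¹ ∈ D.A then (1 : ZMod p) else 0) = v at h1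
        rw [if_neg h2, hv] at h1
        exact zero_ne_one h1
      · refine Set.Infinite.mono ?_ (D.infA.preimage (f := fun x => x⁻¹)
          (fun x _ => ⟨x⁻¹, inv_inv x⟩))
        intro x hx h1
        have hx' : x⁻¹ ∈ D.A := hx
        change (if x⁻¹ ∈ D.A then (1 : ZMod p) else 0) = v at h1
        rw [if_pos hx'] at h1
        exact hv h1.symm
    -- an element of infinite order
    let z : G ⧸ N := φ (FreeGroup.of 0)
    have hz : ∀ k : ℤ, k ≠ 0 → z ^ k ≠ 1 := by
      intro k hk h1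
      have h2 : (FreeGroup.of (0 : Fin 2)) ^ k = 1 := by
        apply hφ
        rw [map_zpow, map_one]
        exact h1
      have h3 : FreeGroup.lift (fun _ : Fin 2 => Multiplicative.ofAdd (1 : ℤ))
          ((FreeGroup.of (0 : Fin 2)) ^ k) = 1 := by
        rw [h2]
        exact map_one _
      rw [map_zpow, FreeGroup.lift_apply_of, ← ofAdd_zsmul, smul_eq_mul, mul_one] at h3
      exact hk (ofAdd_eq_one.1 h3)
    obtain ⟨zz, hzz⟩ := QuotientGroup.mk_surjective z
    let F : G → ZMod p := fun x => F1 (x : G ⧸ N)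
    have hAI : AIf N F := by
      refine ⟨fun n hn x => ?_, fun g => ⟨_, hF1 (g : G ⧸ N), fun x hx => ?_⟩⟩
      · change F1 ((x * n : G) : G ⧸ N) = F1 x
        rw [mk_mul_mem hn]
      · exact hx
    obtain ⟨i, j, hij, κ, S, hS, hκ⟩ := shift_eq hF hfg hN' hN'fg hT hχ hAI zz
    have h1 : ∀ x : G ⧸ N, x ∉ S → F1 (z ^ i * x) - F1 (z ^ j * x) = κ := by
      intro x hx
      obtain ⟨y, rfl⟩ := QuotientGroup.mk_surjective x
      have h2 := hκ y hx
      change F1 ((zz ^ i * y : G) : G ⧸ N) - F1 ((zz ^ j * y : G) : G ⧸ N) = κ at h2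
      rw [QuotientGroup.mk_mul, QuotientGroup.mk_mul, QuotientGroup.mk_pow, QuotientGroup.mk_pow,
        hzz] at h2
      exact h2
    have h2 : {x | F1 x - F1 (z ^ (j - i) * x) ≠ κ}.Finite := by
      refine (hS.preimage (mul_right_injective (z ^ i)⁻¹).injOn).subset ?_
      intro x hx
      by_contra h3
      apply hx
      have h4 := h1 _ h3
      rw [mul_inv_cancel_left] at h4
      rw [← h4, ← mul_assoc]
      congr 3
      rw [eq_mul_inv_iff_mul_eq, ← pow_add]
      congr 1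
      omega
    have h3 : ∀ k : ℕ, {x | F1 x - F1 (z ^ ((j - i) * k) * x) ≠ k • κ}.Finite := by
      intro k
      induction k with
      | zero =>
        refine Set.finite_empty.subset ?_
        intro x hx
        apply hx
        rw [mul_zero, pow_zero, one_mul, sub_self, zero_smul]
      | succ k ih =>
        refine (ih.union (h2.preimage (mul_right_injective (z ^ ((j - i) * k))).injOn)).subset ?_
        intro x hx
        by_contra h4
        rw [Set.mem_union, not_or] at h4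
        apply hx
        have h5 : F1 x - F1 (z ^ ((j - i) * k) * x) = k • κ := not_not.1 h4.1
        have h6 : F1 (z ^ ((j - i) * k) * x) -
          F1 (z ^ (j - i) * (z ^ ((j - i) * k) * x)) = κ := not_not.1 h4.2
        rw [← mul_assoc, ← pow_add] at h6
        rw [succ_nsmul, ← h5, ← h6]
        have h7 : (j - i) * (k + 1) = (j - i) + (j - i) * k := by ring
        rw [h7]
        abel
    have h4 := h3 p
    have h5 : p • κ = 0 := by rw [nsmul_eq_mul, CharP.cast_eq_zero, zero_mul]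
    rw [h5] at h4
    let r : ℕ := (j - i) * p
    have hr : r ≠ 0 := Nat.mul_ne_zero (by omega) (Fact.out : p.Prime).ne_zero
    have hy : ∀ k : ℤ, k ≠ 0 → (z ^ r) ^ k ≠ 1 := by
      intro k hk
      rw [← zpow_natCast, ← zpow_mul]
      exact hz _ (mul_ne_zero (by exact_mod_cast hr) hk)
    refine ⟨z ^ r, hy, _, h4, limit_arg hF1 hF1' hy h4 ?_⟩
    intro x hx
    have h6 : F1 x - F1 (z ^ r * x) = 0 := not_not.1 hx
    exact (sub_eq_zero.1 h6).symm
  · exact h

end main

end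

end Pool.Agent.H26.PD.PN
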