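import Pool.Agent.H26.PD.Idem

/-!
The augmentation ideal of a finitely generated group which is residually a finite `p`-group, or
whose integral group ring embeds in a Noetherian ring, is projective if it satisfies the equational
criterion for flatness.
-/

set_option autoImplicit false
set_option linter.unusedSectionVars false

namespace Pool.Agent.H26.PD.PN

open Pool.Agent.Helper386.PD3
open scoped Classical Matrix
open Pool.Agent.H23R2.Cyc (ell ell_single ell_eq_sum)

noncomputable section

variable {T : Type} [Group T]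

/-- residually a finite `p`-group -/
def ResP (p : ℕ) (T : Type) [Group T] : Prop :=
  ∀ t : T, t ≠ 1 → ∃ (P : Type) (_ : Group P) (_ : Finite P) (f : T →* P),
    IsPGroup p P ∧ f t ≠ 1

theorem resP_finset {p : ℕ} (h : ResP p T) (s : Finset T) (hs : ∀ t ∈ s, t ≠ 1) :
    ∃ (P : Type) (_ : Group P) (_ : Finite P) (f : T →* P), IsPGroup p P ∧ ∀ t ∈ s, f t ≠ 1 := by
  induction s using Finset.induction_on with
  | empty =>
    refine ⟨Unit, inferInstance, inferInstance, 1, fun g => ⟨0, Subsingleton.elim _ _⟩, ?_⟩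
    intro t ht
    exact absurd ht (Finset.notMem_empty t)
  | insert a s ha ih =>
    obtain ⟨P, iP, fP, f, hP, hf⟩ := ih fun t ht => hs t (Finset.mem_insert_of_mem ht)
    obtain ⟨P', iP', fP', f', hP', hf'⟩ := h a (hs a (Finset.mem_insert_self _ _))
    refine ⟨P × P', inferInstance, inferInstance, f.prod f', ?_, ?_⟩
    · rintro ⟨x, y⟩
      obtain ⟨k, hk⟩ := hP x
      obtain ⟨l, hl⟩ := hP' y
      refine ⟨k + l, Prod.ext ?_ ?_⟩
      · change x ^ p ^ (k + l) = 1
        rw [pow_add, pow_mul, hk, one_pow]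
      · change y ^ p ^ (k + l) = 1
        rw [add_comm, pow_add, pow_mul, hl, one_pow]
    · intro t ht h1
      rcases Finset.mem_insert.1 ht with rfl | ht
      · exact hf' (congrArg Prod.snd h1)
      · exact hf t ht (congrArg Prod.fst h1)

/-- the map of group rings -/
def pf {P : Type} [Group P] (f : T →* P) : RR T →+* RR P := liftR ((MonoidAlgebra.of ℤ P).comp f)

theorem pf_of {P : Type} [Group P] (f : T →* P) (t : T) : pf f (gof t) = gof (f t) := liftR_of _ _

theorem eps_pf {P : Type} [Group P] (f : T →* P) (r : RR T) : eps (pf f r) = eps r := by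
  induction r using rr_ind with
  | h1 g => rw [pf_of, eps_of, eps_of]
  | h2 x y hx hy => rw [map_add, map_add, map_add, hx, hy]
  | h3 x hx => rw [map_neg, map_neg, map_neg, hx]

theorem coeff_pf {P : Type} [Group P] (f : T →* P) (z : RR T) (y : P) :
    (pf f z).coeff y = ell (fun x => if f x = y then 1 else 0) z := by
  induction z using rr_ind with
  | h1 g =>
    rw [pf_of]
    change (MonoidAlgebra.single (f g) (1 : ℤ)).coeff y =
      ell (fun x => if f x = y then (1 : ℤ) else 0) (MonoidAlgebra.single g 1)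
    rw [ell_single, one_mul]
    change (Finsupp.single (f g) (1 : ℤ)) y = _
    rw [Finsupp.single_apply]
  | h2 x x' hx hx' =>
    rw [map_add, map_add, ← hx, ← hx']
    rfl
  | h3 x hx =>
    rw [map_neg, map_neg, ← hx]
    rfl

theorem resP_inj {p : ℕ} (h : ResP p T) {z : RR T}
    (hz : ∀ (P : Type) [Group P] [Finite P] (f : T →* P), IsPGroup p P → pf f z = 0) : z = 0 := by
  by_contra hne
  have hne' : z.coeff ≠ 0 := fun h0 => hne (MonoidAlgebra.coeff_injective h0)
  obtain ⟨x0, hx0⟩ := Finsupp.ne_iff.1 hne'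
  rw [Finsupp.coe_zero, Pi.zero_apply] at hx0
  obtain ⟨P, iP, fP, f, hP, hf⟩ := resP_finset h ((z.coeff.support.erase x0).image fun x => x0⁻¹ * x)
    (by
      intro t ht
      obtain ⟨x, hx, rfl⟩ := Finset.mem_image.1 ht
      intro h1
      exact (Finset.mem_erase.1 hx).1 (inv_mul_eq_one.1 h1).symm)
  have h1 := coeff_pf f z (f x0)
  rw [hz P f hP, ell_eq_sum _ z.coeff.support z (fun g hg => Finsupp.mem_support_iff.2 hg),
    Finset.sum_eq_single x0] at h1
  · rw [if_pos rfl, mul_one] at h1
    exact hx0 h1.symm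
  · intro x hx hxx
    rw [if_neg, mul_zero]
    intro h2
    apply hf (x0⁻¹ * x) (Finset.mem_image_of_mem _ (Finset.mem_erase.2 ⟨hxx, hx⟩))
    rw [map_mul, h2, ← map_mul, inv_mul_cancel, map_one]
  · intro h2
    exact absurd (Finsupp.mem_support_iff.2 hx0) h2

variable {m : ℕ}

theorem eps_act {P : Type} [Group P] {X : Type} [AddCommGroup X] [Module (RR P) X] {Z : Type}
    [AddCommGroup Z] (φ : X →+ Z) (hφ : ∀ (g : P) (x : X), φ (gof g • x) = φ x) (r : RR P)
    (x : X) : φ (r • x) = eps r • φ x := by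
  induction r using rr_ind with
  | h1 g => rw [hφ, eps_of, one_smul]
  | h2 a b ha hb => rw [add_smul, map_add, ha, hb, map_add, add_smul]
  | h3 a ha => rw [neg_smul, map_neg, ha, map_neg, neg_smul]

/-- A lattice over the group ring of a finite `p`-group is zero if it is generated by elements
of the form `δ x` with `δ` in the augmentation ideal. -/
theorem lattice_zero {p : ℕ} [hp : Fact p.Prime] {P : Type} [Group P] [Finite P]
    (hP : IsPGroup p P) (X : Submodule (RR P) (Fin m → RR P)) (S : Set (Fin m → RR P))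
    (hX : X = Submodule.span (RR P) S)
    (hS : ∀ x ∈ S, ∃ (l : ℕ) (r : Fin l → RR P) (y : Fin l → Fin m → RR P),
      (∀ i, eps (r i) = 0) ∧ (∀ i, y i ∈ X) ∧ x = ∑ i, r i • y i) : X = ⊥ := by
  by_contra hne
  have hnt : Nontrivial X := Submodule.nontrivial_iff_ne_bot.2 hne
  have hfin : Module.Finite ℤ (RR P) := by
    refine Module.Finite.equiv (M := P →₀ ℤ)
      ((MonoidAlgebra.coeffAddEquiv (R := ℤ) (M := P)).symm.toIntLinearEquiv)
  have hfinX : Module.Finite ℤ X := by
    have : IsNoetherian ℤ (Fin m → RR P) := inferInstance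
    exact Module.Finite.of_injective (X.subtype.toAddMonoidHom.toIntLinearMap)
      Subtype.val_injective
  have htf : Module.IsTorsionFree ℤ (RR P) := by
    have h1 : Module.IsTorsionFree ℤ (P →₀ ℤ) := inferInstance
    refine Function.Injective.moduleIsTorsionFree
      (MonoidAlgebra.coeffAddEquiv (R := ℤ) (M := P)) (AddEquiv.injective _) ?_
    intro c x
    exact map_zsmul _ _ _
  have htfX : Module.IsTorsionFree ℤ X := by
    refine Function.Injective.moduleIsTorsionFree (X.subtype) Subtype.val_injective ?_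
    intro c x
    exact map_zsmul _ _ _
  have hfree : Module.Free ℤ X := inferInstance
  let b := Module.Free.chooseBasis ℤ X
  have hne' : Nonempty (Module.Free.ChooseBasisIndex ℤ X) := b.index_nonempty
  let φ0 : X →ₗ[ℤ] ZMod p := b.constr ℤ (fun _ => 1)
  have hφ0 : φ0 ≠ 0 := by
    intro h0
    have h1 := LinearMap.congr_fun h0 (b hne'.some)
    rw [b.constr_basis, LinearMap.zero_apply] at h1
    exact one_ne_zero h1
  have hfinα : Finite (X →ₗ[ℤ] ZMod p) := by
    have : Finite (Module.Free.ChooseBasisIndex ℤ X → ZMod p) := inferInstance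
    exact Finite.of_equiv _ (b.constr ℤ).toEquiv
  let _ : MulAction P (X →ₗ[ℤ] ZMod p) :=
    { smul := fun g φ => φ.comp ((DistribSMul.toAddMonoidHom X (gof g⁻¹ : RR P)).toIntLinearMap)
      one_smul := by
        intro φ
        refine LinearMap.ext fun x => ?_
        change φ (gof (1 : P)⁻¹ • x) = φ x
        rw [inv_one, gof_one, one_smul]
      mul_smul := by
        intro g h φ
        refine LinearMap.ext fun x => ?_
        change φ (gof (g * h)⁻¹ • x) = φ (gof h⁻¹ • gof g⁻¹ • x)
        rw [mul_inv_rev, gof_mul, mul_smul] }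
  have hsm : ∀ (g : P) (φ : X →ₗ[ℤ] ZMod p) (x : X), (g • φ) x = φ (gof g⁻¹ • x) :=
    fun g φ x => rfl
  obtain ⟨φ, hφ, hφ1⟩ := hP.exists_fixed_point_of_prime_dvd_card_of_fixed_point
    (X →ₗ[ℤ] ZMod p) (by
      have h1 : addOrderOf φ0 = p := by
        refine addOrderOf_eq_prime ?_ hφ0
        refine LinearMap.ext fun x => ?_
        rw [LinearMap.smul_apply, LinearMap.zero_apply, nsmul_eq_mul, CharP.cast_eq_zero, zero_mul]
      exact (dvd_of_eq h1.symm).trans (addOrderOf_dvd_natCard φ0)) (a := 0) (by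
      intro g
      refine LinearMap.ext fun x => ?_
      rw [hsm]
      rfl)
  apply hφ1
  have hinv : ∀ (g : P) (x : X), φ (gof g • x) = φ x := by
    intro g x
    have h1 := LinearMap.congr_fun (hφ g⁻¹) x
    rwa [hsm, inv_inv] at h1
  have hact : ∀ (r : RR P) (x : X), φ (r • x) = eps r • φ x :=
    fun r x => eps_act φ.toAddMonoidHom hinv r x
  have hzero : ∀ x ∈ X, ∀ hx : x ∈ X, φ ⟨x, hx⟩ = 0 := by
    intro x hx
    have hx' : x ∈ Submodule.span (RR P) S := hX ▸ hx
    induction hx' using Submodule.span_induction with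
    | mem x hxS =>
      intro hx
      obtain ⟨l, r, y, hr, hy, hxy⟩ := hS x hxS
      have h1 : (⟨x, hx⟩ : X) = ∑ i, r i • (⟨y i, hy i⟩ : X) := by
        apply Subtype.ext
        rw [Submodule.coe_sum]
        exact hxy
      rw [h1, map_sum]
      exact Finset.sum_eq_zero fun i _ => by rw [hact, hr, zero_smul]
    | zero =>
      intro hx
      exact map_zero φ
    | add x y hx1 hy1 ihx ihy =>
      intro hx
      have h1 : x ∈ X := hX ▸ hx1
      have h2 : y ∈ X := hX ▸ hy1
      have h3 : (⟨x + y, hx⟩ : X) = ⟨x, h1⟩ + ⟨y, h2⟩ := rfl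
      rw [h3, map_add, ihx h1 h1, ihy h2 h2, add_zero]
    | smul r x hx1 ih =>
      intro hx
      have h1 : x ∈ X := hX ▸ hx1
      have h3 : (⟨r • x, hx⟩ : X) = r • ⟨x, h1⟩ := rfl
      rw [h3, hact, ih h1 h1, smul_zero]
  refine LinearMap.ext fun x => ?_
  exact (hzero x.1 x.2 x.2).symm

/-- the equational criterion -/
def EC {m : ℕ} (h : Fin m → T) : Prop :=
  ∀ (l : ℕ) (r : Fin l → Fin m → RR T), (∀ j, bd h (r j) = 0) →
    ∃ E : Matrix (Fin m) (Fin m) (RR T), (∀ a, bd h (E a) = gof (h a) - 1) ∧ ∀ j, r j ᵥ* E = 0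

/-- projectivity of the augmentation ideal -/
def PR {m : ℕ} (h : Fin m → T) : Prop :=
  ∃ E : Matrix (Fin m) (Fin m) (RR T), (∀ a, bd h (E a) = gof (h a) - 1) ∧
    ∀ u, bd h u = 0 → u ᵥ* E = 0

theorem bd_sub_E {h : Fin m → T} {E : Matrix (Fin m) (Fin m) (RR T)}
    (hE : ∀ a, bd h (E a) = gof (h a) - 1) (a : Fin m) :
    bd h ((1 - E : Matrix (Fin m) (Fin m) (RR T)) a) = 0 := by
  have h1 : (1 - E : Matrix (Fin m) (Fin m) (RR T)) a = Pi.single a 1 - E a := by
    funext j
    rw [Matrix.sub_apply, Matrix.one_apply, Pi.sub_apply, Pi.single_apply]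
    simp only [eq_comm]
  rw [h1, map_sub, bd_single, hE, sub_self]

/-- **Projectivity for residually `p` groups.** -/
theorem pr_of_resP {p : ℕ} [hp : Fact p.Prime] (hT : ResP p T) {h : Fin m → T} (hec : EC h) :
    PR h := by
  let K : AddSubgroup (Fin m → RR T) := (bd h).toAddMonoidHom.ker
  have hK : ∀ u, u ∈ K ↔ bd h u = 0 := fun u => Iff.rfl
  let em : (Fin m → RR T) →+ (Fin m → ℤ) :=
    { toFun := fun u j => eps (u j)
      map_zero' := by funext j; exact map_zero _
      map_add' := fun u v => by funext j; exact map_add _ _ _ }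
  let W : Submodule ℤ (Fin m → ℤ) := (K.map em).toIntSubmodule
  obtain ⟨l, s, hs⟩ := Submodule.fg_iff_exists_fin_generating_family.1
    (IsNoetherian.noetherian W)
  have hsW : ∀ j, ∃ r, bd h r = 0 ∧ em r = s j := by
    intro j
    have h1 : s j ∈ W := by
      rw [← hs]
      exact Submodule.subset_span ⟨j, rfl⟩
    obtain ⟨r, hr, hr'⟩ := h1
    exact ⟨r, hr, hr'⟩
  choose r hr hr' using hsW
  obtain ⟨E, hE1, hE2⟩ := hec l r hr
  refine ⟨E, hE1, fun u hu => ?_⟩
  have key : ∀ (P : Type) [Group P] [Finite P] (f : T →* P), IsPGroup p P →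
      ∀ u, bd h u = 0 → vmap (pf f) (u ᵥ* E) = 0 := by
    intro P _ _ f hP
    let S : Set (Fin m → RR P) := {x | ∃ u, bd h u = 0 ∧ x = vmap (pf f) (u ᵥ* E)}
    have h0 := lattice_zero hP (Submodule.span (RR P) S) S rfl (by
      rintro x ⟨u, hu, rfl⟩
      -- subtract a combination of the `r j`
      have h1 : em u ∈ W := ⟨u, hu, rfl⟩
      rw [← hs, Submodule.mem_span_range_iff_exists_fun] at h1
      obtain ⟨c, hc⟩ := h1
      let u' : Fin m → RR T := u - ∑ j, (c j : RR T) • r j
      have hu' : bd h u' = 0 := by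
        rw [map_sub, hu, map_sum, zero_sub, neg_eq_zero]
        exact Finset.sum_eq_zero fun j _ => by rw [map_smul, hr, smul_zero]
      have hu'E : u' ᵥ* E = u ᵥ* E := by
        have h2 : (∑ j, (c j : RR T) • r j) ᵥ* E = 0 := by
          rw [Matrix.sum_vecMul]
          exact Finset.sum_eq_zero fun j _ => by rw [Matrix.smul_vecMul, hE2, smul_zero]
        rw [Matrix.sub_vecMul, h2, sub_zero]
      have hu'0 : ∀ a, eps (u' a) = 0 := by
        intro a
        have h2 := congrFun hc a
        rw [Finset.sum_apply] at h2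
        change eps (u a - (∑ j, (c j : RR T) • r j) a) = 0
        rw [map_sub, Finset.sum_apply, map_sum, sub_eq_zero]
        refine h2.symm.trans (Finset.sum_congr rfl fun j _ => ?_)
        rw [← hr']
        change c j • eps (r j a) = eps ((c j : RR T) * r j a)
        rw [map_mul, map_intCast, smul_eq_mul]
        rfl
      obtain ⟨F, hF1, hF2⟩ := hec 1 (fun _ => u') fun _ => hu'
      have hF2' := hF2 0
      have h3 : u' ᵥ* (1 - F) = u' := by
        rw [Matrix.vecMul_sub, Matrix.vecMul_one, hF2', sub_zero]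
      have h4 : u ᵥ* E = ∑ a, u' a • (((1 - F : Matrix (Fin m) (Fin m) (RR T)) a) ᵥ* E) := by
        rw [← hu'E]
        conv_lhs => rw [← h3]
        have h5 : u' ᵥ* (1 - F) = ∑ a, u' a • (1 - F : Matrix (Fin m) (Fin m) (RR T)) a :=
          Matrix.vecMul_eq_sum _ _
        rw [h5, Matrix.sum_vecMul]
        exact Finset.sum_congr rfl fun a _ => Matrix.smul_vecMul _ _ _
      refine ⟨m, fun a => pf f (u' a),
        fun a => vmap (pf f) (((1 - F : Matrix (Fin m) (Fin m) (RR T)) a) ᵥ* E), ?_, ?_, ?_⟩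
      · intro a
        rw [eps_pf, hu'0]
      · intro a
        exact Submodule.subset_span ⟨_, bd_sub_E hF1 a, rfl⟩
      · rw [h4]
        funext j
        rw [Finset.sum_apply]
        change pf f ((∑ a, u' a • (((1 - F : Matrix (Fin m) (Fin m) (RR T)) a) ᵥ* E)) j) = _
        rw [Finset.sum_apply, map_sum]
        exact Finset.sum_congr rfl fun a _ => by
          rw [Pi.smul_apply, smul_eq_mul, map_mul]
          rfl)
    intro u hu
    have h1 : vmap (pf f) (u ᵥ* E) ∈ Submodule.span (RR P) S := Submodule.subset_span ⟨u, hu, rfl⟩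
    rw [h0, Submodule.mem_bot] at h1
    exact h1
  funext j
  exact resP_inj hT fun P _ _ f hP => congrFun (key P f hP u hu) j

/-- **Projectivity for group rings in Noetherian rings.** -/
theorem pr_of_noeth {S : Type} [Ring S] [IsNoetherianRing S] (i : RR T →+* S)
    (hi : Function.Injective i) {h : Fin m → T} (hec : EC h) : PR h := by
  let W : Submodule S (Fin m → S) := Submodule.span S {x | ∃ u, bd h u = 0 ∧ x = vmap i u}
  have hWfg : W.FG := IsNoetherian.noetherian W
  obtain ⟨t, ht, htW⟩ := Submodule.fg_span_iff_fg_span_finset_subset _ |>.1 hWfg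
  have hx : ∀ x : t, ∃ u, bd h u = 0 ∧ x.1 = vmap i u := fun x => ht x.2
  choose u hu hu' using hx
  let e := t.equivFin
  obtain ⟨E, hE1, hE2⟩ := hec t.card (fun j => u (e.symm j)) fun j => hu _
  refine ⟨E, hE1, fun v hv => ?_⟩
  have h1 : ∀ x ∈ Submodule.span S (t : Set (Fin m → S)), x ᵥ* E.map i = 0 := by
    intro x hx
    induction hx using Submodule.span_induction with
    | mem x hx =>
      have h3 : x = vmap i (u ⟨x, hx⟩) := hu' ⟨x, hx⟩
      rw [h3, ← vmap_vecMul]
      have h2 := hE2 (e ⟨x, hx⟩)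
      rw [e.symm_apply_apply] at h2
      rw [h2]
      funext j
      exact map_zero i
    | zero => exact Matrix.zero_vecMul _
    | add x y _ _ hx hy => rw [Matrix.add_vecMul, hx, hy, add_zero]
    | smul r x _ hx => rw [Matrix.smul_vecMul, hx, smul_zero]
  have h2 : vmap i v ᵥ* E.map i = 0 := by
    apply h1
    rw [← htW]
    exact Submodule.subset_span ⟨v, hv, rfl⟩
  rw [← vmap_vecMul] at h2
  funext j
  apply hi
  rw [Pi.zero_apply, map_zero]
  exact congrFun h2 j

end

end Pool.Agent.H26.PD.PN
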