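import Pool.Agent.H26.PN.WL
import Pool.Agent.H26.PN.Proj

/-!
`H²(G; M[L \ G]) = 0` if `L` has infinite index in the finitely generated normal subgroup `N`,
the augmentation ideal of `N` is projective and `G ⧸ N` has one end.
-/

set_option autoImplicit false
set_option linter.unusedSectionVars false

namespace Pool.Agent.H26.PD.PN

open Pool.Agent.Helper386.PD3
open scoped Classical Matrix

noncomputable section

variable {G : Type} [Group G] {L N : Subgroup G} {M : Type} [AddCommGroup M]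

theorem WL_iff {f : G → M} : f ∈ WL L M ↔ (∀ l ∈ L, ∀ x, f (l * x) = f x) ∧
    ∃ T : Set G, T.Finite ∧ ∀ x, f x ≠ 0 → ∃ l ∈ L, l * x ∈ T := by
  constructor
  · rintro ⟨h1, S, hS, h2⟩
    refine ⟨h1, (fun q : G ⧸ L => (q.out)⁻¹) '' S, hS.image _, fun x hx => ?_⟩
    have h3 := h2 x hx
    have h5 : ((((x⁻¹ : G) : G ⧸ L).out : G) : G ⧸ L) = ((x⁻¹ : G) : G ⧸ L) :=
      QuotientGroup.out_eq' _
    rw [eq_comm, QuotientGroup.eq, inv_inv] at h5
    refine ⟨_, L.inv_mem h5, _, h3, ?_⟩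
    change (((x⁻¹ : G) : G ⧸ L).out)⁻¹ = (x * ((x⁻¹ : G) : G ⧸ L).out)⁻¹ * x
    rw [mul_inv_rev, inv_mul_cancel_right]
  · rintro ⟨h1, T, hT, h2⟩
    refine ⟨h1, (fun t : G => ((t⁻¹ : G) : G ⧸ L)) '' T, hT.image _, fun x hx => ?_⟩
    obtain ⟨l, hl, hlT⟩ := h2 x hx
    refine ⟨_, hlT, ?_⟩
    change (((l * x)⁻¹ : G) : G ⧸ L) = ((x⁻¹ : G) : G ⧸ L)
    rw [QuotientGroup.eq, inv_inv, mul_inv_cancel_right]
    exact hl

/-- restriction to a coset -/
def rs (N : Subgroup G) (M : Type) [AddCommGroup M] (x : G) : (G → M) →ₗ[ℤ] (N → M) where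
  toFun f y := f (y * x)
  map_add' _ _ := rfl
  map_smul' _ _ := rfl

theorem rs_apply (x : G) (f : G → M) (y : N) : rs N M x f y = f (y * x) := rfl

theorem rs_mem (hLN : L ≤ N) (x : G) {f : G → M} (hf : f ∈ WL L M) :
    rs N M x f ∈ WL (L.subgroupOf N) M := by
  rw [WL_iff] at hf ⊢
  obtain ⟨h1, T, hT, h2⟩ := hf
  refine ⟨?_, (fun y : N => (y : G) * x) ⁻¹' T, hT.preimage ?_, fun y hy => ?_⟩
  · intro l hl y
    rw [rs_apply, rs_apply, Subgroup.coe_mul, mul_assoc]
    exact h1 l (Subgroup.mem_subgroupOf.1 hl) _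
  · intro y _ y' _ hyy
    exact Subtype.ext (mul_right_cancel hyy)
  · obtain ⟨l, hl, hlT⟩ := h2 _ hy
    refine ⟨⟨l, hLN hl⟩, Subgroup.mem_subgroupOf.2 hl, ?_⟩
    change l * y * x ∈ T
    rwa [mul_assoc]

/-- constants plus functions with finite support -/
def BB (L N : Subgroup G) (M : Type) [AddCommGroup M] : Submodule ℤ (N → M) where
  carrier := {φ | ∃ κ : M, (fun y => φ y - κ) ∈ WL (L.subgroupOf N) M}
  add_mem' := by
    rintro φ φ' ⟨κ, h⟩ ⟨κ', h'⟩
    refine ⟨κ + κ', ?_⟩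
    have h1 := Submodule.add_mem _ h h'
    convert h1 using 1
    funext y
    change φ y + φ' y - (κ + κ') = (φ y - κ) + (φ' y - κ')
    abel
  zero_mem' := ⟨0, by
    have h1 : (fun y : N => (0 : N → M) y - 0) = 0 := by
      funext y
      rw [Pi.zero_apply, sub_zero]
    rw [h1]
    exact Submodule.zero_mem _⟩
  smul_mem' := by
    rintro k φ ⟨κ, h⟩
    refine ⟨k • κ, ?_⟩
    have h1 := Submodule.smul_mem _ k h
    convert h1 using 1
    funext y
    change k • φ y - k • κ = k • (φ y - κ)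
    rw [smul_sub]

theorem WL_le_BB {φ : N → M} (h : φ ∈ WL (L.subgroupOf N) M) : φ ∈ BB L N M :=
  ⟨0, by simpa using h⟩

theorem const_mem_BB {φ : N → M} {κ : M} (h : ∀ y, φ y = κ) : φ ∈ BB L N M :=
  ⟨κ, by
    have h1 : (fun y : N => φ y - κ) = 0 := by
      funext y
      rw [h, sub_self]
      rfl
    rw [h1]
    exact Submodule.zero_mem _⟩

theorem WL_inv_zero [N.Normal] (hLN : ¬ ∃ T : Set G, T.Finite ∧ ∀ n ∈ N, ∃ l ∈ L, l * n ∈ T)
    {f : G → M} (hf : f ∈ WL L M) (hf' : ∀ n ∈ N, ∀ x, f (x * n) = f x) : f = 0 := by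
  rw [WL_iff] at hf
  obtain ⟨-, T, hT, h2⟩ := hf
  funext x
  by_contra hx
  apply hLN
  refine ⟨(fun t => t * x⁻¹) '' T, hT.image _, fun n hn => ?_⟩
  have h3 : x⁻¹ * n * x ∈ N := by
    have := Subgroup.Normal.conj_mem (inferInstance : N.Normal) n hn x⁻¹
    rwa [inv_inv] at this
  have h4 : f (n * x) ≠ 0 := by
    have h5 : n * x = x * (x⁻¹ * n * x) := by group
    rw [h5, hf' _ h3]
    exact hx
  obtain ⟨l, hl, hlT⟩ := h2 _ h4
  refine ⟨l, hl, _, hlT, ?_⟩
  change l * (n * x) * x⁻¹ = l * n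
  group

section

variable [N.Normal]

/-- gluing -/
theorem glue (hLN : L ≤ N) {g : G → M} (h1 : ∀ x, rs N M x g ∈ BB L N M)
    {S : Set (G ⧸ N)} (hS : S.Finite) (h2 : ∀ x : G, (x : G ⧸ N) ∉ S → ∀ n ∈ N, g (x * n) = g x) :
    ∃ κ : G → M, (∀ n ∈ N, ∀ x, κ (x * n) = κ x) ∧ g - κ ∈ WL L M := by
  choose c hc using fun q : G ⧸ N => h1 q.out
  let κ : G → M := fun x => if (x : G ⧸ N) ∈ S then c x else g x
  have hout : ∀ x : G, x * ((x : G ⧸ N).out)⁻¹ ∈ N := fun x => (mul_out_mem_iff _ x).2 rfl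
  refine ⟨κ, fun n hn x => ?_, ?_⟩
  · change (if ((x * n : G) : G ⧸ N) ∈ S then c ((x * n : G) : G ⧸ N) else g (x * n)) =
      if (x : G ⧸ N) ∈ S then c x else g x
    rw [mk_mul_mem hn]
    split_ifs with h
    · rfl
    · exact h2 x h n hn
  · have h3 : ∀ q : G ⧸ N, _ := fun q => WL_iff.1 (hc q)
    choose T hT hT' using fun q => (h3 q).2
    have hin : ∀ x : G, (x : G ⧸ N) ∈ S → (g - κ) x =
        rs N M (x : G ⧸ N).out g ⟨x * ((x : G ⧸ N).out)⁻¹, hout x⟩ - c x := by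
      intro x hx
      change g x - (if (x : G ⧸ N) ∈ S then c x else g x) =
        g (x * ((x : G ⧸ N).out)⁻¹ * (x : G ⧸ N).out) - c x
      rw [if_pos hx, inv_mul_cancel_right]
    have hout' : ∀ x : G, (x : G ⧸ N) ∉ S → (g - κ) x = 0 := by
      intro x hx
      change g x - (if (x : G ⧸ N) ∈ S then c x else g x) = 0
      rw [if_neg hx, sub_self]
    rw [WL_iff]
    refine ⟨fun l hl x => ?_, ⋃ q ∈ S, (fun t : N => (t : G) * q.out) '' T q,
      hS.biUnion fun q _ => (hT q).image _, fun x hx => ?_⟩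
    · have hlx : ((l * x : G) : G ⧸ N) = x := mk_mem_mul (hLN hl) x
      by_cases hx : (x : G ⧸ N) ∈ S
      · have hx' : ((l * x : G) : G ⧸ N) ∈ S := by rw [hlx]; exact hx
        have h5 : ∀ z : G, (z : G ⧸ N) ∈ S → (g - κ) z = g z - c z := by
          intro z hz
          change g z - (if (z : G ⧸ N) ∈ S then c z else g z) = g z - c z
          rw [if_pos hz]
        rw [h5 x hx, h5 _ hx', hlx]
        have h4 := (h3 x).1 ⟨l, hLN hl⟩ (Subgroup.mem_subgroupOf.2 hl)
          ⟨x * ((x : G ⧸ N).out)⁻¹, hout x⟩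
        change g (l * (x * ((x : G ⧸ N).out)⁻¹) * (x : G ⧸ N).out) - c x =
          g (x * ((x : G ⧸ N).out)⁻¹ * (x : G ⧸ N).out) - c x at h4
        rwa [inv_mul_cancel_right, mul_assoc, inv_mul_cancel_right] at h4
      · have hx' : ((l * x : G) : G ⧸ N) ∉ S := by rw [hlx]; exact hx
        rw [hout' _ hx', hout' _ hx]
    · have hxS : (x : G ⧸ N) ∈ S := by
        by_contra h
        exact hx (hout' x h)
      rw [hin x hxS] at hx
      obtain ⟨l, hl, hlT⟩ := hT' x _ hx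
      refine ⟨l, Subgroup.mem_subgroupOf.1 hl, Set.mem_iUnion₂.2 ⟨_, hxS, _, hlT, ?_⟩⟩
      change (l : G) * (x * ((x : G ⧸ N).out)⁻¹) * (x : G ⧸ N).out = l * x
      rw [mul_assoc, inv_mul_cancel_right]

/-- almost invariant functions are constant on almost all cosets -/
theorem const_on (hfg : N.FG) (hLN : L ≤ N) {f : G → M}
    (hf : ∀ n ∈ N, tr M n f - f ∈ WL L M) :
    ∃ S : Set (G ⧸ N), S.Finite ∧ ∀ x : G, (x : G ⧸ N) ∉ S → ∀ n ∈ N, f (x * n) = f x := by
  obtain ⟨T0, hT0⟩ := hfg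
  have hgenN : ∀ t ∈ T0, t ∈ N := fun t ht => by
    rw [← hT0]
    exact Subgroup.subset_closure ht
  choose T hT hT' using fun t : T0 => (WL_iff.1 (hf t.1 (hgenN t.1 t.2))).2
  refine ⟨⋃ t : T0, (fun x : G => (x : G ⧸ N)) '' T t, Set.finite_iUnion fun t => (hT t).image _,
    fun x hx n hn => ?_⟩
  rw [← hT0] at hn
  induction hn using Subgroup.closure_induction generalizing x with
  | mem t ht =>
    by_contra h
    apply hx
    have h1 : (tr M t f - f) x ≠ 0 := by
      change f (x * t) - f x ≠ 0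
      exact sub_ne_zero.2 h
    obtain ⟨l, hl, hlT⟩ := hT' ⟨t, ht⟩ x h1
    exact Set.mem_iUnion.2 ⟨⟨t, ht⟩, l * x, hlT, mk_mem_mul (hLN hl) x⟩
  | one => rw [mul_one]
  | mul n m hn hm ihn ihm =>
    rw [hT0] at hn
    rw [← mul_assoc, ihm (x * n) (by rwa [mk_mul_mem hn]), ihn x hx]
  | inv n hn ih =>
    rw [hT0] at hn
    have h1 := ih (x * n⁻¹) (by rwa [mk_mul_mem (N.inv_mem hn)])
    rw [inv_mul_cancel_right] at h1
    exact h1.symm

/-- derivations which are trivial on `N` modulo `W` are inner -/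
theorem inn_of_triv (hfg : N.FG) (hLN : L ≤ N)
    (hLN' : ¬ ∃ T : Set G, T.Finite ∧ ∀ n ∈ N, ∃ l ∈ L, l * n ∈ T) (hinf : Infinite (G ⧸ N))
    (hone : OneEnded (G ⧸ N)) {D : G → (G → M)} (hD : DerM (WL L M) D)
    (hDN : ∀ n ∈ N, D n ∈ WL L M) : InnM (WL L M) D := by
  have hW : Stable (WL L M) := stable_WL
  have hconj : ∀ n ∈ N, ∀ x : G, x⁻¹ * n * x ∈ N := by
    intro n hn x
    have := Subgroup.Normal.conj_mem (inferInstance : N.Normal) n hn x⁻¹
    rwa [inv_inv] at this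
  -- almost invariance
  have hai : ∀ a, ∀ n ∈ N, tr M n (D a) - D a ∈ WL L M := by
    intro a n hn
    have h1 := hD n a
    have h2 := hD a (a⁻¹ * n * a)
    have h3 : a * (a⁻¹ * n * a) = n * a := by group
    rw [h3] at h2
    have h4 := hW a _ (hDN _ (hconj n hn a))
    have h5 := Submodule.sub_mem _ (Submodule.add_mem _ h2 h4)
      (Submodule.add_mem _ h1 (hDN n hn))
    convert h5 using 1
    abel
  choose S1 hS1 hS1' using fun a => const_on hfg hLN (hai a)
  -- the function on the quotient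
  let F : G → ((N → M) ⧸ BB L N M) := fun x => Submodule.Quotient.mk (rs N M 1 (D x))
  have hrs : ∀ (x : G) {f : G → M}, f ∈ WL L M →
      (Submodule.Quotient.mk (rs N M x f) : (N → M) ⧸ BB L N M) = 0 := by
    intro x f hf
    rw [Submodule.Quotient.mk_eq_zero]
    exact WL_le_BB (rs_mem hLN x hf)
  have hF1 : ∀ x g, F (x * g) = F x + Submodule.Quotient.mk (rs N M x (D g)) := by
    intro x g
    have h1 := hrs 1 (hD x g)
    rw [map_sub, map_add, Submodule.Quotient.mk_sub, sub_eq_zero, Submodule.Quotient.mk_add] at h1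
    have h2 : rs N M 1 (tr M x (D g)) = rs N M x (D g) := by
      funext y
      rw [rs_apply, rs_apply, tr_apply, mul_one]
    rw [h2] at h1
    exact h1
  have hF2 : ∀ x, ∀ n ∈ N, F (x * n) = F x := by
    intro x n hn
    rw [hF1, hrs x (hDN n hn), add_zero]
  let Fb : G ⧸ N → ((N → M) ⧸ BB L N M) := fun q => F q.out
  have hFb : ∀ x : G, Fb x = F x := by
    intro x
    have h1 : ((x : G ⧸ N).out)⁻¹ * x ∈ N := by
      rw [← QuotientGroup.eq]
      exact Quotient.out_eq' _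
    have h2 := hF2 (x : G ⧸ N).out _ h1
    rw [mul_inv_cancel_left] at h2
    exact h2.symm
  obtain ⟨v, hv⟩ := hone _ Fb (by
    intro s
    obtain ⟨g, rfl⟩ := QuotientGroup.mk_surjective s
    refine (hS1 g).subset ?_
    intro q hq
    obtain ⟨x, rfl⟩ := QuotientGroup.mk_surjective q
    by_contra hx
    apply hq
    rw [← QuotientGroup.mk_mul, hFb, hFb, hF1, add_eq_left, Submodule.Quotient.mk_eq_zero]
    refine const_mem_BB (κ := D g x) fun y => ?_
    rw [rs_apply]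
    have h1 : (y : G) * x = x * (x⁻¹ * y * x) := by group
    rw [h1]
    exact hS1' g x hx _ (hconj y y.2 x))
  let SF : Set (G ⧸ N) := {q | Fb q ≠ v}
  obtain ⟨q0, hq0⟩ := hv.exists_notMem
  have hq0' : Fb q0 = v := not_not.1 hq0
  let x0 : G := q0.out
  have hx0 : F x0 = v := hq0'
  let f : G → M := fun x => if (x : G ⧸ N) ∈ SF then
    D (x : G ⧸ N).out (x * ((x : G ⧸ N).out)⁻¹) - D x0 (x * ((x : G ⧸ N).out)⁻¹) else 0
  have hout : ∀ x : G, x * ((x : G ⧸ N).out)⁻¹ ∈ N := fun x => (mul_out_mem_iff _ x).2 rfl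
  have hf : ∀ x, (Submodule.Quotient.mk (rs N M x f) : (N → M) ⧸ BB L N M) = F x - v := by
    intro x
    have hmk : ∀ y : N, (((y : G) * x : G) : G ⧸ N) = x := fun y => mk_mem_mul y.2 x
    by_cases hx : (x : G ⧸ N) ∈ SF
    · have h1 : rs N M x f = rs N M 1 (tr M (x * ((x : G ⧸ N).out)⁻¹) (D (x : G ⧸ N).out)) -
          rs N M 1 (tr M (x * ((x : G ⧸ N).out)⁻¹) (D x0)) := by
        funext y
        change (if (((y : G) * x : G) : G ⧸ N) ∈ SF then
          D (((y : G) * x : G) : G ⧸ N).out ((y : G) * x * ((((y : G) * x : G) : G ⧸ N).out)⁻¹) -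
          D x0 ((y : G) * x * ((((y : G) * x : G) : G ⧸ N).out)⁻¹) else 0) =
          D (x : G ⧸ N).out ((y : G) * 1 * (x * ((x : G ⧸ N).out)⁻¹)) -
          D x0 ((y : G) * 1 * (x * ((x : G ⧸ N).out)⁻¹))
        rw [hmk, if_pos hx, mul_one, mul_assoc]
      have h2 : ∀ a, (Submodule.Quotient.mk (rs N M 1 (tr M (x * ((x : G ⧸ N).out)⁻¹) (D a))) :
          (N → M) ⧸ BB L N M) = F a := by
        intro a
        have h3 := hrs 1 (hai a _ (hout x))
        rw [map_sub, Submodule.Quotient.mk_sub, sub_eq_zero] at h3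
        exact h3
      rw [h1, Submodule.Quotient.mk_sub, h2, h2, hx0, ← hFb x]
    · have h1 : rs N M x f = 0 := by
        funext y
        change (if (((y : G) * x : G) : G ⧸ N) ∈ SF then
          D (((y : G) * x : G) : G ⧸ N).out ((y : G) * x * ((((y : G) * x : G) : G ⧸ N).out)⁻¹) -
          D x0 ((y : G) * x * ((((y : G) * x : G) : G ⧸ N).out)⁻¹) else 0) = 0
        rw [hmk, if_neg hx]
      have h2 : F x = v := by
        rw [← hFb]
        exact not_not.1 hx
      rw [h1, h2, sub_self]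
      rfl
  have hglue : ∀ a, ∃ κ : G → M, (∀ n ∈ N, ∀ x, κ (x * n) = κ x) ∧
      (D a - (tr M a f - f)) - κ ∈ WL L M := by
    intro a
    refine glue hLN (S := S1 a ∪ (SF ∪ (fun q => q * (a : G ⧸ N)⁻¹) '' SF)) (fun x => ?_)
      ((hS1 a).union (hv.union (hv.image _))) ?_
    · rw [← Submodule.Quotient.mk_eq_zero, map_sub, map_sub, Submodule.Quotient.mk_sub,
        Submodule.Quotient.mk_sub, hf]
      have h1 : rs N M x (tr M a f) = rs N M (x * a) f := by
        funext y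
        rw [rs_apply, rs_apply, tr_apply, mul_assoc]
      rw [h1, hf, hF1]
      abel
    · intro x hx n hn
      rw [Set.mem_union, Set.mem_union, not_or, not_or] at hx
      obtain ⟨h1, h2, h3⟩ := hx
      have h4 : ∀ z : G, (z : G ⧸ N) ∉ SF → f z = 0 := fun z hz => if_neg hz
      have h5 : ((x * a : G) : G ⧸ N) ∉ SF := by
        intro h
        apply h3
        refine ⟨_, h, ?_⟩
        change ((x * a : G) : G ⧸ N) * (a : G ⧸ N)⁻¹ = x
        rw [QuotientGroup.mk_mul, mul_inv_cancel_right]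
      have h6 : ((x * n * a : G) : G ⧸ N) ∉ SF := by
        have h7 : ((x * n * a : G) : G ⧸ N) = ((x * a : G) : G ⧸ N) := by
          rw [QuotientGroup.mk_mul, mk_mul_mem hn, QuotientGroup.mk_mul]
        rwa [h7]
      change D a (x * n) - (f (x * n * a) - f (x * n)) = D a x - (f (x * a) - f x)
      rw [hS1' a x h1 n hn, h4 _ h6, h4 _ h5, h4 x h2, h4 (x * n) (by rwa [mk_mul_mem hn])]
  choose κ hκ hκ' using hglue
  have hκd : ∀ a b, κ (a * b) = κ a + tr M a (κ b) := by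
    intro a b
    rw [← sub_eq_zero]
    refine WL_inv_zero hLN' ?_ ?_
    · have h1 := hD a b
      have h2 := hκ' (a * b)
      have h3 := hκ' a
      have h4 := hW a _ (hκ' b)
      have h5 := Submodule.add_mem _ (Submodule.add_mem _ (Submodule.sub_mem _ h1 h2) h3) h4
      convert h5 using 1
      rw [map_sub, map_sub, map_sub, map_mul]
      change _ = D (a * b) - (D a + (tr M a) (D b)) -
        (D (a * b) - (tr M a (tr M b f) - f) - κ (a * b)) + (D a - (tr M a f - f) - κ a) +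
        (tr M a (D b) - (tr M a (tr M b f) - tr M a f) - tr M a (κ b))
      abel
    · intro n hn x
      have h1 : x * n * a = x * a * (a⁻¹ * n * a) := by group
      change κ (a * b) (x * n) - (κ a (x * n) + κ b (x * n * a)) =
        κ (a * b) x - (κ a x + κ b (x * a))
      rw [hκ _ n hn, hκ _ n hn, h1, hκ _ _ (hconj n hn a)]
  obtain ⟨k, hk⟩ := inn_top hκd
  refine ⟨f + k, fun a => ?_⟩
  have h1 := hκ' a
  rw [hk a] at h1
  convert h1 using 1
  rw [map_add]
  abel

/-- derivations are inner modulo `W` on `N` -/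
theorem inn_on_N {W : Submodule ℤ (G → M)} {m : ℕ} {h : Fin m → N}
    (hgen : Subgroup.closure (Set.range h) = ⊤) (hPR : PR h) {D : G → (G → M)}
    (hD : DerM W D) : ∃ k : G → M, ∀ n ∈ N, D n - (tr M n k - k) ∈ W := by
  obtain ⟨E, hE1, hE2⟩ := hPR
  have hv : ∀ x : N, ∃ v, bd h v = gof x - 1 := fun x =>
    bd_surj' h hgen (by rw [map_sub, map_one, eps_of, sub_self])
  choose v hv using hv
  let Φ : (Fin m → RR N) → (G → M) := fun u => ∑ a, rho M (inc N (u a)) (D (h a))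
  have hΦadd : ∀ u u', Φ (u + u') = Φ u + Φ u' := by
    intro u u'
    change ∑ a, rho M (inc N ((u + u') a)) (D (h a)) = _
    rw [← Finset.sum_add_distrib]
    exact Finset.sum_congr rfl fun a _ => by
      rw [Pi.add_apply, map_add, map_add, LinearMap.add_apply]
  have hΦsmul : ∀ (x : N) u, Φ (gof x • u) = tr M (x : G) (Φ u) := by
    intro x u
    change ∑ a, rho M (inc N ((gof x • u) a)) (D (h a)) = tr M (x : G) (∑ a, _)
    rw [map_sum]
    refine Finset.sum_congr rfl fun a _ => ?_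
    rw [Pi.smul_apply, smul_eq_mul, map_mul, map_mul, inc_of, rho_of]
    rfl
  have hbdE : ∀ u, bd h (u ᵥ* E) = bd h u := by
    intro u
    have h1 : u ᵥ* E = ∑ a, u a • E a := Matrix.vecMul_eq_sum _ _
    rw [h1, map_sum]
    exact Finset.sum_congr rfl fun a _ => by rw [map_smul, hE1, smul_eq_mul]
  let D' : N → (G → M) := fun x => Φ (v x ᵥ* E)
  have hD' : ∀ x y, D' (x * y) = D' x + tr M (x : G) (D' y) := by
    intro x y
    have h1 : v (x * y) ᵥ* E = v x ᵥ* E + gof x • (v y ᵥ* E) := by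
      have h2 := hE2 (v (x * y) - (v x + gof x • v y)) (by
        rw [map_sub, map_add, map_smul, hv, hv, hv, gof_mul, smul_eq_mul, mul_sub, mul_one]
        abel)
      rw [Matrix.sub_vecMul, sub_eq_zero, Matrix.add_vecMul, Matrix.smul_vecMul] at h2
      exact h2
    change Φ (v (x * y) ᵥ* E) = _
    rw [h1, hΦadd, hΦsmul]
  have hD1 : D 1 ∈ W := by
    have h1 := hD 1 1
    rw [mul_one, map_one] at h1
    change D 1 - (D 1 + D 1) ∈ W at h1
    rw [sub_add_cancel_left] at h1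
    exact W.neg_mem_iff.1 h1
  let ΔD : RR N →+ (G → M) := addR (fun x : N => D x)
  have hΔ : ∀ (r : RR N) (a : Fin m),
      rho M (inc N r) (D (h a)) - ΔD (r * (gof (h a) - 1)) ∈ W := by
    intro r a
    induction r using rr_ind with
    | h1 x =>
      rw [inc_of, rho_of, mul_sub, mul_one, ← gof_mul, map_sub]
      change tr M (x : G) (D (h a)) - (addR (fun x : N => D x) (gof (x * h a)) -
        addR (fun x : N => D x) (gof x)) ∈ W
      rw [addR_of, addR_of]
      have h1 := W.neg_mem (hD x (h a))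
      convert h1 using 1
      rw [Subgroup.coe_mul]
      abel
    | h2 x y hx hy =>
      have h1 := W.add_mem hx hy
      convert h1 using 1
      rw [map_add, map_add, LinearMap.add_apply, add_mul, map_add]
      abel
    | h3 x hx =>
      have h1 := W.neg_mem hx
      convert h1 using 1
      rw [map_neg, map_neg, LinearMap.neg_apply, neg_mul, map_neg]
      abel
  have hmod : ∀ x : N, D x - D' x ∈ W := by
    intro x
    have h1 : Φ (v x ᵥ* E) - ΔD (bd h (v x ᵥ* E)) ∈ W := by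
      rw [bd_apply, map_sum]
      change (∑ a, rho M (inc N ((v x ᵥ* E) a)) (D (h a))) - _ ∈ W
      rw [← Finset.sum_sub_distrib]
      exact W.sum_mem fun a _ => hΔ _ a
    rw [hbdE, hv, map_sub, ← gof_one] at h1
    change Φ (v x ᵥ* E) - (addR (fun x : N => D x) (gof x) -
      addR (fun x : N => D x) (gof 1)) ∈ W at h1
    rw [addR_of, addR_of] at h1
    have h2 := W.neg_mem (W.sub_mem h1 hD1)
    convert h2 using 1
    change D x - Φ (v x ᵥ* E) = _
    rw [Subgroup.coe_one]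
    abel
  have hout : ∀ x : G, ((x : G ⧸ N).out)⁻¹ * x ∈ N := by
    intro x
    rw [← QuotientGroup.eq]
    exact Quotient.out_eq' _
  let k : G → M := fun x => D' ⟨((x : G ⧸ N).out)⁻¹ * x, hout x⟩ (x : G ⧸ N).out
  refine ⟨k, fun n hn => ?_⟩
  have h1 : D' ⟨n, hn⟩ = tr M n k - k := by
    funext x
    have h2 : ((x * n : G) : G ⧸ N) = x := mk_mul_mem hn x
    have h3 : k (x * n) = D' (⟨((x : G ⧸ N).out)⁻¹ * x, hout x⟩ * ⟨n, hn⟩) (x : G ⧸ N).out := by
      change D' ⟨(((x * n : G) : G ⧸ N).out)⁻¹ * (x * n), hout (x * n)⟩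
        ((x * n : G) : G ⧸ N).out = _
      rw [show (⟨(((x * n : G) : G ⧸ N).out)⁻¹ * (x * n), hout (x * n)⟩ : N) =
        ⟨((x : G ⧸ N).out)⁻¹ * x, hout x⟩ * ⟨n, hn⟩ from Subtype.ext (by
          change (((x * n : G) : G ⧸ N).out)⁻¹ * (x * n) = ((x : G ⧸ N).out)⁻¹ * x * n
          rw [h2, mul_assoc]), h2]
    change _ = k (x * n) - k x
    rw [h3, hD', Pi.add_apply]
    change _ = k x + D' ⟨n, hn⟩ ((x : G ⧸ N).out * (((x : G ⧸ N).out)⁻¹ * x)) - k x
    rw [mul_inv_cancel_left, add_sub_cancel_left]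
  rw [← h1]
  exact hmod ⟨n, hn⟩

/-- **All derivations are inner modulo `W`.** -/
theorem inn_all (hfg : N.FG) (hLN : L ≤ N)
    (hLN' : ¬ ∃ T : Set G, T.Finite ∧ ∀ n ∈ N, ∃ l ∈ L, l * n ∈ T) (hinf : Infinite (G ⧸ N))
    (hone : OneEnded (G ⧸ N)) {m : ℕ} {h : Fin m → N}
    (hgen : Subgroup.closure (Set.range h) = ⊤) (hPR : PR h) {D : G → (G → M)}
    (hD : DerM (WL L M) D) : InnM (WL L M) D := by
  have hW : Stable (WL L M) := stable_WL
  obtain ⟨k, hk⟩ := inn_on_N hgen hPR hD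
  obtain ⟨f, hf⟩ := inn_of_triv hfg hLN hLN' hinf hone (D := fun a => D a - (tr M a k - k)) (by
    intro a b
    have h1 := hD a b
    convert h1 using 1
    change D (a * b) - (tr M (a * b) k - k) - ((D a - (tr M a k - k)) +
      tr M a (D b - (tr M b k - k))) = _
    rw [map_sub, map_sub, map_mul]
    change D (a * b) - (tr M a (tr M b k) - k) - ((D a - (tr M a k - k)) +
      (tr M a (D b) - (tr M a (tr M b k) - tr M a k))) = _
    abel) hk
  refine ⟨f + k, fun a => ?_⟩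
  have h1 : (D a - (tr M a k - k)) - (tr M a f - f) ∈ WL L M := hf a
  convert h1 using 1
  rw [map_add]
  abel

end

variable {n : ℕ} {w : G →* ℤˣ} {e0 e1 e2 e3 d0 d1 d2 : MR G n}

/-- **If `G ⧸ N` has one end then `N` is virtually cyclic.** -/
theorem virt_cyclic [N.Normal] (hF : Full w e0 e1 e2 e3 d0 d1 d2)
    (hex : ∀ v, v ᵥ* e2 = v → v ᵥ* d1 = 0 → ∃ u, u ᵥ* d2 = v)
    (hfg : N.FG) (hinf : Infinite (G ⧸ N)) (hone : OneEnded (G ⧸ N)) {m : ℕ} {h : Fin m → N}
    (hgen : Subgroup.closure (Set.range h) = ⊤) (hPR : PR h) {g : G} (hgN : g ∈ N)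
    (hg : ∀ k : ℤ, k ≠ 0 → g ^ k ≠ 1) (hw : w g = 1) :
    ∃ T : Set G, T.Finite ∧ ∀ n ∈ N, ∃ l ∈ Subgroup.zpowers g, l * n ∈ T := by
  by_contra hLN'
  have hLN : Subgroup.zpowers g ≤ N := by rwa [Subgroup.zpowers_le]
  obtain ⟨c, hc, he, hd, hnon⟩ := nonvan hF hg hw
  obtain ⟨b, hb1, hb2⟩ := h2_fun hF.low hex he hd
  obtain ⟨b', hb'⟩ := h1_mod hF.low stable_WL
    (fun D hD => inn_all hfg hLN hLN' hinf hone hgen hPR hD) hb1
    (fun i => by rw [hb2]; exact hc i)
  refine hnon (b - mv d0 b') (fun i => hb' i) ?_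
  rw [mv_sub, hb2, ← mv_mul, hF.low.dd, mv_zero_left, sub_zero]

end

end Pool.Agent.H26.PD.PN
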