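import Pool.Agent.H26.PN.Cob
import Pool.Agent.H26.PD.Dty
import Pool.Agent.H26.PD.B1

/-!
Cochains of a resolution and derivations modulo a submodule.
-/

set_option autoImplicit false
set_option linter.unusedSectionVars false

namespace Pool.Agent.H26.PD.PN

open Pool.Agent.Helper386.PD3
open scoped Classical Matrix

noncomputable section

variable {G : Type} [Group G] {M : Type} [AddCommGroup M] {n : ℕ}

/-- derivations modulo `W` -/
def DerM (W : Submodule ℤ (G → M)) (D : G → (G → M)) : Prop :=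
  ∀ g h, D (g * h) - (D g + tr M g (D h)) ∈ W

/-- inner derivations modulo `W` -/
def InnM (W : Submodule ℤ (G → M)) (D : G → (G → M)) : Prop :=
  ∃ f, ∀ g, D g - (tr M g f - f) ∈ W

theorem ev_mod {W : Submodule ℤ (G → M)} {β : (Fin n → RR G) → (G → M)}
    (hadd : ∀ v v', β (v + v') - (β v + β v') ∈ W)
    (hg : ∀ (g : G) v, β (gof g • v) - tr M g (β v) ∈ W) (v : Fin n → RR G) :
    evf (fun j => β (Pi.single j 1)) v - β v ∈ W := by
  have h0 : β 0 ∈ W := by
    have h1 := hadd 0 0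
    rw [add_zero, sub_add_cancel_left] at h1
    exact W.neg_mem_iff.1 h1
  have hneg : ∀ v, β (-v) - -β v ∈ W := by
    intro v
    have h1 := hadd (-v) v
    rw [neg_add_cancel] at h1
    have h2 : β (-v) - -β v = β 0 - (β 0 - (β (-v) + β v)) := by abel
    rw [h2]
    exact W.sub_mem h0 h1
  have hr : ∀ (r : RR G) (v : Fin n → RR G), β (r • v) - rho M r (β v) ∈ W := by
    intro r v
    induction r using rr_ind with
    | h1 g => rw [rho_of]; exact hg g v
    | h2 x y hx hy =>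
      have h1 : β ((x + y) • v) - rho M (x + y) (β v) =
          (β (x • v + y • v) - (β (x • v) + β (y • v))) + (β (x • v) - rho M x (β v)) +
          (β (y • v) - rho M y (β v)) := by
        rw [add_smul, map_add, LinearMap.add_apply]
        abel
      rw [h1]
      exact W.add_mem (W.add_mem (hadd _ _) hx) hy
    | h3 x hx =>
      have h1 : β (-x • v) - rho M (-x) (β v) =
          (β (-(x • v)) - -β (x • v)) - (β (x • v) - rho M x (β v)) := by
        rw [neg_smul, map_neg, LinearMap.neg_apply]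
        abel
      rw [h1]
      exact W.sub_mem (hneg _) hx
  have h2 : ∀ s : Finset (Fin n), (∑ j ∈ s, rho M (v j) (β (Pi.single j 1))) -
      β (∑ j ∈ s, v j • (Pi.single j (1 : RR G) : Fin n → RR G)) ∈ W := by
    intro s
    induction s using Finset.induction_on with
    | empty =>
      rw [Finset.sum_empty, Finset.sum_empty, zero_sub]
      exact W.neg_mem h0
    | insert j s hj ih =>
      rw [Finset.sum_insert hj, Finset.sum_insert hj]
      have h1 := hadd (v j • (Pi.single j (1 : RR G) : Fin n → RR G))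
        (∑ j ∈ s, v j • (Pi.single j (1 : RR G) : Fin n → RR G))
      have h3 := hr (v j) (Pi.single j 1)
      have h4 := W.sub_mem ih (W.add_mem h1 h3)
      convert h4 using 1
      abel
  have h1 : v = ∑ j, v j • (Pi.single j (1 : RR G) : Fin n → RR G) := by
    funext k
    rw [Finset.sum_apply, Finset.sum_eq_single k]
    · simp
    · intro i _ hi
      rw [Pi.smul_apply, Pi.single_eq_of_ne (Ne.symm hi), smul_zero]
    · intro h
      exact absurd (Finset.mem_univ k) h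
  have h3 := h2 Finset.univ
  rw [← h1] at h3
  exact h3

variable {e0 e1 e2 d0 d1 : MR G n}

theorem aug_vecMul_e0 {ε : (Fin n → RR G) →+ ℤ} (hL : Low e0 e1 e2 d0 d1) {u0 : Fin n → RR G}
    (hu0 : u0 ᵥ* e0 = u0) (hεu0 : ε u0 = 1)
    (hεex : ∀ u, u ᵥ* e0 = u → ε u = 0 → ∃ v, v ᵥ* d0 = u) (v : Fin n → RR G) :
    ∃ z, z ᵥ* d0 = v ᵥ* e0 - ε (v ᵥ* e0) • u0 := by
  refine hεex _ ?_ ?_
  · rw [Matrix.sub_vecMul, Matrix.vecMul_vecMul, hL.ee0]
    have : (ε (v ᵥ* e0) • u0) ᵥ* e0 = ε (v ᵥ* e0) • (u0 ᵥ* e0) := Matrix.smul_vecMul _ _ _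
    rw [this, hu0]
  · rw [map_sub, map_zsmul, hεu0, smul_eq_mul, mul_one, sub_self]

/-- `H¹(G; (G → M)/W) = 0` for the resolution -/
theorem h1_mod (hL : Low e0 e1 e2 d0 d1) {W : Submodule ℤ (G → M)} (hW : Stable W)
    (hin : ∀ D, DerM W D → InnM W D)
    {c : Fin n → (G → M)} (he : mv e1 c = c) (hd : ∀ i, mv d1 c i ∈ W) :
    ∃ b : Fin n → (G → M), ∀ i, c i - mv d0 b i ∈ W := by
  obtain ⟨ε, hε, ⟨u0, hu0, hεu0⟩, hεd, hεex⟩ := hL.aug
  have hker : ∀ v, v ᵥ* d0 = 0 → evf c v ∈ W := by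
    intro v hv
    obtain ⟨u, hu⟩ := hL.ex1 (v ᵥ* e1) (by rw [Matrix.vecMul_vecMul, hL.ee1])
      (by rw [Matrix.vecMul_vecMul, hL.e1d0, hv])
    have h1 : evf c v = evf c (v ᵥ* e1) := by rw [evf_vecMul, he]
    rw [h1, ← hu, evf_vecMul]
    exact evf_mem hW hd u
  have hker' : ∀ v v', v ᵥ* d0 = v' ᵥ* d0 → evf c v - evf c v' ∈ W := by
    intro v v' h
    rw [← evf_sub]
    apply hker
    rw [Matrix.sub_vecMul, h, sub_self]
  have hy : ∀ g : G, ∃ v, v ᵥ* d0 = gof g • u0 - u0 := by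
    intro g
    refine hεex _ ?_ ?_
    · rw [Matrix.sub_vecMul, Matrix.smul_vecMul, hu0]
    · rw [map_sub, hε, sub_self]
  choose y hy using hy
  obtain ⟨b, hb⟩ := hin (fun g => evf c (y g)) (by
    intro g h
    have h2 := hker' (y (g * h)) (y g + gof g • y h) (by
      rw [Matrix.add_vecMul, Matrix.smul_vecMul, hy, hy, hy, gof_mul, mul_smul, smul_sub]
      abel)
    rw [evf_add, evf_smul, rho_of] at h2
    exact h2)
  choose z hz using aug_vecMul_e0 hL hu0 hεu0 hεex
  let β : (Fin n → RR G) → (G → M) := fun v => ε (v ᵥ* e0) • b + evf c (z v)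
  have hadd : ∀ v v', β (v + v') - (β v + β v') ∈ W := by
    intro v v'
    have h1 := hker' (z (v + v')) (z v + z v') (by
      rw [Matrix.add_vecMul, hz, hz, hz, Matrix.add_vecMul, map_add, add_smul]
      abel)
    rw [evf_add] at h1
    convert h1 using 1
    change ε ((v + v') ᵥ* e0) • b + evf c (z (v + v')) -
      (ε (v ᵥ* e0) • b + evf c (z v) + (ε (v' ᵥ* e0) • b + evf c (z v'))) = _
    rw [Matrix.add_vecMul, map_add, add_smul]
    abel
  have hg : ∀ (g : G) v, β (gof g • v) - tr M g (β v) ∈ W := by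
    intro g v
    have h0 : ε ((gof g • v) ᵥ* e0) = ε (v ᵥ* e0) := by rw [Matrix.smul_vecMul, hε]
    have h1 := hker' (z (gof g • v)) (gof g • z v + ε (v ᵥ* e0) • y g) (by
      have h2 : (ε (v ᵥ* e0) • y g) ᵥ* d0 = ε (v ᵥ* e0) • (y g ᵥ* d0) := Matrix.smul_vecMul _ _ _
      rw [hz, h0, Matrix.add_vecMul, h2, hy, Matrix.smul_vecMul, Matrix.smul_vecMul, hz, smul_sub,
        smul_sub, smul_comm (gof g) (ε (v ᵥ* e0)) u0]
      abel)
    rw [evf_add, evf_smul, rho_of, evf_zsmul] at h1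
    have h3 := W.add_mem h1 (W.smul_mem (ε (v ᵥ* e0)) (hb g))
    convert h3 using 1
    change ε ((gof g • v) ᵥ* e0) • b + evf c (z (gof g • v)) -
      tr M g (ε (v ᵥ* e0) • b + evf c (z v)) = _
    rw [h0, map_add, map_zsmul, smul_sub, smul_sub]
    abel
  refine ⟨fun j => β (Pi.single j 1), fun i => ?_⟩
  have h1 := ev_mod hadd hg (d0 i)
  rw [evf_row] at h1
  have h2 : d0 i ᵥ* e0 = d0 i := congrFun (hL.d0e0) i
  have h3 : ε (d0 i) = 0 := by
    have := hεd (Pi.single i 1)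
    rwa [Matrix.single_one_vecMul] at this
  have h4 : (e1 i) ᵥ* d0 = d0 i := congrFun (hL.e1d0) i
  have h5 := hker' (z (d0 i)) (e1 i) (by rw [hz, h2, h3, zero_smul, sub_zero, h4])
  rw [evf_row, he] at h5
  have h6 : β (d0 i) = evf c (z (d0 i)) := by
    change ε (d0 i ᵥ* e0) • b + evf c (z (d0 i)) = _
    rw [h2, h3, zero_smul, zero_add]
  rw [h6] at h1
  have h7 := W.neg_mem (W.add_mem h1 h5)
  convert h7 using 1
  abel

/-- `H²(G; G → ℚ) = 0` for the resolution -/
theorem h2_fun {d2 : MR G n} (hL : Low e0 e1 e2 d0 d1)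
    (hex : ∀ v, v ᵥ* e2 = v → v ᵥ* d1 = 0 → ∃ u, u ᵥ* d2 = v)
    {c : Fin n → (G → ℚ)} (he : mv e2 c = c) (hd : mv d2 c = 0) :
    ∃ b : Fin n → (G → ℚ), mv e1 b = b ∧ mv d1 b = c := by
  let f : (Fin n → RR G) →ₗ[ℤ] (Fin n → RR G) :=
    (AddMonoidHom.mk' (fun v => v ᵥ* d1) (fun v v' => Matrix.add_vecMul _ _ _)).toIntLinearMap
  have hf : ∀ v, f v = v ᵥ* d1 := fun v => rfl
  let φ : (Fin n → RR G) →ₗ[ℤ] ℚ := (evb c).toIntLinearMap
  have hφ : ∀ v, φ v = evb c v := fun v => rfl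
  have hker : LinearMap.ker f ≤ LinearMap.ker φ := by
    intro v hv
    rw [LinearMap.mem_ker, hf] at hv
    rw [LinearMap.mem_ker, hφ]
    obtain ⟨u, hu⟩ := hex (v ᵥ* e2) (by rw [Matrix.vecMul_vecMul, hL.ee2])
      (by rw [Matrix.vecMul_vecMul, hL.e2d1, hv])
    have h1 : evb c v = evb c (v ᵥ* e2) := by rw [evb_vecMul, he]
    rw [h1, ← hu, evb_vecMul, hd, evb_apply]
    simp
  have hinj : Function.Injective ((LinearMap.ker f).liftQ f le_rfl) := by
    rw [← LinearMap.ker_eq_bot]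
    exact Submodule.ker_liftQ_eq_bot _ _ _ le_rfl
  obtain ⟨β, hβ⟩ := (Module.Baer.of_divisible (A := ℚ)).extension_property _ hinj
    ((LinearMap.ker f).liftQ φ hker)
  have hβ' : ∀ v, β (v ᵥ* d1) = evb c v := by
    intro v
    have h1 := LinearMap.congr_fun hβ (Submodule.Quotient.mk v)
    rw [LinearMap.comp_apply, Submodule.liftQ_apply, Submodule.liftQ_apply] at h1
    exact h1
  let b : Fin n → (G → ℚ) := fun j x => β ((gof x • Pi.single j (1 : RR G)) ᵥ* e1)
  have hb : ∀ v, evb b v = β (v ᵥ* e1) := by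
    intro v
    refine hom_ext (F := evb b)
      (F' := β.toAddMonoidHom.comp (AddMonoidHom.mk' (fun v => v ᵥ* e1)
        (fun v v' => Matrix.add_vecMul _ _ _))) (fun x j => ?_) v
    rw [evb_single]
    rfl
  have hmv : ∀ (A : MR G n) (i : Fin n) (x : G),
      mv A b i x = evb b ((gof x • Pi.single i (1 : RR G)) ᵥ* A) := by
    intro A i x
    rw [evb_vecMul, evb_single]
  refine ⟨b, ?_, ?_⟩
  · funext i x
    rw [hmv, hb, Matrix.vecMul_vecMul, hL.ee1]
  · funext i x
    rw [hmv, hb, Matrix.vecMul_vecMul, hL.d1e1, hβ', evb_single]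

/-! ## From derivations to cochains -/

/-- the additive extension -/
def Th (ε : (Fin n → RR G) →+ ℤ) (D : G → (G → M)) : (Fin n → RR G) →+ (G → M) where
  toFun v := ∑ j, ε (Pi.single j 1) • addR D (v j)
  map_zero' := by simp
  map_add' v v' := by
    rw [← Finset.sum_add_distrib]
    exact Finset.sum_congr rfl fun j _ => by rw [Pi.add_apply, map_add, smul_add]

theorem Th_apply (ε : (Fin n → RR G) →+ ℤ) (D : G → (G → M)) (v : Fin n → RR G) :
    Th ε D v = ∑ j, ε (Pi.single j 1) • addR D (v j) := rfl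

theorem Th_single (ε : (Fin n → RR G) →+ ℤ) (D : G → (G → M)) (x : G) (j : Fin n) :
    Th ε D (gof x • Pi.single j 1) = ε (Pi.single j 1) • D x := by
  rw [Th_apply, Finset.sum_eq_single j]
  · rw [Pi.smul_apply, Pi.single_eq_same, smul_eq_mul, mul_one, addR_of]
  · intro i _ hi
    rw [Pi.smul_apply, Pi.single_eq_of_ne hi, smul_zero, map_zero, smul_zero]
  · intro h
    exact absurd (Finset.mem_univ j) h

theorem Th_sub (ε : (Fin n → RR G) →+ ℤ) (D D' : G → (G → M)) (v : Fin n → RR G) :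
    Th ε (fun g => D g - D' g) v = Th ε D v - Th ε D' v := by
  refine hom_ext (F := Th ε (fun g => D g - D' g)) (F' := Th ε D - Th ε D') (fun x j => ?_) v
  rw [AddMonoidHom.sub_apply, Th_single, Th_single, Th_single, smul_sub]

/-- induction for membership in a submodule -/
theorem mem_ind {W : Submodule ℤ (G → M)} (F : (Fin n → RR G) →+ (G → M))
    (h : ∀ (x : G) (j : Fin n), F (gof x • Pi.single j 1) ∈ W) (v : Fin n → RR G) : F v ∈ W := by
  have h1 := hom_ext (F := W.mkQ.toAddMonoidHom.comp F) (F' := 0) (fun x j => by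
    change Submodule.Quotient.mk (F (gof x • Pi.single j 1)) = 0
    rw [Submodule.Quotient.mk_eq_zero]
    exact h x j) v
  change Submodule.Quotient.mk (F v) = 0 at h1
  rwa [Submodule.Quotient.mk_eq_zero] at h1

section

variable {ε : (Fin n → RR G) →+ ℤ} (hε : ∀ (g : G) (v : Fin n → RR G), ε (gof g • v) = ε v)
  {W : Submodule ℤ (G → M)} (hW : Stable W) {D : G → (G → M)} (hD : DerM W D)

include hε hW hD

theorem Th_smul (g : G) (v : Fin n → RR G) :
    Th ε D (gof g • v) - (ε v • D g + tr M g (Th ε D v)) ∈ W := by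
  let F : (Fin n → RR G) →+ (G → M) := AddMonoidHom.mk'
    (fun v => Th ε D (gof g • v) - (ε v • D g + tr M g (Th ε D v))) (fun v v' => by
      rw [smul_add, map_add, map_add, map_add, map_add, add_smul]
      abel)
  refine mem_ind (W := W) F (fun x j => ?_) v
  change Th ε D (gof g • gof x • Pi.single j 1) - (ε (gof x • Pi.single j 1) • D g +
    tr M g (Th ε D (gof x • Pi.single j 1))) ∈ W
  rw [smul_smul, ← gof_mul, Th_single, Th_single, hε, map_zsmul, ← smul_add, ← smul_sub]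
  exact W.smul_mem _ (hD g x)

theorem Th_rsmul (r : RR G) {v : Fin n → RR G} (hv : ε v = 0) :
    Th ε D (r • v) - rho M r (Th ε D v) ∈ W := by
  induction r using rr_ind with
  | h1 g =>
    have h1 := Th_smul hε hW hD g v
    rwa [hv, zero_smul, zero_add, ← rho_of] at h1
  | h2 x y hx hy =>
    have h1 := W.add_mem hx hy
    convert h1 using 1
    rw [add_smul, map_add, map_add, LinearMap.add_apply]
    abel
  | h3 x hx =>
    have h1 := W.neg_mem hx
    convert h1 using 1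
    rw [neg_smul, map_neg, map_neg, LinearMap.neg_apply]
    abel

end

/-- the cochain of a derivation -/
def bD (ε : (Fin n → RR G) →+ ℤ) (d0 : MR G n) (D : G → (G → M)) : Fin n → (G → M) :=
  fun j => Th ε D (d0 j)

theorem bD_sub (ε : (Fin n → RR G) →+ ℤ) (d0 : MR G n) (D D' : G → (G → M)) :
    bD ε d0 (fun g => D g - D' g) = bD ε d0 D - bD ε d0 D' := by
  funext j
  exact Th_sub _ _ _ _

section

variable {ε : (Fin n → RR G) →+ ℤ} (hε : ∀ (g : G) (v : Fin n → RR G), ε (gof g • v) = ε v)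
  (hεd : ∀ v, ε (v ᵥ* d0) = 0)
  {W : Submodule ℤ (G → M)} (hW : Stable W) {D : G → (G → M)} (hD : DerM W D)

include hε hεd hW hD

theorem evf_bD (v : Fin n → RR G) : evf (bD ε d0 D) v - Th ε D (v ᵥ* d0) ∈ W := by
  have h1 : v ᵥ* d0 = ∑ j, v j • d0 j := Matrix.vecMul_eq_sum _ _
  rw [h1, map_sum]
  unfold evf
  rw [← Finset.sum_sub_distrib]
  refine W.sum_mem fun j _ => ?_
  have h2 : ε (d0 j) = 0 := by
    have := hεd (Pi.single j 1)
    rwa [Matrix.single_one_vecMul] at this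
  have h3 := W.neg_mem (Th_rsmul hε hW hD (v j) h2)
  rwa [neg_sub] at h3

theorem d1_bD (hdd : d1 * d0 = 0) (i : Fin n) : mv d1 (bD ε d0 D) i ∈ W := by
  have h1 := evf_bD hε hεd hW hD (d1 i)
  have h2 : d1 i ᵥ* d0 = 0 := congrFun hdd i
  rw [h2, map_zero, sub_zero, evf_row] at h1
  exact h1

theorem e1_bD (he : e1 * d0 = d0) (i : Fin n) : mv e1 (bD ε d0 D) i - bD ε d0 D i ∈ W := by
  have h1 := evf_bD hε hεd hW hD (e1 i)
  have h2 : e1 i ᵥ* d0 = d0 i := congrFun he i
  rw [h2, evf_row] at h1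
  exact h1

theorem inn_of_bD {u0 : Fin n → RR G} (hεu0 : ε u0 = 1)
    (hy : ∀ g : G, ∃ v, v ᵥ* d0 = gof g • u0 - u0) {a : Fin n → (G → M)}
    (ha : ∀ i, bD ε d0 D i - mv d0 a i ∈ W) : InnM W D := by
  refine ⟨evf a u0 - Th ε D u0, fun g => ?_⟩
  obtain ⟨y, hy⟩ := hy g
  have h1 := evf_bD hε hεd hW hD y
  rw [hy, map_sub] at h1
  have h2 := Th_smul hε hW hD g u0
  rw [hεu0, one_smul] at h2
  have h3 : evf (fun i => bD ε d0 D i - mv d0 a i) y ∈ W := evf_mem hW ha y
  have h4 : evf (fun i => bD ε d0 D i - mv d0 a i) y =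
      evf (bD ε d0 D) y - (tr M g (evf a u0) - evf a u0) := by
    have h5 : evf (fun i => bD ε d0 D i - mv d0 a i) y = evf (bD ε d0 D) y - evf (mv d0 a) y := by
      unfold evf
      rw [← Finset.sum_sub_distrib]
      exact Finset.sum_congr rfl fun i _ => map_sub _ _ _
    rw [h5, ← evf_vecMul, hy, evf_sub, evf_smul, rho_of]
  rw [h4] at h3
  have h6 := W.sub_mem (W.sub_mem h3 h1) h2
  convert h6 using 1
  rw [map_sub]
  abel

end

/-- derivations into the full function module are inner -/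
theorem inn_top {D : G → (G → M)} (hD : ∀ g h, D (g * h) = D g + tr M g (D h)) :
    ∃ b, ∀ g, D g = tr M g b - b := by
  refine ⟨fun x => D x 1, fun g => ?_⟩
  funext x
  change D g x = D (x * g) 1 - D x 1
  rw [hD, Pi.add_apply, tr_apply, one_mul, add_sub_cancel_left]

/-- two derivations modulo `W` with cohomologous classes -/
theorem der_class (hL : Low e0 e1 e2 d0 d1) {ε : (Fin n → RR G) →+ ℤ}
    (hε : ∀ (g : G) (v : Fin n → RR G), ε (gof g • v) = ε v)
    (hεd : ∀ v, ε (v ᵥ* d0) = 0)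
    {W : Submodule ℤ (G → M)} (hW : Stable W) {D D' : G → (G → M)} (hD : DerM W D)
    (hD' : DerM W D') {u0 : Fin n → RR G} (hεu0 : ε u0 = 1)
    (hy : ∀ g : G, ∃ v, v ᵥ* d0 = gof g • u0 - u0) {b : Fin n → (G → M)} (hb : ∀ i, b i ∈ W)
    (hbd : mv d1 (bD ε d0 D) - mv d1 (bD ε d0 D') = mv d1 b) :
    InnM W (fun g => D g - D' g) := by
  have hDD : DerM W (fun g => D g - D' g) := by
    intro g h
    have h1 := W.sub_mem (hD g h) (hD' g h)
    convert h1 using 1
    change D (g * h) - D' (g * h) - ((D g - D' g) + tr M g (D h - D' h)) = _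
    rw [map_sub]
    abel
  let β : Fin n → (G → M) := mv e1 (bD ε d0 D - bD ε d0 D' - b)
  have h1 : mv e1 β = β := by
    change mv e1 (mv e1 _) = mv e1 _
    rw [← mv_mul, hL.ee1]
  have h2 : mv d1 β = 0 := by
    change mv d1 (mv e1 _) = 0
    rw [← mv_mul, hL.d1e1, mv_sub, mv_sub, hbd, sub_self]
  obtain ⟨a, -, ha⟩ := h1_zero hL (W := ⊤) (fun g f _ => Submodule.mem_top)
    (fun D _ hD => by
      obtain ⟨b, hb⟩ := inn_top hD
      exact ⟨b, Submodule.mem_top, hb⟩) (c := β) (fun i => Submodule.mem_top) h1 h2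
  refine inn_of_bD hε hεd hW hDD hεu0 hy (a := a) fun i => ?_
  rw [ha, bD_sub]
  have h3 := W.neg_mem (e1_bD hε hεd hW hD hL.e1d0 i)
  have h4 := e1_bD hε hεd hW hD' hL.e1d0 i
  have h5 : mv e1 b i ∈ W := by
    rw [← evf_row]
    exact evf_mem hW hb _
  have h6 := W.add_mem (W.add_mem h3 h4) h5
  convert h6 using 1
  change (bD ε d0 D - bD ε d0 D') i - mv e1 (bD ε d0 D - bD ε d0 D' - b) i = _
  rw [mv_sub, mv_sub, Pi.sub_apply, Pi.sub_apply, Pi.sub_apply]
  abel

end

end Pool.Agent.H26.PD.PN
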