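import Pool.Agent.H26.PN.Ind
import Pool.Agent.H26.PN.Quo
import Pool.Agent.H26.PD.Idem

/-!
Functions on `L \ G` with finite support and Poincaré duality in degree two.
-/

set_option autoImplicit false
set_option linter.unusedSectionVars false

namespace Pool.Agent.H26.PD.PN

open Pool.Agent.Helper386.PD3
open scoped Classical Matrix

noncomputable section

variable {G : Type} [Group G]

/-- functions on `L \ G` with finite support -/
def WL (L : Subgroup G) (M : Type) [AddCommGroup M] : Submodule ℤ (G → M) where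
  carrier := {f | (∀ l ∈ L, ∀ x, f (l * x) = f x) ∧
    ∃ S : Set (G ⧸ L), S.Finite ∧ ∀ x : G, f x ≠ 0 → ((x⁻¹ : G) : G ⧸ L) ∈ S}
  add_mem' := by
    rintro f f' ⟨h1, S, hS, h2⟩ ⟨h1', S', hS', h2'⟩
    refine ⟨fun l hl x => ?_, S ∪ S', hS.union hS', fun x hx => ?_⟩
    · rw [Pi.add_apply, Pi.add_apply, h1 l hl, h1' l hl]
    · by_contra h
      rw [Set.mem_union, not_or] at h
      apply hx
      rw [Pi.add_apply, not_not.1 fun h3 => h.1 (h2 x h3), not_not.1 fun h3 => h.2 (h2' x h3),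
        add_zero]
  zero_mem' := ⟨fun _ _ _ => rfl, ∅, Set.finite_empty, fun x hx => absurd rfl hx⟩
  smul_mem' := by
    rintro k f ⟨h1, S, hS, h2⟩
    refine ⟨fun l hl x => ?_, S, hS, fun x hx => h2 x fun h3 => hx ?_⟩
    · rw [Pi.smul_apply, Pi.smul_apply, h1 l hl]
    · rw [Pi.smul_apply, h3, smul_zero]

variable {L : Subgroup G} {M : Type} [AddCommGroup M]

theorem stable_WL : Stable (WL L M) := by
  rintro g f ⟨h1, S, hS, h2⟩
  refine ⟨fun l hl x => ?_, (fun q => g • q) '' S, hS.image _, fun x hx => ?_⟩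
  · rw [tr_apply, tr_apply, mul_assoc, h1 l hl]
  · refine ⟨_, h2 (x * g) hx, ?_⟩
    change ((g * (x * g)⁻¹ : G) : G ⧸ L) = _
    rw [mul_inv_rev, mul_inv_cancel_left]

theorem WL_map {M' : Type} [AddCommGroup M'] (φ : M →+ M') {f : G → M} (hf : f ∈ WL L M) :
    (fun x => φ (f x)) ∈ WL L M' := by
  obtain ⟨h1, S, hS, h2⟩ := hf
  refine ⟨fun l hl x => congrArg φ (h1 l hl x), S, hS, fun x hx => h2 x fun h3 => hx ?_⟩
  change φ (f x) = 0
  rw [h3, map_zero]

/-- sum over the cosets -/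
def su (L : Subgroup G) : RR G →+ (G → ℤ) where
  toFun u x := eps (prH L (gof x * u))
  map_zero' := by
    funext x
    rw [mul_zero, map_zero, map_zero]
    rfl
  map_add' u u' := by
    funext x
    rw [mul_add, map_add, map_add]
    rfl

theorem su_apply (u : RR G) (x : G) : su L u x = eps (prH L (gof x * u)) := rfl

theorem su_mul (r u : RR G) : su L (r * u) = rho ℤ r (su L u) := by
  induction r using rr_ind with
  | h1 g =>
    funext x
    rw [rho_of_apply, su_apply, su_apply, gof_mul, mul_assoc]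
  | h2 a b ha hb => rw [add_mul, map_add, ha, hb, map_add, LinearMap.add_apply]
  | h3 a ha => rw [neg_mul, map_neg, ha, map_neg, LinearMap.neg_apply]

theorem su_gof (g x : G) : su L (gof g) x = if x * g ∈ L then 1 else 0 := by
  rw [su_apply, ← gof_mul]
  split_ifs with h
  · rw [prH_gof h, eps_of]
  · rw [prH_gof_notMem L h, map_zero]

theorem su_mem (u : RR G) : su L u ∈ WL L ℤ := by
  induction u using rr_ind with
  | h1 g =>
    refine ⟨fun l hl x => ?_, {((g : G) : G ⧸ L)}, Set.finite_singleton _, fun x hx => ?_⟩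
    · rw [su_gof, su_gof, mul_assoc, L.mul_mem_cancel_left hl]
    · rw [su_gof] at hx
      have h1 : x * g ∈ L := by
        by_contra h
        exact hx (if_neg h)
      rw [Set.mem_singleton_iff, QuotientGroup.eq, inv_inv]
      exact h1
  | h2 a b ha hb => rw [map_add]; exact Submodule.add_mem _ ha hb
  | h3 a ha => rw [map_neg]; exact Submodule.neg_mem _ ha

theorem su_surj {f : G → ℤ} (hf : f ∈ WL L ℤ) : ∃ u, su L u = f := by
  obtain ⟨h1, S, hS, h2⟩ := hf
  refine ⟨∑ q ∈ hS.toFinset, f (q.out)⁻¹ • gof q.out, ?_⟩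
  funext x
  rw [map_sum, Finset.sum_apply]
  have h3 : ∀ q : G ⧸ L, su L (f (q.out)⁻¹ • gof q.out) x =
      if x * q.out ∈ L then f (q.out)⁻¹ else 0 := by
    intro q
    rw [map_zsmul, Pi.smul_apply, su_gof, smul_eq_mul]
    split_ifs <;> simp
  have h4 : ∀ q : G ⧸ L, x * q.out ∈ L ↔ q = ((x⁻¹ : G) : G ⧸ L) := by
    intro q
    have h5 : ((q.out : G) : G ⧸ L) = q := QuotientGroup.out_eq' q
    conv_rhs => rw [← h5, eq_comm, QuotientGroup.eq, inv_inv]
  simp only [h3]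
  by_cases hx : ((x⁻¹ : G) : G ⧸ L) ∈ S
  · rw [Finset.sum_eq_single ((x⁻¹ : G) : G ⧸ L)]
    · have hm := (h4 _).2 rfl
      rw [if_pos hm, ← h1 _ hm]
      congr 1
      rw [mul_inv_cancel_right]
    · intro q _ hq
      rw [if_neg fun h => hq ((h4 q).1 h)]
    · intro h
      exact absurd (hS.mem_toFinset.2 hx) h
  · rw [Finset.sum_eq_zero]
    · by_contra h
      exact hx (h2 x (Ne.symm h))
    · intro q hq
      rw [if_neg]
      intro h
      rw [h4] at h
      rw [h] at hq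
      exact hx (hS.mem_toFinset.1 hq)

/-- decomposition along left cosets -/
theorem exists_leftL (L : Subgroup G) (r : RR G) : ∃ S : Finset (G ⧸ L), ∀ S', S ⊆ S' →
    ∑ q ∈ S', gof q.out * inc L (prH L (gof (q.out)⁻¹ * r)) = r := by
  induction r using rr_ind with
  | h1 g =>
    refine ⟨{((g : G) : G ⧸ L)}, fun S' hS' => ?_⟩
    rw [Finset.sum_eq_single ((g : G) : G ⧸ L)]
    · have hm : (((g : G) : G ⧸ L).out)⁻¹ * g ∈ L := by
        rw [← QuotientGroup.eq]
        exact QuotientGroup.out_eq' _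
      rw [← gof_mul, prH_gof hm, inc_of, ← gof_mul]
      congr 1
      change (((g : G) : G ⧸ L).out) * ((((g : G) : G ⧸ L).out)⁻¹ * g) = g
      rw [mul_inv_cancel_left]
    · intro q _ hq
      rw [← gof_mul, prH_gof_notMem L, map_zero, mul_zero]
      intro h
      apply hq
      have h5 : ((q.out : G) : G ⧸ L) = q := QuotientGroup.out_eq' q
      rw [← h5, QuotientGroup.eq]
      exact h
    · intro h
      exact absurd (hS' (Finset.mem_singleton_self _)) h
  | h2 a b ha hb =>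
    obtain ⟨S, hS⟩ := ha
    obtain ⟨T, hT⟩ := hb
    refine ⟨S ∪ T, fun S' hS' => ?_⟩
    conv_rhs => rw [← hS S' (Finset.union_subset_left hS'), ← hT S' (Finset.union_subset_right hS')]
    rw [← Finset.sum_add_distrib]
    exact Finset.sum_congr rfl fun q _ => by rw [mul_add, map_add, map_add, mul_add]
  | h3 a ha =>
    obtain ⟨S, hS⟩ := ha
    refine ⟨S, fun S' hS' => ?_⟩
    conv_rhs => rw [← hS S' hS']
    rw [← Finset.sum_neg_distrib]
    exact Finset.sum_congr rfl fun q _ => by rw [mul_neg, map_neg, map_neg, mul_neg]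

theorem su_eq_zero {m : ℕ} (h : Fin m → L) (hgen : Subgroup.closure (Set.range h) = ⊤)
    {u : RR G} (hu : su L u = 0) : ∃ η : Fin m → RR G, u = ∑ a, η a * (gof (h a : G) - 1) := by
  obtain ⟨S, hS⟩ := exists_leftL L u
  have h1 : ∀ q : G ⧸ L, ∃ θ : Fin m → RR L, bd h θ = prH L (gof (q.out)⁻¹ * u) := by
    intro q
    apply bd_surj' h hgen
    exact congrFun hu (q.out)⁻¹
  choose θ hθ using h1
  refine ⟨fun a => ∑ q ∈ S, gof q.out * inc L (θ q a), ?_⟩
  conv_lhs => rw [← hS S le_rfl]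
  simp only [Finset.sum_mul]
  rw [Finset.sum_comm]
  refine Finset.sum_congr rfl fun q _ => ?_
  rw [← hθ, bd_apply, map_sum, Finset.mul_sum]
  exact Finset.sum_congr rfl fun a _ => by
    rw [map_mul, map_sub, inc_of, map_one, mul_assoc]

theorem su_sub_one (r : RR G) {l : G} (hl : l ∈ L) : su L (r * (gof l - 1)) = 0 := by
  rw [su_mul]
  have h1 : su L (gof l - 1) = 0 := by
    rw [map_sub, ← gof_one]
    funext x
    rw [Pi.sub_apply, su_gof, su_gof, mul_one, Pi.zero_apply]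
    by_cases hx : x ∈ L
    · rw [if_pos hx, if_pos (L.mul_mem hx hl), sub_self]
    · rw [if_neg hx, if_neg fun h => hx ((L.mul_mem_cancel_right hl).1 h), sub_self]
  rw [h1, map_zero]

variable {n : ℕ} {w : G →* ℤˣ}

/-- the cochain of a chain -/
def cz (L : Subgroup G) (w : G →* ℤˣ) (v : Fin n → RR G) : Fin n → (G → ℤ) :=
  fun k => su L (dg w (v k))

theorem cz_add (v v' : Fin n → RR G) : cz L w (v + v') = cz L w v + cz L w v' := by
  funext k
  change su L (dg w (v k + v' k)) = _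
  rw [dg_add, map_add]
  rfl

theorem cz_neg (v : Fin n → RR G) : cz L w (-v) = -cz L w v := by
  funext k
  change su L (dg w (-v k)) = _
  rw [dg_neg, map_neg]
  rfl

theorem cz_sub (v v' : Fin n → RR G) : cz L w (v - v') = cz L w v - cz L w v' := by
  rw [sub_eq_add_neg, cz_add, cz_neg, sub_eq_add_neg]

theorem cz_zsmul (z : ℤ) (v : Fin n → RR G) : cz L w (z • v) = z • cz L w v := by
  funext k
  change su L (dg w (z • v k)) = _
  rw [dg_zsmul, map_zsmul]
  rfl

theorem cz_zero : cz L w (0 : Fin n → RR G) = 0 := by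
  funext k
  change su L (dg w 0) = _
  rw [dg_zero, map_zero]
  rfl

theorem mv_cz (A : MR G n) (v : Fin n → RR G) : mv A (cz L w v) = cz L w (v ᵥ* dgM w A) := by
  funext i
  rw [mv_apply]
  have h1 : ∀ k, rho ℤ (A i k) (cz L w v k) = su L (A i k * dg w (v k)) :=
    fun k => (su_mul _ _).symm
  simp only [h1]
  rw [← map_sum]
  change _ = su L (dg w (∑ k, v k * dg w (A i k)))
  rw [dg_sum]
  congr 1
  exact Finset.sum_congr rfl fun k _ => by rw [dg_mul, dg_dg]

theorem cz_smul {l : G} (hl : l ∈ L) (v : Fin n → RR G) :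
    cz L w (dg w (gof l - 1) • v) = 0 := by
  funext k
  change su L (dg w (dg w (gof l - 1) * v k)) = 0
  rw [dg_mul, dg_dg]
  exact su_sub_one _ hl

theorem cz_mem (v : Fin n → RR G) (k : Fin n) : cz L w v k ∈ WL L ℤ := su_mem _

/-- surjectivity modulo `p` -/
theorem su_surj_p {p : ℕ} [NeZero p] {f : G → ZMod p} (hf : f ∈ WL L (ZMod p)) :
    ∃ u, ∀ x, ((su L u x : ℤ) : ZMod p) = f x := by
  obtain ⟨u, hu⟩ := su_surj (L := L) (f := fun x => ((f x).val : ℤ)) (by
    obtain ⟨h1, S, hS, h2⟩ := hf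
    refine ⟨fun l hl x => congrArg (fun z : ZMod p => ((z.val : ℕ) : ℤ)) (h1 l hl x), S, hS,
      fun x hx => h2 x fun h3 => hx ?_⟩
    change (((f x).val : ℕ) : ℤ) = 0
    rw [h3, ZMod.val_zero]
    rfl)
  refine ⟨u, fun x => ?_⟩
  rw [hu, Int.cast_natCast, ZMod.natCast_zmod_val]

/-- the kernel modulo `p` -/
theorem su_ker_p {p : ℕ} [NeZero p] {m : ℕ} (h : Fin m → L)
    (hgen : Subgroup.closure (Set.range h) = ⊤) {u : RR G}
    (hu : ∀ x, ((su L u x : ℤ) : ZMod p) = 0) :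
    ∃ (η : Fin m → RR G) (θ : RR G), u = ∑ a, η a * (gof (h a : G) - 1) + (p : ℤ) • θ := by
  have hu' : ∀ x, ∃ k : ℤ, su L u x = p * k := by
    intro x
    exact (ZMod.intCast_zmod_eq_zero_iff_dvd _ p).1 (hu x)
  have hp : (p : ℤ) ≠ 0 := by exact_mod_cast NeZero.ne p
  choose f hf using hu'
  obtain ⟨θ, hθ⟩ := su_surj (L := L) (f := f) (by
    obtain ⟨h1, S, hS, h2⟩ := su_mem (L := L) u
    refine ⟨fun l hl x => ?_, S, hS, fun x hx => h2 x fun h3 => hx ?_⟩
    · have h3 := h1 l hl x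
      rw [hf, hf] at h3
      exact mul_left_cancel₀ hp h3
    · rw [hf] at h3
      exact (mul_eq_zero.1 h3).resolve_left hp)
  obtain ⟨η, hη⟩ := su_eq_zero h hgen (u := u - (p : ℤ) • θ) (by
    rw [map_sub, map_zsmul, hθ]
    funext x
    rw [Pi.sub_apply, Pi.smul_apply, hf, smul_eq_mul, sub_self]
    rfl)
  exact ⟨η, θ, by rw [← hη, sub_add_cancel]⟩

variable {e0 e1 e2 e3 d0 d1 d2 : MR G n}

theorem vecMul_mul' {X : Fin n → RR G} (A B : MR G n) : X ᵥ* A ᵥ* B = X ᵥ* (A * B) :=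
  Matrix.vecMul_vecMul _ _ _

theorem zsmul_vecMul (k : ℤ) (v : Fin n → RR G) (A : MR G n) : (k • v) ᵥ* A = k • (v ᵥ* A) :=
  Matrix.smul_vecMul _ _ _

/-- a representation of a cocycle -/
def Rep (w : G →* ℤˣ) (e2 e3 d2 : MR G n) (p : ℕ) {m : ℕ} (h : Fin m → L)
    (c : Fin n → (G → ZMod p)) (v : Fin n → RR G) (y : Fin m → Fin n → RR G)
    (θ : Fin n → RR G) : Prop :=
  (c = fun k x => ((cz L w v k x : ℤ) : ZMod p)) ∧ v ᵥ* dgM w e2 = v ∧
    (∀ a, y a ᵥ* dgM w e3 = y a) ∧ θ ᵥ* dgM w e3 = θ ∧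
    v ᵥ* dgM w d2 = ∑ a, dg w (gof (h a : G) - 1) • y a + (p : ℤ) • θ

theorem exists_rep (hF : Full w e0 e1 e2 e3 d0 d1 d2) {p : ℕ} [NeZero p] {m : ℕ} (h : Fin m → L)
    (hgen : Subgroup.closure (Set.range h) = ⊤) {c : Fin n → (G → ZMod p)}
    (hc : ∀ i, c i ∈ WL L (ZMod p)) (he : mv e2 c = c) (hd : mv d2 c = 0) :
    ∃ v y θ, Rep w e2 e3 d2 p h c v y θ := by
  have hC := hF.colow
  choose t ht using fun i => su_surj_p (hc i)
  let κ : ℤ →+ ZMod p := (Int.castRingHom (ZMod p)).toAddMonoidHom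
  let v0 : Fin n → RR G := fun k => dg w (t k)
  have hv0 : c = fun k x => κ (cz L w v0 k x) := by
    funext k x
    change _ = ((su L (dg w (dg w (t k))) x : ℤ) : ZMod p)
    rw [dg_dg, ht]
  let v := v0 ᵥ* dgM w e2
  have hv : c = fun k x => κ (cz L w v k x) := by
    rw [← he, hv0, mv_nat κ e2 (cz L w v0), mv_cz]
  have hx : ∀ i x, ((su L (dg w ((v ᵥ* dgM w d2) i)) x : ℤ) : ZMod p) = 0 := by
    intro i x
    have h1 : mv d2 c = fun k x => κ (cz L w (v ᵥ* dgM w d2) k x) := by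
      rw [hv, mv_nat κ d2 (cz L w v), mv_cz]
    rw [hd] at h1
    exact (congrFun (congrFun h1 i) x).symm
  choose η θ hη using fun i => su_ker_p h hgen (hx i)
  refine ⟨v, fun a => (fun i => dg w (η i a)) ᵥ* dgM w e3, (fun i => dg w (θ i)) ᵥ* dgM w e3,
    hv, ?_, ?_, ?_, ?_⟩
  · change v0 ᵥ* dgM w e2 ᵥ* dgM w e2 = v0 ᵥ* dgM w e2
    rw [vecMul_mul', hC.ee1]
  · intro a
    rw [vecMul_mul', hC.ee0]
  · rw [vecMul_mul', hC.ee0]
  · have h1 : v ᵥ* dgM w d2 =
        ∑ a, dg w (gof (h a : G) - 1) • (fun i => dg w (η i a)) + (p : ℤ) • (fun i => dg w (θ i)) := by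
      funext i
      have h2 := congrArg (dg w) (hη i)
      rw [dg_dg, dg_add, dg_sum, dg_zsmul] at h2
      rw [h2, Pi.add_apply, Finset.sum_apply]
      congr 1
      exact Finset.sum_congr rfl fun a _ => by rw [dg_mul]; rfl
    have h2 : v ᵥ* dgM w d2 = v ᵥ* dgM w d2 ᵥ* dgM w e3 := by
      rw [vecMul_mul' (X := v) (dgM w d2), hC.d0e0]
    rw [h2, h1, Matrix.add_vecMul, Matrix.sum_vecMul, zsmul_vecMul]
    congr 1
    exact Finset.sum_congr rfl fun a _ => Matrix.smul_vecMul _ _ _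

/-- **Finiteness of `H²(G; 𝔽_p[L \ G])`.** -/
theorem fin_cls (hF : Full w e0 e1 e2 e3 d0 d1 d2) {p : ℕ} [NeZero p] {m : ℕ} (h : Fin m → L)
    (hgen : Subgroup.closure (Set.range h) = ⊤) :
    ∃ inv : (Fin n → (G → ZMod p)) → (Fin m → ZMod p), ∀ c c' : Fin n → (G → ZMod p),
      (∀ i, c i ∈ WL L (ZMod p)) → mv e2 c = c → mv d2 c = 0 →
      (∀ i, c' i ∈ WL L (ZMod p)) → mv e2 c' = c' → mv d2 c' = 0 → inv c = inv c' →
      ∃ b : Fin n → (G → ZMod p), (∀ i, b i ∈ WL L (ZMod p)) ∧ mv d1 b = c - c' := by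
  have hC := hF.colow
  obtain ⟨ε, hε, ⟨u0, hu0, hεu0⟩, hεd, hεex⟩ := hC.aug
  have hp : (p : ℤ) ≠ 0 := by exact_mod_cast NeZero.ne p
  let inv : (Fin n → (G → ZMod p)) → (Fin m → ZMod p) := fun c a =>
    if H : ∃ v y θ, Rep w e2 e3 d2 p h c v y θ then
      ((ε (H.choose_spec.choose a) : ℤ) : ZMod p) else 0
  refine ⟨inv, fun c c' hc he hd hc' he' hd' hinv => ?_⟩
  have H := exists_rep hF h hgen hc he hd
  have H' := exists_rep hF h hgen hc' he' hd'
  have hinv' : ∀ a, ((ε (H.choose_spec.choose a) : ℤ) : ZMod p) =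
      ((ε (H'.choose_spec.choose a) : ℤ) : ZMod p) := by
    intro a
    have h1 := congrFun hinv a
    simp only [inv] at h1
    rwa [dif_pos H, dif_pos H'] at h1
  obtain ⟨θ, hcv, hv1, hy1, hθ1, hv2⟩ := H.choose_spec.choose_spec
  obtain ⟨θ', hcv', hv1', hy1', hθ1', hv2'⟩ := H'.choose_spec.choose_spec
  generalize H.choose_spec.choose = y at *
  generalize H'.choose_spec.choose = y' at *
  generalize H.choose = v at *
  generalize H'.choose = v' at *
  have hs : ∀ a, ∃ s : ℤ, ε (y a) - ε (y' a) = p * s := by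
    intro a
    have h1 := hinv' a
    rw [← sub_eq_zero, ← Int.cast_sub] at h1
    exact (ZMod.intCast_zmod_eq_zero_iff_dvd _ p).1 h1
  choose s hs using hs
  have hz : ∀ a, ∃ z, z ᵥ* dgM w d2 = (y a - y' a) - ((p : ℤ) * s a) • u0 := by
    intro a
    refine hεex _ ?_ ?_
    · rw [Matrix.sub_vecMul, Matrix.sub_vecMul, hy1, hy1', zsmul_vecMul, hu0]
    · rw [map_sub, map_sub, hs, map_zsmul, hεu0, smul_eq_mul, mul_one, sub_self]
  choose z hz using hz
  let ζ : Fin m → RR G := fun a => dg w (gof (h a : G) - 1)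
  let θ2 : Fin n → RR G := (θ - θ') + ∑ a, s a • ζ a • u0
  have hx1 : (v - v') ᵥ* dgM w d2 = ∑ a, ζ a • (z a ᵥ* dgM w d2) + (p : ℤ) • θ2 := by
    rw [Matrix.sub_vecMul, hv2, hv2']
    have h1 : ∀ a, ζ a • (z a ᵥ* dgM w d2) =
        ζ a • y a - ζ a • y' a - (p : ℤ) • s a • ζ a • u0 := by
      intro a
      rw [hz, smul_sub, smul_sub, mul_smul, smul_comm (ζ a) (p : ℤ), smul_comm (ζ a) (s a)]
    rw [Finset.sum_congr rfl fun a _ => h1 a, Finset.sum_sub_distrib, Finset.sum_sub_distrib,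
      ← Finset.smul_sum, smul_add, smul_sub]
    change ∑ a, ζ a • y a + (p : ℤ) • θ - (∑ a, ζ a • y' a + (p : ℤ) • θ') = _
    abel
  have hθ2 : ∃ z', z' ᵥ* dgM w d2 = θ2 := by
    refine hεex _ ?_ ?_
    · rw [Matrix.add_vecMul, Matrix.sub_vecMul, hθ1, hθ1', Matrix.sum_vecMul]
      congr 1
      exact Finset.sum_congr rfl fun a _ => by
        rw [zsmul_vecMul, Matrix.smul_vecMul, hu0]
    · have h1 := congrArg ε hx1
      rw [hεd, map_add, map_sum, map_zsmul] at h1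
      have h2 : ∑ a, ε (ζ a • (z a ᵥ* dgM w d2)) = 0 :=
        Finset.sum_eq_zero fun a _ => by rw [eps_eq hε, hεd, mul_zero]
      rw [h2, zero_add, smul_eq_mul] at h1
      exact (mul_eq_zero.1 h1.symm).resolve_left hp
  obtain ⟨z', hz'⟩ := hθ2
  let X : Fin n → RR G := (v - v') - ∑ a, ζ a • z a - (p : ℤ) • z'
  have hX : X ᵥ* dgM w d2 = 0 := by
    change ((v - v') - ∑ a, ζ a • z a - (p : ℤ) • z') ᵥ* dgM w d2 = 0
    rw [Matrix.sub_vecMul, Matrix.sub_vecMul _ _ (∑ a, ζ a • z a), hx1, Matrix.sum_vecMul,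
      zsmul_vecMul, hz']
    simp only [Matrix.smul_vecMul]
    abel
  obtain ⟨t, ht⟩ := hC.ex1 (X ᵥ* dgM w e2) (by rw [vecMul_mul', hC.ee1])
    (by rw [vecMul_mul', hC.e1d0, hX])
  let κ : ℤ →+ ZMod p := (Int.castRingHom (ZMod p)).toAddMonoidHom
  have hκX : (fun k x => κ (cz L w X k x)) = c - c' := by
    have h1 : cz L w X = cz L w v - cz L w v' - (p : ℤ) • cz L w z' := by
      change cz L w ((v - v') - ∑ a, ζ a • z a - (p : ℤ) • z') = _
      rw [cz_sub, cz_sub, cz_sub, cz_zsmul]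
      have h2 : cz L w (∑ a, ζ a • z a) = 0 := by
        have h3 : ∀ s : Finset (Fin m), cz L w (∑ a ∈ s, ζ a • z a) = 0 := by
          intro s
          induction s using Finset.induction_on with
          | empty => exact cz_zero
          | insert a s ha ih =>
            rw [Finset.sum_insert ha, cz_add, ih, add_zero]
            exact cz_smul (h a).2 _
        exact h3 _
      rw [h2, sub_zero]
    rw [h1, hcv, hcv']
    funext k x
    change ((cz L w v k x - cz L w v' k x - (p : ℤ) * cz L w z' k x : ℤ) : ZMod p) =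
      ((cz L w v k x : ℤ) : ZMod p) - ((cz L w v' k x : ℤ) : ZMod p)
    push_cast
    rw [ZMod.natCast_self, zero_mul, sub_zero]
  refine ⟨fun k x => κ (cz L w t k x), fun i => WL_map κ (cz_mem t i), ?_⟩
  rw [mv_nat κ d1 (cz L w t), mv_cz, ht, ← mv_cz]
  rw [← mv_nat κ e2 (cz L w X), hκX, mv_sub, he, he']

/-! ## Non-vanishing -/

theorem gof_sub_one_inj {g : G} (hg : ∀ k : ℤ, k ≠ 0 → g ^ k ≠ 1) {r : RR G}
    (h : (gof g - 1) * r = 0) : r = 0 := by
  have h1 : gof g * r = r := by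
    rw [sub_mul, one_mul, sub_eq_zero] at h
    exact h
  have h2 : ∀ x, r.coeff (g⁻¹ * x) = r.coeff x := by
    intro x
    rw [← coeff_gof_mul, h1]
  have h3 : ∀ (k : ℕ) x, r.coeff (g⁻¹ ^ k * x) = r.coeff x := by
    intro k
    induction k with
    | zero => intro x; rw [pow_zero, one_mul]
    | succ k ih => intro x; rw [pow_succ, mul_assoc, ih, h2]
  apply MonoidAlgebra.coeff_injective
  ext x
  by_contra hx
  have hx' : r.coeff x ≠ 0 := hx
  have hinj : Function.Injective (fun k : ℕ => g⁻¹ ^ k * x) := by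
    intro k k' hk
    have h4 : g⁻¹ ^ k = g⁻¹ ^ k' := mul_right_cancel hk
    by_contra hne
    have h5 : g ^ ((k : ℤ) - k') = 1 := by
      rw [inv_pow, inv_pow, inv_inj] at h4
      rw [zpow_sub, zpow_natCast, zpow_natCast, h4, mul_inv_cancel]
    exact hg _ (by omega) h5
  apply Set.infinite_range_of_injective hinj
  refine r.coeff.support.finite_toSet.subset ?_
  rintro y ⟨k, rfl⟩
  rw [Finset.mem_coe, Finsupp.mem_support_iff, h3]
  exact hx'

theorem su_surj_rat {f : G → ℚ} (hf : f ∈ WL L ℚ) :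
    ∃ D : ℤ, D ≠ 0 ∧ ∃ u, ∀ x, ((su L u x : ℤ) : ℚ) = D * f x := by
  obtain ⟨h1, S, hS, h2⟩ := hf
  let D : ℤ := ∏ q ∈ hS.toFinset, ((f (q.out)⁻¹).den : ℤ)
  have hD : D ≠ 0 := Finset.prod_ne_zero_iff.2 fun q _ => by exact_mod_cast (f (q.out)⁻¹).den_nz
  have hk : ∀ x, ∃ k : ℤ, (k : ℚ) = D * f x := by
    intro x
    by_cases hx : f x = 0
    · exact ⟨0, by rw [hx, mul_zero, Int.cast_zero]⟩
    · have h3 := h2 x hx
      set q := ((x⁻¹ : G) : G ⧸ L) with hq
      have h5 : ((q.out : G) : G ⧸ L) = q := QuotientGroup.out_eq' q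
      have h6 : x * q.out ∈ L := by
        have h7 : ((x⁻¹ : G) : G ⧸ L) = ((q.out : G) : G ⧸ L) := h5.symm
        rw [QuotientGroup.eq, inv_inv] at h7
        exact h7
      have h8 : f x = f (q.out)⁻¹ := by
        have h9 := h1 _ h6 (q.out)⁻¹
        rwa [mul_inv_cancel_right] at h9
      obtain ⟨d, hd⟩ : ((f (q.out)⁻¹).den : ℤ) ∣ D :=
        Finset.dvd_prod_of_mem (fun q : G ⧸ L => ((f (q.out)⁻¹).den : ℤ)) (hS.mem_toFinset.2 h3)
      refine ⟨d * (f (q.out)⁻¹).num, ?_⟩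
      rw [hd, h8]
      have h9 := Rat.mul_den_eq_num (f (q.out)⁻¹)
      push_cast
      rw [← h9]
      ring
  choose k hk using hk
  obtain ⟨u, hu⟩ := su_surj (L := L) (f := k) (by
    refine ⟨fun l hl x => ?_, S, hS, fun x hx => h2 x fun h3 => hx ?_⟩
    · have h3 : ((k (l * x) : ℤ) : ℚ) = k x := by rw [hk, hk, h1 l hl]
      exact_mod_cast h3
    · have h4 := hk x
      rw [h3, mul_zero] at h4
      exact_mod_cast h4)
  exact ⟨D, hD, u, fun x => by rw [hu, hk]⟩

/-- **Non-vanishing of `H²(G; ℚ[L \ G])`** for an infinite cyclic subgroup `L`. -/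
theorem nonvan (hF : Full w e0 e1 e2 e3 d0 d1 d2) {g : G} (hg : ∀ k : ℤ, k ≠ 0 → g ^ k ≠ 1)
    (hw : w g = 1) : ∃ c : Fin n → (G → ℚ), (∀ i, c i ∈ WL (Subgroup.zpowers g) ℚ) ∧
      mv e2 c = c ∧ mv d2 c = 0 ∧
      ∀ b : Fin n → (G → ℚ), (∀ i, b i ∈ WL (Subgroup.zpowers g) ℚ) → mv d1 b ≠ c := by
  have hC := hF.colow
  obtain ⟨ε, hε, ⟨u0, hu0, hεu0⟩, hεd, hεex⟩ := hC.aug
  obtain ⟨z0, hz0⟩ := hεex (gof g • u0 - u0)
    (by rw [Matrix.sub_vecMul, Matrix.smul_vecMul, hu0]) (by rw [map_sub, hε, sub_self])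
  let z : Fin n → RR G := z0 ᵥ* dgM w e2
  have hz1 : z ᵥ* dgM w e2 = z := by
    change z0 ᵥ* dgM w e2 ᵥ* dgM w e2 = z0 ᵥ* dgM w e2
    rw [vecMul_mul', hC.ee1]
  have hz2 : z ᵥ* dgM w d2 = gof g • u0 - u0 := by
    change z0 ᵥ* dgM w e2 ᵥ* dgM w d2 = _
    rw [vecMul_mul', hC.e1d0, hz0]
  let κ : ℤ →+ ℚ := (Int.castRingHom ℚ).toAddMonoidHom
  have hκ : Function.Injective κ := Int.cast_injective
  let L := Subgroup.zpowers g
  have hgL : g ∈ L := Subgroup.mem_zpowers g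
  refine ⟨fun k x => κ (cz L w z k x), fun i => WL_map κ (cz_mem z i), ?_, ?_, ?_⟩
  · rw [mv_nat κ e2 (cz L w z), mv_cz, hz1]
  · rw [mv_nat κ d2 (cz L w z), mv_cz, hz2]
    have h1 : gof g • u0 - u0 = dg w (gof g⁻¹ - 1) • u0 := by
      rw [dg_sub, dg_one, dg_of, inv_inv, map_inv, hw, inv_one, Units.val_one, one_smul, sub_smul,
        one_smul]
    rw [h1, cz_smul (L.inv_mem hgL)]
    funext k x
    exact map_zero κ
  · intro b hb hbc
    choose D hD u hu using fun i => su_surj_rat (hb i)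
    let D0 : ℤ := ∏ i, D i
    have hD0 : D0 ≠ 0 := Finset.prod_ne_zero_iff.2 fun i _ => hD i
    have hdvd : ∀ i, ∃ d : ℤ, D0 = D i * d := fun i => Finset.dvd_prod_of_mem _ (Finset.mem_univ i)
    choose d hd using hdvd
    let t : Fin n → RR G := fun i => dg w (d i • u i)
    have ht : (fun k x => κ (cz L w t k x)) = D0 • b := by
      funext k x
      change ((su L (dg w (dg w (d k • u k))) x : ℤ) : ℚ) = D0 • b k x
      rw [dg_dg, map_zsmul, Pi.smul_apply, smul_eq_mul, Int.cast_mul, hu, hd k, zsmul_eq_mul,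
        Int.cast_mul]
      ring
    let X : Fin n → RR G := D0 • z - t ᵥ* dgM w d1
    have hX : cz L w X = 0 := by
      have h1 : (fun k x => κ (cz L w (t ᵥ* dgM w d1) k x)) =
          fun k x => κ (cz L w (D0 • z) k x) := by
        rw [← mv_cz, ← mv_nat κ d1 (cz L w t), ht]
        have h2 : mv d1 (D0 • b) = D0 • mv d1 b := by
          funext i
          rw [mv_apply, Pi.smul_apply, mv_apply, Finset.smul_sum]
          exact Finset.sum_congr rfl fun j _ => by rw [Pi.smul_apply, map_zsmul]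
        rw [h2, hbc, cz_zsmul]
        funext k x
        change D0 • κ (cz L w z k x) = κ (D0 • cz L w z k x)
        rw [map_zsmul]
      change cz L w (D0 • z - t ᵥ* dgM w d1) = 0
      rw [cz_sub, sub_eq_zero]
      funext k x
      exact (hκ (congrFun (congrFun h1 k) x)).symm
    have hgen : Subgroup.closure (Set.range (fun _ : Fin 1 => (⟨g, hgL⟩ : L))) = ⊤ := by
      rw [Set.range_const, ← Subgroup.zpowers_eq_closure, eq_top_iff]
      rintro ⟨x, hx⟩ -
      obtain ⟨k, rfl⟩ := Subgroup.mem_zpowers_iff.1 hx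
      exact Subgroup.mem_zpowers_iff.2 ⟨k, rfl⟩
    choose η hη using fun k => su_eq_zero (fun _ : Fin 1 => (⟨g, hgL⟩ : L)) hgen
      (show su L (dg w (X k)) = 0 from congrFun hX k)
    let y : Fin n → RR G := fun k => dg w (η k 0)
    have hXy : X = (gof g⁻¹ - 1) • y := by
      funext k
      have h1 := congrArg (dg w) (hη k)
      rw [dg_dg, Fin.sum_univ_one, dg_mul, dg_sub, dg_one, dg_of, hw, Units.val_one,
        one_smul] at h1
      exact h1
    have h1 : X ᵥ* dgM w d2 = D0 • (gof g • u0 - u0) := by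
      change (D0 • z - t ᵥ* dgM w d1) ᵥ* dgM w d2 = _
      rw [Matrix.sub_vecMul, zsmul_vecMul, hz2, vecMul_mul', hC.dd, Matrix.vecMul_zero, sub_zero]
    rw [hXy, Matrix.smul_vecMul] at h1
    have h2 : ∀ k, (gof g - 1) * ((D0 • u0 + gof g⁻¹ • (y ᵥ* dgM w d2)) k) = 0 := by
      intro k
      have h3 := congrFun h1 k
      change (gof g⁻¹ - 1) * (y ᵥ* dgM w d2) k = D0 • (gof g * u0 k - u0 k) at h3
      change (gof g - 1) * (D0 • u0 k + gof g⁻¹ * (y ᵥ* dgM w d2) k) = 0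
      have h4 : (gof g - 1) * (gof g⁻¹ * (y ᵥ* dgM w d2) k) =
          -((gof g⁻¹ - 1) * (y ᵥ* dgM w d2) k) := by
        rw [← mul_assoc, sub_mul, ← gof_mul, mul_inv_cancel, gof_one, one_mul, ← neg_mul, neg_sub]
      rw [mul_add, h4, h3, mul_smul_comm, sub_mul, one_mul, add_neg_cancel]
    have h3 : D0 • u0 + gof g⁻¹ • (y ᵥ* dgM w d2) = 0 := by
      funext k
      exact gof_sub_one_inj hg (h2 k)
    have h4 := congrArg ε h3
    rw [map_add, map_zsmul, hεu0, hε, hεd, map_zero, add_zero, smul_eq_mul, mul_one] at h4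
    exact hD0 h4

end

end Pool.Agent.H26.PD.PN
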